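import Mathlib

/-!
Combinatorics of the index sets of the staircase ideal.
-/

set_option autoImplicit false

namespace Pool.Agent.H353Z.Comb

/-- `σ` is a sum of at most `k` powers `K ^ i` with `i ≤ H` -/
def Sm (K H : ℕ) : ℕ → ℕ → Prop
  | 0, σ => σ = 0
  | k + 1, σ => ∃ σ', Sm K H k σ' ∧ (σ = σ' ∨ ∃ i ≤ H, σ = σ' + K ^ i)

theorem Sm_succ {K H k σ : ℕ} (h : Sm K H k σ) : Sm K H (k + 1) σ := ⟨σ, h, Or.inl rfl⟩

theorem Sm_mono {K H k k' σ : ℕ} (hk : k ≤ k') (h : Sm K H k σ) : Sm K H k' σ := by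
  induction hk with
  | refl => exact h
  | step _ ih => exact Sm_succ ih

theorem Sm_mul (K H k i : ℕ) (hi : i ≤ H) : Sm K H k (k * K ^ i) := by
  induction k with
  | zero => simp [Sm]
  | succ k ih => exact ⟨_, ih, Or.inr ⟨i, hi, by ring⟩⟩

theorem Sm_le {K H k σ : ℕ} (hK : 1 ≤ K) (h : Sm K H k σ) (m : ℕ) (hm : σ < K ^ (m + 1)) :
    σ ≤ k * K ^ m := by
  induction k generalizing σ with
  | zero => simp [Sm] at h; omega
  | succ k ih =>
    obtain ⟨σ', h1, rfl | ⟨i, _, rfl⟩⟩ := h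
    · have := ih h1 hm
      nlinarith [Nat.zero_le (K ^ m)]
    · have h2 := ih h1 (by omega)
      have h3 : K ^ i < K ^ (m + 1) := by omega
      have h4 : i ≤ m := by
        by_contra hc
        have : K ^ (m + 1) ≤ K ^ i := Nat.pow_le_pow_right hK (by omega)
        omega
      have h5 : K ^ i ≤ K ^ m := Nat.pow_le_pow_right hK h4
      nlinarith

theorem Sm_le_top {K H k σ : ℕ} (hK : 1 ≤ K) (h : Sm K H k σ) : σ ≤ k * K ^ H := by
  induction k generalizing σ with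
  | zero => simp [Sm] at h; omega
  | succ k ih =>
    obtain ⟨σ', h1, rfl | ⟨i, hi, rfl⟩⟩ := h
    · have := ih h1
      nlinarith [Nat.zero_le (K ^ H)]
    · have h2 := ih h1
      have h5 : K ^ i ≤ K ^ H := Nat.pow_le_pow_right hK hi
      nlinarith

theorem Sm_sep {K H k p σ σ' i i' : ℕ} (hp : p < K) (hk : k < p) (hi : i < i')
    (h' : Sm K H k σ') (hle : σ' ≤ p * K ^ i') (e : p * K ^ i + σ' = p * K ^ i' + σ) : False := by
  have hK : 1 ≤ K := by omega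
  have hpos : 0 < K ^ i' := by positivity
  have h1 : σ' < K ^ (i' + 1) := by
    rw [pow_succ]
    nlinarith
  have h2 := Sm_le hK h' i' h1
  have h3 : K ^ (i + 1) ≤ K ^ i' := Nat.pow_le_pow_right hK hi
  have hpos2 : 0 < K ^ i := by positivity
  have h4 : p * K ^ i < K ^ i' := by
    rw [pow_succ] at h3
    nlinarith
  have h5 : (k + 1) * K ^ i' ≤ p * K ^ i' := Nat.mul_le_mul_right _ hk
  nlinarith

variable (t0 H : ℕ) (g : ℕ → ℕ)

def E : ℕ := 4 * t0 * (t0 + 1) ^ H + 1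

def N : ℕ := (t0 + 1) * (E t0 H + 1)

def Kill (j : ℕ) : Prop :=
  ∃ s q, j = (t0 + 1) * q + s ∧ 1 ≤ s ∧ s < t0 ∧ E t0 H + 1 ≤ 2 * q ∧
    q + s * (t0 + 1) ^ H ≤ E t0 H

def U (j : ℕ) : Prop :=
  j = 0 ∨ (∃ i ≤ H, j = (t0 + 1) * (t0 + 1) ^ i) ∨ (N t0 H ≤ j ∧ j ≤ 2 * N t0 H) ∨ Kill t0 H j

def B (j i : ℕ) : Prop :=
  ∃ s q, j = (t0 + 1) * q + s ∧ 1 ≤ s ∧ s ≤ t0 ∧ i < g s ∧ i < H ∧
    q + (s - 1) * (t0 + 1) ^ i = E t0 H

def Un : ℕ → ℕ → Prop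
  | 0, j => j = 0
  | t + 1, j => ∃ j1 j2, j1 + j2 = j ∧ Un t j1 ∧ U t0 H j2

def Var : ℕ → ℕ → ℕ → Prop
  | 0, _, _ => False
  | t + 1, j, i => ∃ j1 j2, j1 + j2 = j ∧
      ((Var t j1 i ∧ U t0 H j2) ∨ (Un t0 H t j1 ∧ B t0 H g j2 i))

variable {t0 H g}

theorem Un_one {j : ℕ} : Un t0 H 1 j ↔ U t0 H j := by
  constructor
  · rintro ⟨j1, j2, rfl, h1, h2⟩
    obtain rfl : j1 = 0 := h1
    simpa using h2
  · intro h
    exact ⟨0, j, by simp, rfl, h⟩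

theorem Var_one {j i : ℕ} : Var t0 H g 1 j i ↔ B t0 H g j i := by
  constructor
  · rintro ⟨j1, j2, rfl, ⟨h1, _⟩ | ⟨h1, h2⟩⟩
    · exact h1.elim
    · obtain rfl : j1 = 0 := h1
      simpa using h2
  · intro h
    exact ⟨0, j, by simp, Or.inr ⟨rfl, h⟩⟩

theorem pow_le_E (ht : 1 ≤ t0) {i : ℕ} (hi : i ≤ H) : (t0 + 1) ^ i ≤ E t0 H := by
  have h5 : (t0 + 1) ^ i ≤ (t0 + 1) ^ H := Nat.pow_le_pow_right (by omega) hi
  unfold E
  nlinarith [Nat.zero_le ((t0 + 1) ^ H)]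

theorem lt_N_iff {q s : ℕ} (hs : s ≤ t0) : (t0 + 1) * q + s < N t0 H ↔ q ≤ E t0 H := by
  unfold N
  constructor
  · intro h
    by_contra hc
    have : (t0 + 1) * (E t0 H + 1) ≤ (t0 + 1) * q := Nat.mul_le_mul_left _ (by omega)
    omega
  · intro h
    have : (t0 + 1) * q ≤ (t0 + 1) * E t0 H := Nat.mul_le_mul_left _ h
    nlinarith

theorem Kill_lt {j : ℕ} (h : Kill t0 H j) : j < N t0 H ∧ N t0 H ≤ 2 * j := by
  obtain ⟨s, q, rfl, h1, h2, h3, h4⟩ := h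
  refine ⟨(lt_N_iff (by omega)).2 (by omega), ?_⟩
  unfold N
  have : (t0 + 1) * (E t0 H + 1) ≤ (t0 + 1) * (2 * q) := Nat.mul_le_mul_left _ h3
  nlinarith

theorem B_lt {j i : ℕ} (h : B t0 H g j i) : j < N t0 H ∧ N t0 H ≤ 2 * j := by
  obtain ⟨s, q, rfl, h1, h2, h3, h4, h5⟩ := h
  refine ⟨(lt_N_iff (by omega)).2 (by omega), ?_⟩
  have h6 : (t0 + 1) ^ i ≤ (t0 + 1) ^ H := Nat.pow_le_pow_right (by omega) h4.le
  have h7 : (s - 1) * (t0 + 1) ^ i ≤ t0 * (t0 + 1) ^ H := Nat.mul_le_mul (by omega) h6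
  have h8 : E t0 H + 1 ≤ 2 * q := by
    have hE : E t0 H = 4 * (t0 * (t0 + 1) ^ H) + 1 := by unfold E; ring
    have : 1 ≤ t0 * (t0 + 1) ^ H := Nat.mul_pos (by omega) (by positivity)
    omega
  unfold N
  have : (t0 + 1) * (E t0 H + 1) ≤ (t0 + 1) * (2 * q) := Nat.mul_le_mul_left _ h8
  nlinarith

theorem U_le (ht : 1 ≤ t0) {j : ℕ} (h : U t0 H j) : j ≤ 2 * N t0 H := by
  rcases h with rfl | ⟨i, hi, rfl⟩ | h | h
  · omega
  · have := (lt_N_iff (t0 := t0) (H := H) (q := (t0 + 1) ^ i) (s := 0) (by omega)).2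
      (pow_le_E ht hi)
    omega
  · exact h.2
  · have := (Kill_lt h).1
    omega

theorem Un_le (ht : 1 ≤ t0) {t j : ℕ} (h : Un t0 H t j) : j ≤ t * (2 * N t0 H) := by
  induction t generalizing j with
  | zero => simpa [Un] using h
  | succ t ih =>
    obtain ⟨j1, j2, rfl, h1, h2⟩ := h
    have := ih h1
    have := U_le ht h2
    nlinarith

theorem Var_le (ht : 1 ≤ t0) {t j i : ℕ} (h : Var t0 H g t j i) :
    j ≤ t * (2 * N t0 H) ∧ N t0 H ≤ 2 * j := by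
  induction t generalizing j with
  | zero => exact h.elim
  | succ t ih =>
    obtain ⟨j1, j2, rfl, ⟨h1, h2⟩ | ⟨h1, h2⟩⟩ := h
    · have := ih h1
      have := U_le ht h2
      constructor
      · nlinarith
      · omega
    · have := Un_le ht h1
      have := B_lt h2
      constructor
      · nlinarith
      · omega

theorem Un_zero (t : ℕ) : Un t0 H t 0 := by
  induction t with
  | zero => rfl
  | succ t ih => exact ⟨0, 0, rfl, ih, Or.inl rfl⟩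

theorem Un_big {t j : ℕ} (h1 : N t0 H ≤ j) (h2 : j ≤ (t + 1) * (2 * N t0 H)) :
    Un t0 H (t + 1) j := by
  induction t generalizing j with
  | zero => exact Un_one.2 (Or.inr (Or.inr (Or.inl ⟨h1, by omega⟩)))
  | succ t ih =>
    have e : (t + 1 + 1) * (2 * N t0 H) = (t + 1) * (2 * N t0 H) + 2 * N t0 H := by ring
    have e2 : 2 * N t0 H ≤ (t + 1) * (2 * N t0 H) := by nlinarith
    by_cases hj : j ≤ (t + 1) * (2 * N t0 H)
    · exact ⟨j, 0, rfl, ih h1 hj, Or.inl rfl⟩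
    · by_cases hj2 : 3 * N t0 H ≤ j
      · exact ⟨j - 2 * N t0 H, 2 * N t0 H, by omega, ih (by omega) (by omega),
          Or.inr (Or.inr (Or.inl ⟨by omega, le_rfl⟩))⟩
      · exact ⟨N t0 H, j - N t0 H, by omega, ih le_rfl (by omega),
          Or.inr (Or.inr (Or.inl ⟨by omega, by omega⟩))⟩

theorem Un_of_Sm {k σ : ℕ} (h : Sm (t0 + 1) H k σ) : Un t0 H k ((t0 + 1) * σ) := by
  induction k generalizing σ with
  | zero =>
    obtain rfl : σ = 0 := h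
    rfl
  | succ k ih =>
    obtain ⟨σ', h1, rfl | ⟨i, hi, rfl⟩⟩ := h
    · exact ⟨_, 0, rfl, ih h1, Or.inl rfl⟩
    · exact ⟨_, _, by ring, ih h1, Or.inr (Or.inl ⟨i, hi, rfl⟩)⟩

theorem Un_struct {t j : ℕ} (h : Un t0 H t j) (hj : j < N t0 H) :
    (∃ σ, Sm (t0 + 1) H t σ ∧ j = (t0 + 1) * σ) ∨
      (∃ σ c, 1 ≤ t ∧ Sm (t0 + 1) H (t - 1) σ ∧ Kill t0 H c ∧ j = c + (t0 + 1) * σ) := by
  induction t generalizing j with
  | zero =>
    obtain rfl : j = 0 := h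
    exact Or.inl ⟨0, rfl, rfl⟩
  | succ t ih =>
    obtain ⟨j1, j2, rfl, h1, h2⟩ := h
    rcases ih h1 (by omega) with ⟨σ, hσ, rfl⟩ | ⟨σ, c, ht, hσ, hc, rfl⟩
    · rcases h2 with rfl | ⟨i, hi, rfl⟩ | h2 | h2
      · exact Or.inl ⟨σ, Sm_succ hσ, rfl⟩
      · exact Or.inl ⟨σ + (t0 + 1) ^ i, ⟨σ, hσ, Or.inr ⟨i, hi, rfl⟩⟩, by ring⟩
      · omega
      · exact Or.inr ⟨σ, j2, by omega, by simpa using hσ, h2, by ring⟩
    · obtain ⟨t, rfl⟩ : ∃ t', t = t' + 1 := ⟨t - 1, by omega⟩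
      simp only [Nat.add_sub_cancel] at hσ ⊢
      rcases h2 with rfl | ⟨i, hi, rfl⟩ | h2 | h2
      · exact Or.inr ⟨σ, c, by omega, Sm_succ hσ, hc, rfl⟩
      · exact Or.inr ⟨σ + (t0 + 1) ^ i, c, by omega, ⟨σ, hσ, Or.inr ⟨i, hi, rfl⟩⟩, hc, by ring⟩
      · omega
      · have := Kill_lt hc
        have := Kill_lt h2
        omega

theorem Var_struct {t j i : ℕ} (h : Var t0 H g t j i) (hj : j < N t0 H) :
    ∃ σ b, 1 ≤ t ∧ Sm (t0 + 1) H (t - 1) σ ∧ B t0 H g b i ∧ j = b + (t0 + 1) * σ := by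
  induction t generalizing j with
  | zero => exact h.elim
  | succ t ih =>
    obtain ⟨j1, j2, rfl, ⟨h1, h2⟩ | ⟨h1, h2⟩⟩ := h
    · obtain ⟨σ, b, ht, hσ, hb, rfl⟩ := ih h1 (by omega)
      obtain ⟨t, rfl⟩ : ∃ t', t = t' + 1 := ⟨t - 1, by omega⟩
      simp only [Nat.add_sub_cancel] at hσ ⊢
      rcases h2 with rfl | ⟨i', hi, rfl⟩ | h2 | h2
      · exact ⟨σ, b, by omega, Sm_succ hσ, hb, rfl⟩
      · exact ⟨σ + (t0 + 1) ^ i', b, by omega, ⟨σ, hσ, Or.inr ⟨i', hi, rfl⟩⟩, hb, by ring⟩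
      · omega
      · have := B_lt hb
        have := Kill_lt h2
        omega
    · rcases Un_struct h1 (by omega) with ⟨σ, hσ, rfl⟩ | ⟨σ, c, ht, hσ, hc, rfl⟩
      · exact ⟨σ, j2, by omega, by simpa using hσ, h2, by ring⟩
      · have := B_lt h2
        have := Kill_lt hc
        omega

theorem divmod {w q s q' s' : ℕ} (hs : s < w) (hs' : s' < w) (e : w * q + s = w * q' + s') :
    q = q' ∧ s = s' := by
  have h1 : (w * q + s) % w = s := by rw [Nat.mul_add_mod, Nat.mod_eq_of_lt hs]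
  have h2 : (w * q' + s') % w = s' := by rw [Nat.mul_add_mod, Nat.mod_eq_of_lt hs']
  have h3 : s = s' := by rw [← h1, e, h2]
  subst h3
  exact ⟨Nat.eq_of_mul_eq_mul_left (by omega) (Nat.add_right_cancel e), rfl⟩

/-- the variables visible at a non-unit position -/
theorem Var_bound (ht0 : 1 ≤ t0) (hg : ∀ t, t0 ≤ t → g t = g t0) {t j : ℕ}
    (hj : j ≤ t * (2 * N t0 H)) (hU : ¬ Un t0 H t j) :
    (∀ i, Var t0 H g t j i → i < g t) ∨ (∀ i i', Var t0 H g t j i → Var t0 H g t j i' → i = i') := by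
  by_cases hex : ∃ i, Var t0 H g t j i
  swap
  · exact Or.inl fun i hi => (hex ⟨i, hi⟩).elim
  obtain ⟨i0, hi0⟩ := hex
  have hjN : j < N t0 H := by
    by_contra hc
    cases t with
    | zero => exact hi0.elim
    | succ t => exact hU (Un_big (by omega) hj)
  obtain ⟨σ0, b0, ht, hσ0, ⟨s, q0, rfl, hs1, hs2, -, hi0H, hq0⟩, hj0⟩ := Var_struct hi0 hjN
  have key : ∀ i, Var t0 H g t j i → ∃ σ q, Sm (t0 + 1) H (t - 1) σ ∧ i < g s ∧
      q + (s - 1) * (t0 + 1) ^ i = E t0 H ∧ q + σ = q0 + σ0 := by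
    intro i hi
    obtain ⟨σ, b, -, hσ, ⟨s', q, rfl, hs1', hs2', hig, -, hq⟩, hj1⟩ := Var_struct hi hjN
    have := divmod (w := t0 + 1) (q := q + σ) (s := s') (q' := q0 + σ0) (s' := s) (by omega)
      (by omega) (by nlinarith)
    obtain ⟨e1, rfl⟩ := this
    exact ⟨σ, q, hσ, hig, hq, e1⟩
  have hqE : q0 + σ0 ≤ E t0 H := by
    apply (lt_N_iff (t0 := t0) (H := H) (s := s) hs2).1
    have : (t0 + 1) * (q0 + σ0) + s = j := by rw [hj0]; ring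
    omega
  rcases lt_trichotomy t s with hts | rfl | hts
  · right
    intro i i' hi hi'
    obtain ⟨σ, q, hσ, -, hq, e⟩ := key i hi
    obtain ⟨σ', q', hσ', -, hq', e'⟩ := key i' hi'
    rcases lt_trichotomy i i' with h | h | h
    · exact (Sm_sep (K := t0 + 1) (p := s - 1) (k := t - 1) (σ := σ) (by omega) (by omega) h hσ'
        (by omega) (by omega)).elim
    · exact h
    · exact (Sm_sep (K := t0 + 1) (p := s - 1) (k := t - 1) (σ := σ') (by omega) (by omega) h hσ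
        (by omega) (by omega)).elim
  · left
    intro i hi
    obtain ⟨σ, q, -, h, -⟩ := key i hi
    exact h
  · rcases Nat.eq_or_lt_of_le hs2 with rfl | hs3
    · left
      intro i hi
      obtain ⟨σ, q, -, h, -⟩ := key i hi
      rwa [hg t hts.le]
    · exfalso
      apply hU
      obtain ⟨t, rfl⟩ : ∃ t', t = t' + 1 := ⟨t - 1, by omega⟩
      have h6 : (t0 + 1) ^ i0 ≤ (t0 + 1) ^ H := Nat.pow_le_pow_right (by omega) hi0H.le
      have h7 : (s - 1) * (t0 + 1) ^ i0 ≤ t0 * (t0 + 1) ^ H := Nat.mul_le_mul (by omega) h6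
      have h7' : (s + 1) * (t0 + 1) ^ H ≤ t0 * (t0 + 1) ^ H := Nat.mul_le_mul_right _ hs3
      have h7'' : (s + 1) * (t0 + 1) ^ H = s * (t0 + 1) ^ H + (t0 + 1) ^ H := by ring
      have hE : E t0 H = 4 * (t0 * (t0 + 1) ^ H) + 1 := by unfold E; ring
      have hpos : 0 < (t0 + 1) ^ H := by positivity
      obtain ⟨qc, hqc⟩ : ∃ qc, q0 + σ0 = qc + s * (t0 + 1) ^ H :=
        ⟨q0 + σ0 - s * (t0 + 1) ^ H, by omega⟩
      refine ⟨(t0 + 1) * (s * (t0 + 1) ^ H), (t0 + 1) * qc + s, ?_,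
        Un_of_Sm (Sm_mono (by omega) (Sm_mul _ H s H le_rfl)),
        Or.inr (Or.inr (Or.inr ⟨s, qc, rfl, hs1, hs3, by omega, by omega⟩))⟩
      have : (t0 + 1) * (q0 + σ0) = (t0 + 1) * (qc + s * (t0 + 1) ^ H) := by rw [hqc]
      rw [hj0]
      nlinarith

/-- the critical position at level `t` -/
theorem critical (ht0 : 1 ≤ t0) (hg : ∀ t, t0 ≤ t → g t = g t0) (hH : ∀ s, 1 ≤ s → s ≤ t0 → g s ≤ H)
    {t : ℕ} (ht : 1 ≤ t) :
    ∃ j, 1 ≤ j ∧ j ≤ t * (2 * N t0 H) ∧ ¬ Un t0 H t j ∧ g t ≤ H ∧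
      ∀ i < g t, Var t0 H g t j i := by
  obtain ⟨s, hs1, hs2, hs3, hs4, hs5⟩ : ∃ s, 1 ≤ s ∧ s ≤ t0 ∧ s ≤ t ∧ g t = g s ∧
      (s < t0 → s = t) := by
    by_cases h : t ≤ t0
    · exact ⟨t, ht, h, le_rfl, rfl, fun _ => rfl⟩
    · exact ⟨t0, ht0, le_rfl, by omega, hg t (by omega), fun h => by omega⟩
  have hlt : (t0 + 1) * E t0 H + s < N t0 H := (lt_N_iff hs2).2 le_rfl
  refine ⟨(t0 + 1) * E t0 H + s, by omega, by nlinarith, ?_, hs4 ▸ hH s hs1 hs2, ?_⟩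
  · intro hU
    rcases Un_struct hU hlt with ⟨σ, hσ, e⟩ | ⟨σ, c, -, hσ, ⟨s', q, rfl, h1, h2, h3, h4⟩, e⟩
    · have := divmod (w := t0 + 1) (q := E t0 H) (s := s) (q' := σ) (s' := 0) (by omega)
        (by omega) (by omega)
      omega
    · have := divmod (w := t0 + 1) (q := E t0 H) (s := s) (q' := q + σ) (s' := s') (by omega)
        (by omega) (by nlinarith)
      obtain ⟨e1, rfl⟩ := this
      obtain rfl := hs5 h2
      have h5 := Sm_le_top (by omega) hσ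
      have hpos : 0 < (t0 + 1) ^ H := by positivity
      obtain ⟨s, rfl⟩ : ∃ s', s = s' + 1 := ⟨s - 1, by omega⟩
      simp only [Nat.add_sub_cancel] at h5
      nlinarith
  · intro i hi
    rw [hs4] at hi
    have hiH : i < H := lt_of_lt_of_le hi (hH s hs1 hs2)
    have h6 : (t0 + 1) ^ i ≤ (t0 + 1) ^ H := Nat.pow_le_pow_right (by omega) hiH.le
    have h7 : (s - 1) * (t0 + 1) ^ i ≤ t0 * (t0 + 1) ^ H := Nat.mul_le_mul (by omega) h6
    have hE : E t0 H = 4 * (t0 * (t0 + 1) ^ H) + 1 := by unfold E; ring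
    obtain ⟨q, hq⟩ : ∃ q, q + (s - 1) * (t0 + 1) ^ i = E t0 H :=
      ⟨E t0 H - (s - 1) * (t0 + 1) ^ i, by omega⟩
    obtain ⟨t, rfl⟩ : ∃ t', t = t' + 1 := ⟨t - 1, by omega⟩
    refine ⟨(t0 + 1) * ((s - 1) * (t0 + 1) ^ i), (t0 + 1) * q + s, ?_, Or.inr
      ⟨Un_of_Sm (Sm_mono (by omega) (Sm_mul _ H (s - 1) i hiH.le)),
        ⟨s, q, rfl, hs1, hs2, hi, hiH, hq⟩⟩⟩
    rw [← hq]
    ring

end Pool.Agent.H353Z.Comb
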