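import Mathlib

/-!
The pseudo-potential Hamiltonian of relative angular momentum two on bosons has no uniform gap.
-/

set_option autoImplicit false

open MvPolynomial Finset

namespace Pool.Agent.H353Z.Hal

variable {N : ℕ}

/-- the change to centre of mass and relative coordinates of the pair `i, j` -/
noncomputable def Tm (s : ℂ) (i j : Fin N) :
    MvPolynomial (Fin N) ℂ →ₐ[ℂ] MvPolynomial (Fin N) ℂ :=
  aeval (fun k : Fin N => (if k = i then C s * (X i + X j)
    else if k = j then C s * (X i - X j) else X k : MvPolynomial (Fin N) ℂ))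

theorem Tm_i (s : ℂ) (i j : Fin N) : Tm s i j (X i) = C s * (X i + X j) := by simp [Tm]

theorem Tm_j (s : ℂ) {i j : Fin N} (h : i ≠ j) : Tm s i j (X j) = C s * (X i - X j) := by
  simp [Tm, h.symm]

theorem Tm_k (s : ℂ) {i j k : Fin N} (h1 : k ≠ i) (h2 : k ≠ j) : Tm s i j (X k) = X k := by
  simp [Tm, h1, h2]

theorem monomial_eq_prod (β : Fin N →₀ ℕ) :
    (monomial β 1 : MvPolynomial (Fin N) ℂ) = ∏ k, X k ^ β k := by
  rw [monomial_eq, C_1, one_mul, Finsupp.prod_fintype]
  simp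

theorem Tm_weight (s : ℂ) {i j : Fin N} (h : i ≠ j) (w : Fin N → ℕ) (hw : w i = w j)
    (β : Fin N →₀ ℕ) : IsWeightedHomogeneous w (Tm s i j (monomial β 1)) (∑ k, β k * w k) := by
  rw [monomial_eq_prod, map_prod]
  refine IsWeightedHomogeneous.prod _ _ _ fun k _ => ?_
  rw [map_pow, ← smul_eq_mul]
  apply IsWeightedHomogeneous.pow
  have hi : IsWeightedHomogeneous w (X i : MvPolynomial (Fin N) ℂ) (w i) :=
    isWeightedHomogeneous_X ℂ w i
  have hj : IsWeightedHomogeneous w (X j : MvPolynomial (Fin N) ℂ) (w i) :=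
    hw ▸ isWeightedHomogeneous_X ℂ w j
  by_cases h1 : k = i
  · subst h1
    rw [Tm_i]
    exact (hi.add hj).C_mul s
  · by_cases h2 : k = j
    · subst h2
      rw [Tm_j s h, ← hw]
      exact (hi.sub hj).C_mul s
    · rw [Tm_k s h1 h2]
      exact isWeightedHomogeneous_X ℂ w k

theorem weight_eq (w : Fin N → ℕ) (α : Fin N →₀ ℕ) : Finsupp.weight w α = ∑ k, α k * w k := by
  rw [Finsupp.weight_apply, Finsupp.sum_fintype]
  · simp
  · simp

theorem factA (s : ℂ) {i j : Fin N} (h : i ≠ j) (α β : Fin N →₀ ℕ)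
    (hne : coeff α (Tm s i j (monomial β 1)) ≠ 0) :
    (∀ k, k ≠ i → k ≠ j → α k = β k) ∧ α i + α j = β i + β j := by
  constructor
  · intro k h1 h2
    have := Tm_weight s h (fun l => if l = k then 1 else 0) (by simp [h1.symm, h2.symm]) β hne
    rw [weight_eq] at this
    simpa using this
  · have := Tm_weight s h (fun l => (if l = i then 1 else 0) + (if l = j then 1 else 0))
      (by simp [h, h.symm]) β hne
    rw [weight_eq] at this
    simpa [mul_add, Finset.sum_add_distrib] using this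

theorem Tm_rest (s : ℂ) {i j : Fin N} (μ : Fin N →₀ ℕ) (hi : μ i = 0) (hj : μ j = 0) :
    Tm s i j (monomial μ 1) = monomial μ 1 := by
  rw [monomial_eq_prod, map_prod]
  refine Finset.prod_congr rfl fun k _ => ?_
  by_cases h1 : k = i
  · subst h1; simp [hi]
  · by_cases h2 : k = j
    · subst h2; simp [hj]
    · rw [map_pow, Tm_k s h1 h2]

theorem Tm_mono (s : ℂ) {i j : Fin N} (h : i ≠ j) (a b : ℕ) (μ : Fin N →₀ ℕ) (hi : μ i = 0)
    (hj : μ j = 0) :
    Tm s i j (monomial (Finsupp.single i a + Finsupp.single j b + μ) 1) =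
      (C s * (X i + X j)) ^ a * (C s * (X i - X j)) ^ b * monomial μ 1 := by
  have : (monomial (Finsupp.single i a + Finsupp.single j b + μ) 1 : MvPolynomial (Fin N) ℂ) =
      X i ^ a * X j ^ b * monomial μ 1 := by
    rw [X_pow_eq_monomial, X_pow_eq_monomial, monomial_mul, monomial_mul]
    simp
  rw [this, map_mul, map_mul, map_pow, map_pow, Tm_i, Tm_j s h, Tm_rest s μ hi hj]

theorem coeff_pow (s ε : ℂ) (hε : ε ^ 2 = 1) {i j : Fin N} (h : i ≠ j) (r : ℕ) :
    coeff (Finsupp.single i r + Finsupp.single j 2)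
      ((C s * (X i + C ε * X j)) ^ (r + 2) : MvPolynomial (Fin N) ℂ) =
      s ^ (r + 2) * ((r + 2).choose 2 : ℕ) := by
  rw [mul_pow, ← C_pow, coeff_C_mul, add_pow, coeff_sum]
  congr 1
  have key : ∀ m : ℕ, (X i ^ m * (C ε * X j) ^ (r + 2 - m) *
      (((r + 2).choose m : ℕ) : MvPolynomial (Fin N) ℂ)) = monomial (Finsupp.single i m + Finsupp.single j (r + 2 - m))
        (ε ^ (r + 2 - m) * ((r + 2).choose m : ℕ)) := by
    intro m
    rw [mul_pow, ← C_pow, X_pow_eq_monomial, X_pow_eq_monomial, C_mul_monomial, monomial_mul,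
      ← map_natCast (C : ℂ →+* MvPolynomial (Fin N) ℂ), mul_comm _ (C _), C_mul_monomial]
    congr 1
    ring
  simp only [key]
  rw [Finset.sum_eq_single r]
  · have : r + 2 - r = 2 := by omega
    rw [this, coeff_monomial, if_pos rfl, hε, one_mul, Nat.choose_symm_add]
  · intro m _ hm
    rw [coeff_monomial, if_neg]
    intro e
    have := DFunLike.congr_fun e i
    simp [h] at this
    exact hm this
  · intro hr
    simp at hr

theorem coeff_left (s : ℂ) {i j : Fin N} (h : i ≠ j) (r : ℕ) (μ : Fin N →₀ ℕ) (hi : μ i = 0)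
    (hj : μ j = 0) :
    coeff (Finsupp.single i r + Finsupp.single j 2 + μ)
      (Tm s i j (monomial (Finsupp.single i (r + 2) + μ) 1)) =
      s ^ (r + 2) * ((r + 2).choose 2 : ℕ) := by
  have := Tm_mono s h (r + 2) 0 μ hi hj
  simp only [Finsupp.single_zero, add_zero, pow_zero, mul_one] at this
  rw [this, coeff_mul_monomial, mul_one, ← coeff_pow s 1 (by simp) h r]
  simp

theorem coeff_right (s : ℂ) {i j : Fin N} (h : i ≠ j) (r : ℕ) (μ : Fin N →₀ ℕ) (hi : μ i = 0)
    (hj : μ j = 0) :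
    coeff (Finsupp.single i r + Finsupp.single j 2 + μ)
      (Tm s i j (monomial (Finsupp.single j (r + 2) + μ) 1)) =
      s ^ (r + 2) * ((r + 2).choose 2 : ℕ) := by
  have := Tm_mono s h 0 (r + 2) μ hi hj
  simp only [Finsupp.single_zero, zero_add, pow_zero, one_mul] at this
  rw [this, coeff_mul_monomial, mul_one, ← coeff_pow s (-1) (by simp) h r]
  simp [sub_eq_add_neg]

theorem coeff_Tm (s : ℂ) (i j : Fin N) (φ : MvPolynomial (Fin N) ℂ) (α : Fin N →₀ ℕ) :
    coeff α (Tm s i j φ) = ∑ β ∈ φ.support, coeff β φ * coeff α (Tm s i j (monomial β 1)) := by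
  conv_lhs => rw [φ.as_sum, map_sum, coeff_sum]
  refine Finset.sum_congr rfl fun β _ => ?_
  have : (monomial β (coeff β φ) : MvPolynomial (Fin N) ℂ) = coeff β φ • monomial β 1 := by
    rw [smul_monomial, smul_eq_mul, mul_one]
  rw [this, map_smul, coeff_smul, smul_eq_mul]

/-- the exponent vector with all entries one -/
noncomputable def ones (N : ℕ) : Fin N →₀ ℕ := Finsupp.equivFunOnFinite.symm fun _ => 1

@[simp] theorem ones_apply (k : Fin N) : ones N k = 1 := rfl

theorem coeff_swap (φ : MvPolynomial (Fin N) ℂ)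
    (hsym : ∀ σ : Equiv.Perm (Fin N), rename (⇑σ) φ = φ) {i j : Fin N} (m : ℕ)
    (μ : Fin N →₀ ℕ) (hi : μ i = 0) (hj : μ j = 0) :
    coeff (Finsupp.single j m + μ) φ = coeff (Finsupp.single i m + μ) φ := by
  have h1 := coeff_rename_mapDomain (Equiv.swap i j) (Equiv.swap i j).injective φ
    (Finsupp.single i m + μ)
  rw [hsym] at h1
  rw [← h1]
  congr 1
  rw [Finsupp.mapDomain_add, Finsupp.mapDomain_single, Equiv.swap_apply_left]
  congr 1
  ext k
  rw [Finsupp.mapDomain_equiv_apply, Equiv.symm_swap]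
  by_cases h1 : k = i
  · subst h1; simp [hi, hj]
  · by_cases h2 : k = j
    · subst h2; simp [hi, hj]
    · rw [Equiv.swap_apply_of_ne_of_ne h1 h2]

theorem step (s : ℂ) (hs : s ≠ 0) (φ : MvPolynomial (Fin N) ℂ)
    (hsym : ∀ σ : Equiv.Perm (Fin N), rename (⇑σ) φ = φ) {i j : Fin N} (h : i ≠ j)
    (hker : ∀ α : Fin N →₀ ℕ, α j = 2 → coeff α (Tm s i j φ) = 0) (r : ℕ)
    (μ : Fin N →₀ ℕ) (hi : μ i = 0) (hj : μ j = 0)
    (ih : ∀ β : Fin N →₀ ℕ, (∀ k, k ≠ i → k ≠ j → β k = μ k) → β i + β j = r + 2 → β i ≠ 0 →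
      β j ≠ 0 → coeff β φ = 0) :
    coeff (Finsupp.single i (r + 2) + μ) φ = 0 := by
  have h0 := hker (Finsupp.single i r + Finsupp.single j 2 + μ) (by simp [hj, h])
  rw [coeff_Tm, Finset.sum_eq_add (Finsupp.single i (r + 2) + μ) (Finsupp.single j (r + 2) + μ),
    coeff_left s h r μ hi hj, coeff_right s h r μ hi hj, coeff_swap φ hsym (r + 2) μ hi hj] at h0
  · have h1 : s ^ (r + 2) * (((r + 2).choose 2 : ℕ) : ℂ) ≠ 0 := by
      refine mul_ne_zero (pow_ne_zero _ hs) ?_
      exact_mod_cast (Nat.choose_pos (by omega)).ne'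
    have : coeff (Finsupp.single i (r + 2) + μ) φ * (s ^ (r + 2) * (((r + 2).choose 2 : ℕ) : ℂ))
      = 0 := by linear_combination h0 / 2
    exact (mul_eq_zero.1 this).resolve_right h1
  · intro e
    have := DFunLike.congr_fun e i
    simp [h, hi] at this
  · rintro β - ⟨hb1, hb2⟩
    by_contra hne
    obtain ⟨h1, h2⟩ := mul_ne_zero_iff.1 hne
    obtain ⟨h3, h4⟩ := factA s h _ _ h2
    simp only [Finsupp.add_apply, Finsupp.single_eq_same, hi, hj, add_zero,
      Finsupp.single_eq_of_ne h, Finsupp.single_eq_of_ne h.symm, zero_add] at h4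
    have h5 : ∀ k, k ≠ i → k ≠ j → β k = μ k := by
      intro k hk1 hk2
      have := h3 k hk1 hk2
      simpa [hk1, hk2] using this.symm
    apply h1
    apply ih β h5 h4.symm
    · intro h6
      apply hb2
      ext k
      by_cases hk1 : k = i
      · subst hk1; simp [h6, hi, h]
      · by_cases hk2 : k = j
        · subst hk2; simp [hj]; omega
        · simp [h5 k hk1 hk2, hk2]
    · intro h6
      apply hb1
      ext k
      by_cases hk1 : k = i
      · subst hk1; simp [hi]; omega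
      · by_cases hk2 : k = j
        · subst hk2; simp [h6, hj, hk1]
        · simp [h5 k hk1 hk2, hk1]
  · intro hn
    rw [notMem_support_iff.1 hn, zero_mul]
  · intro hn
    rw [notMem_support_iff.1 hn, zero_mul]

theorem vanish (s : ℂ) (hs : s ≠ 0) (φ : MvPolynomial (Fin N) ℂ)
    (hsym : ∀ σ : Equiv.Perm (Fin N), rename (⇑σ) φ = φ)
    (hker : ∀ i j : Fin N, i < j → ∀ α : Fin N →₀ ℕ, α j = 2 → coeff α (Tm s i j φ) = 0)
    (h1 : coeff (ones N) φ = 0) (z : ℕ) :
    ∀ l : Fin N →₀ ℕ, ∑ k, l k = N → (univ.filter fun k => l k = 0).card = z →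
      coeff l φ = 0 := by
  induction z using Nat.strong_induction_on with
  | _ z ih =>
  intro l hl hz
  by_cases hp : ∃ p, 2 ≤ l p
  swap
  · push Not at hp
    have : l = ones N := by
      ext k
      by_contra hk
      have hlt : ∑ k, l k < ∑ _k : Fin N, 1 :=
        Finset.sum_lt_sum (fun k _ => by have := hp k; omega)
          ⟨k, Finset.mem_univ _, by have := hp k; simp at hk; omega⟩
      simp [hl] at hlt
    rwa [this]
  obtain ⟨p, hp⟩ := hp
  have hq : ∃ q, l q = 0 := by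
    by_contra hq
    push Not at hq
    have hlt : ∑ _k : Fin N, 1 < ∑ k, l k :=
      Finset.sum_lt_sum (fun k _ => by have := hq k; omega) ⟨p, Finset.mem_univ _, by omega⟩
    simp [hl] at hlt
  obtain ⟨q, hq⟩ := hq
  have hpq : p ≠ q := by rintro rfl; omega
  obtain ⟨r, hr⟩ : ∃ r, l p = r + 2 := ⟨l p - 2, by omega⟩
  let μ := l.erase p
  have hμp : μ p = 0 := by simp [μ]
  have hμq : μ q = 0 := by simp [μ, Finsupp.erase_apply, hq]
  have hμk : ∀ k, k ≠ p → μ k = l k := fun k hk => by simp [μ, Finsupp.erase_apply, hk]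
  have hl' : l = Finsupp.single p (r + 2) + μ := by
    rw [← hr]; exact (Finsupp.single_add_erase p l).symm
  have ih' : ∀ β : Fin N →₀ ℕ, (∀ k, k ≠ p → k ≠ q → β k = μ k) → β p + β q = r + 2 → β p ≠ 0 →
      β q ≠ 0 → coeff β φ = 0 := by
    intro β hb1 hb2 hb3 hb4
    refine ih _ ?_ β ?_ rfl
    · rw [← hz]
      apply Finset.card_lt_card
      rw [Finset.ssubset_iff_of_subset]
      · exact ⟨q, by simp [hq], by simp [hb4]⟩
      · intro k hk
        simp only [mem_filter, mem_univ, true_and] at hk ⊢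
        have hk1 : k ≠ p := by rintro rfl; exact hb3 hk
        have hk2 : k ≠ q := by rintro rfl; exact hb4 hk
        rw [← hμk k hk1, ← hb1 k hk1 hk2, hk]
    · refine Eq.trans ?_ hl
      rw [← Finset.add_sum_erase _ _ (Finset.mem_univ p), ← Finset.add_sum_erase _ _
        (Finset.mem_erase.2 ⟨hpq.symm, Finset.mem_univ q⟩)]
      rw [← Finset.add_sum_erase _ (fun k => l k) (Finset.mem_univ p), ← Finset.add_sum_erase _
        (fun k => l k) (Finset.mem_erase.2 ⟨hpq.symm, Finset.mem_univ q⟩)]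
      have : ∑ x ∈ (univ.erase p).erase q, β x = ∑ x ∈ (univ.erase p).erase q, l x := by
        refine Finset.sum_congr rfl fun k hk => ?_
        simp only [mem_erase, mem_univ, and_true] at hk
        rw [hb1 k hk.2 hk.1, hμk k hk.2]
      omega
  rw [hl']
  rcases lt_or_gt_of_ne hpq with h | h
  · exact step s hs φ hsym hpq (hker p q h) r μ hμp hμq ih'
  · rw [coeff_swap φ hsym (r + 2) μ hμq hμp]
    exact step s hs φ hsym hpq.symm (hker q p h) r μ hμq hμp
      (fun β h1 h2 h3 h4 => ih' β (fun k a b => h1 k b a) (by omega) h4 h3)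

theorem Tm_p1 (s : ℂ) {i j : Fin N} (h : i ≠ j) (n : ℕ) (α : Fin N →₀ ℕ) (hα : α j ≠ 0) :
    coeff α (Tm s i j ((∑ k, X k) ^ n)) = 0 := by
  have hw : IsWeightedHomogeneous (fun l => if l = j then 1 else 0 : Fin N → ℕ)
      (Tm s i j (∑ k, X k)) 0 := by
    rw [← Finset.add_sum_erase _ _ (Finset.mem_univ i), ← Finset.add_sum_erase _ _
        (Finset.mem_erase.2 ⟨h.symm, Finset.mem_univ j⟩), map_add, map_add, Tm_i, Tm_j s h,
        ← add_assoc, map_sum]
    apply IsWeightedHomogeneous.add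
    · have : (C s * (X i + X j) + C s * (X i - X j) : MvPolynomial (Fin N) ℂ) =
          C (2 * s) * X i := by
        rw [map_mul, map_ofNat]; ring
      rw [this]
      apply IsWeightedHomogeneous.C_mul
      simpa [h] using isWeightedHomogeneous_X ℂ (fun l => if l = j then 1 else 0 : Fin N → ℕ) i
    · apply IsWeightedHomogeneous.sum
      intro k hk
      simp only [mem_erase, mem_univ, and_true] at hk
      rw [Tm_k s hk.2 hk.1]
      simpa [hk.1] using isWeightedHomogeneous_X ℂ (fun l => if l = j then 1 else 0 : Fin N → ℕ) k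
  rw [map_pow]
  apply (hw.pow n).coeff_eq_zero
  rw [weight_eq]
  simpa using hα

theorem coeff_p1_ones : coeff (ones N) ((∑ k, X k : MvPolynomial (Fin N) ℂ) ^ N) =
    (N.factorial : ℂ) := by
  rw [coeff_sum_X_pow_of_fintype, if_pos, Finsupp.multinomial_eq_of_support_subset
    (Finset.subset_univ _)]
  · simp [Nat.multinomial]
  · rw [Finsupp.sum_fintype] <;> simp

theorem coeff_p1_single (k : Fin N) :
    coeff (Finsupp.single k N) ((∑ k, X k : MvPolynomial (Fin N) ℂ) ^ N) = 1 := by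
  rw [coeff_sum_X_pow_of_fintype, if_pos, Finsupp.multinomial_eq_of_support_subset
    Finsupp.support_single_subset]
  · simp
  · simp

theorem ker_coeff (s : ℂ) (hs : s ≠ 0) (φ : MvPolynomial (Fin N) ℂ)
    (hsym : ∀ σ : Equiv.Perm (Fin N), rename (⇑σ) φ = φ)
    (hker : ∀ i j : Fin N, i < j → ∀ α : Fin N →₀ ℕ, α j = 2 → coeff α (Tm s i j φ) = 0)
    (k : Fin N) : coeff (Finsupp.single k N) φ * N.factorial = coeff (ones N) φ := by
  have hf : (N.factorial : ℂ) ≠ 0 := by exact_mod_cast N.factorial_ne_zero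
  let c : ℂ := coeff (ones N) φ / N.factorial
  have := vanish s hs (φ - c • (∑ k, X k) ^ N) (fun σ => by
      rw [map_sub, hsym, map_smul, map_pow, map_sum]
      simp only [rename_X]
      rw [Equiv.sum_comp σ (fun k => (X k : MvPolynomial (Fin N) ℂ))])
    (fun i j h α hα => by
      rw [map_sub, map_smul, coeff_sub, coeff_smul, hker i j h α hα,
        Tm_p1 s h.ne _ α (by omega)]
      simp)
    (by
      rw [coeff_sub, coeff_smul, coeff_p1_ones, smul_eq_mul]
      simp only [c]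
      field_simp
      ring) _ (Finsupp.single k N) (by simp [Finsupp.single_apply]) rfl
  rw [coeff_sub, coeff_smul, coeff_p1_single, smul_eq_mul, mul_one, sub_eq_zero] at this
  rw [this]
  simp only [c]
  field_simp

/-- the trial state -/
noncomputable def psi (N : ℕ) : MvPolynomial (Fin N) ℂ :=
  ∑ k, monomial (Finsupp.single k N) 1 - (N : ℂ) • monomial (ones N) 1

theorem psi_sym (σ : Equiv.Perm (Fin N)) : rename (⇑σ) (psi N) = psi N := by
  unfold psi
  rw [map_sub, map_sum, map_smul]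
  simp only [rename_monomial, Finsupp.mapDomain_single]
  rw [Equiv.sum_comp σ (fun k => (monomial (Finsupp.single k N) 1 : MvPolynomial (Fin N) ℂ))]
  have : Finsupp.mapDomain (⇑σ) (ones N) = ones N := by
    ext k
    rw [Finsupp.mapDomain_equiv_apply]
    rfl
  rw [this]

theorem psi_deg : (psi N).totalDegree ≤ N := by
  apply IsHomogeneous.totalDegree_le
  unfold psi
  apply IsHomogeneous.sub
  · apply IsHomogeneous.sum
    intro k _
    exact isHomogeneous_monomial _ (by simp)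
  · rw [smul_monomial]
    exact isHomogeneous_monomial _ (by simp [Finsupp.degree_eq_sum])

theorem prod_fact_single (k : Fin N) (m : ℕ) :
    ∏ l : Fin N, (Finsupp.single k m l).factorial = m.factorial := by
  rw [Finset.prod_eq_single k]
  · simp
  · intro b _ hb
    simp [hb]
  · simp

theorem pair_monomial (φ : MvPolynomial (Fin N) ℂ) (β : Fin N →₀ ℕ) (w : (Fin N →₀ ℕ) → ℂ) :
    ∑ α ∈ φ.support, (starRingEnd ℂ) (coeff α φ) * coeff α (monomial β (1 : ℂ)) * w α =
      (starRingEnd ℂ) (coeff β φ) * w β := by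
  rw [Finset.sum_eq_single β]
  · simp
  · intro b _ hb
    simp [coeff_monomial, hb.symm]
  · intro hn
    simp [notMem_support_iff.1 hn]

theorem psi_orth (s : ℂ) (hs : s ≠ 0) (φ : MvPolynomial (Fin N) ℂ)
    (hsym : ∀ σ : Equiv.Perm (Fin N), rename (⇑σ) φ = φ)
    (hker : ∀ i j : Fin N, i < j → ∀ α : Fin N →₀ ℕ, α j = 2 → coeff α (Tm s i j φ) = 0) :
    φ.support.sum (fun α => (starRingEnd ℂ) (coeff α φ) * coeff α (psi N) *
      ∏ k : Fin N, ((Nat.factorial (α k) : ℕ) : ℂ)) = 0 := by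
  unfold psi
  simp only [coeff_sub, coeff_sum, coeff_smul, smul_eq_mul, mul_sub, sub_mul,
    Finset.sum_sub_distrib, Finset.mul_sum, Finset.sum_mul]
  rw [Finset.sum_comm]
  simp only [pair_monomial]
  have h2 : ∑ α ∈ φ.support, (starRingEnd ℂ) (coeff α φ) *
      ((N : ℂ) * coeff α (monomial (ones N) (1 : ℂ))) *
        ∏ k : Fin N, ((Nat.factorial (α k) : ℕ) : ℂ) =
      N * (starRingEnd ℂ) (coeff (ones N) φ) := by
    have := pair_monomial φ (ones N) (fun α => ∏ k : Fin N, ((Nat.factorial (α k) : ℕ) : ℂ))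
    simp only [ones_apply, Nat.factorial_one, Nat.cast_one, prod_const_one, mul_one] at this
    rw [← this, Finset.mul_sum]
    exact Finset.sum_congr rfl fun α _ => by ring
  rw [h2]
  have h3 : ∀ k : Fin N, (starRingEnd ℂ) (coeff (Finsupp.single k N) φ) *
      ∏ l : Fin N, ((Nat.factorial (Finsupp.single k N l) : ℕ) : ℂ) =
      (starRingEnd ℂ) (coeff (ones N) φ) := by
    intro k
    rw [← Nat.cast_prod, prod_fact_single, ← ker_coeff s hs φ hsym hker k, map_mul]
    simp
  simp [h3]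

theorem single_ne_ones (hN : 2 ≤ N) (k : Fin N) : Finsupp.single k N ≠ ones N := by
  intro e
  have := DFunLike.congr_fun e k
  simp at this
  omega

theorem psi_norm (hN : 2 ≤ N) : (N.factorial : ℝ) ≤ (psi N).support.sum (fun α =>
    ‖coeff α (psi N)‖ ^ 2 * ∏ k : Fin N, ((Nat.factorial (α k) : ℕ) : ℝ)) := by
  let k0 : Fin N := ⟨0, by omega⟩
  have h1 : coeff (Finsupp.single k0 N) (psi N) = 1 := by
    unfold psi
    rw [coeff_sub, coeff_sum, coeff_smul, coeff_monomial, if_neg (single_ne_ones hN k0).symm,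
      Finset.sum_eq_single k0]
    · simp
    · intro b _ hb
      rw [coeff_monomial, if_neg]
      intro e
      have := DFunLike.congr_fun e b
      simp [hb] at this
      omega
    · simp
  refine le_trans ?_ (Finset.single_le_sum (a := Finsupp.single k0 N)
    (fun α _ => by positivity) (by simp [h1]))
  rw [h1, ← Nat.cast_prod, prod_fact_single]
  simp

theorem energy_pair (s : ℂ) (hs : ‖s‖ ^ 2 = 1 / 2) (r : ℕ) (hr : 1 ≤ r) {i j : Fin (r + 2)}
    (h : i ≠ j) :
    (Finset.filter (fun α => α j = 2) (Tm s i j (psi (r + 2))).support).sum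
      (fun α => ‖coeff α (Tm s i j (psi (r + 2)))‖ ^ 2 *
        ∏ k : Fin (r + 2), ((Nat.factorial (α k) : ℕ) : ℝ)) ≤
      4 * ((r + 2 : ℕ) : ℝ) ^ 2 / 2 ^ (r + 2) * (r + 2).factorial + ((r + 2 : ℕ) : ℝ) ^ 2 := by
  set α1 : Fin (r + 2) →₀ ℕ := Finsupp.single i r + Finsupp.single j 2 with hα1
  set μ : Fin (r + 2) →₀ ℕ := ((ones (r + 2)).erase i).erase j with hμ
  have hμi : μ i = 0 := by simp [hμ, Finsupp.erase_apply]
  have hμj : μ j = 0 := by simp [hμ]
  have hμk : ∀ k, k ≠ i → k ≠ j → μ k = 1 := fun k h1 h2 => by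
    simp [hμ, Finsupp.erase_apply, h1, h2]
  set α2 : Fin (r + 2) →₀ ℕ := Finsupp.single j 2 + μ with hα2
  have hA : ∀ α : Fin (r + 2) →₀ ℕ, α j = 2 → ∀ k,
      coeff α (Tm s i j (monomial (Finsupp.single k (r + 2)) 1)) ≠ 0 →
        α = α1 ∧ (k = i ∨ k = j) := by
    intro α hα k hne
    obtain ⟨h1, h2⟩ := factA s h _ _ hne
    have hk : k = i ∨ k = j := by
      by_contra hc
      push Not at hc
      simp [hc.1.symm, hc.2.symm] at h2
      omega
    refine ⟨?_, hk⟩
    have h3 : α i + α j = r + 2 := by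
      rcases hk with rfl | rfl
      · simpa [h.symm] using h2
      · simpa [h] using h2
    ext l
    by_cases hl1 : l = i
    · subst hl1; simp [hα1, h]; omega
    · by_cases hl2 : l = j
      · subst hl2; simp [hα1, hl1, hα]
      · rw [h1 l hl1 hl2]
        rcases hk with rfl | rfl <;> simp [hα1, hl1, hl2]
  have hB : ∀ α : Fin (r + 2) →₀ ℕ, α j = 2 →
      coeff α (Tm s i j (monomial (ones (r + 2)) 1)) ≠ 0 → α = α2 := by
    intro α hα hne
    obtain ⟨h1, h2⟩ := factA s h _ _ hne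
    simp only [ones_apply] at h1 h2
    ext l
    by_cases hl1 : l = i
    · subst hl1; simp [hα2, h, hμi]; omega
    · by_cases hl2 : l = j
      · subst hl2; simp [hα2, hμj, hα]
      · simp [hα2, hl2, h1 l hl1 hl2, hμk l hl1 hl2]
  have h12 : α1 ≠ α2 := by
    intro e
    have := DFunLike.congr_fun e i
    simp [hα1, hα2, h, hμi] at this
    omega
  have hc : ∀ α, coeff α (Tm s i j (psi (r + 2))) =
      ∑ k, coeff α (Tm s i j (monomial (Finsupp.single k (r + 2)) 1)) -
        ((r + 2 : ℕ) : ℂ) * coeff α (Tm s i j (monomial (ones (r + 2)) 1)) := by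
    intro α
    unfold psi
    rw [map_sub, map_sum, map_smul, coeff_sub, coeff_sum, coeff_smul, smul_eq_mul]
  have hα1j : α1 j = 2 := by simp [hα1, h.symm]
  have hα2j : α2 j = 2 := by simp [hα2, hμj]
  have hc1 : coeff α1 (Tm s i j (psi (r + 2))) = 2 * (s ^ (r + 2) * ((r + 2).choose 2 : ℕ)) := by
    have hb : coeff α1 (Tm s i j (monomial (ones (r + 2)) 1)) = 0 := by
      by_contra hne
      exact h12 (hB α1 hα1j hne)
    rw [hc, hb, mul_zero, sub_zero, Finset.sum_eq_add i j h]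
    · have e1 := coeff_left s h r 0 rfl rfl
      have e2 := coeff_right s h r 0 rfl rfl
      simp only [add_zero] at e1 e2
      rw [e1, e2]
      ring
    · rintro k - ⟨hk1, hk2⟩
      by_contra hne
      rcases (hA α1 hα1j k hne).2 with h' | h'
      · exact hk1 h'
      · exact hk2 h'
    · simp
    · simp
  have hc2 : coeff α2 (Tm s i j (psi (r + 2))) = ((r + 2 : ℕ) : ℂ) * s ^ 2 := by
    have ha : ∀ k, coeff α2 (Tm s i j (monomial (Finsupp.single k (r + 2)) 1)) = 0 := by
      intro k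
      by_contra hne
      exact h12 (hA α2 hα2j k hne).1.symm
    have e : ones (r + 2) = Finsupp.single i 1 + Finsupp.single j 1 + μ := by
      ext l
      by_cases hl1 : l = i
      · subst hl1; simp [h, hμi]
      · by_cases hl2 : l = j
        · subst hl2; simp [hμj, hl1]
        · simp [hl1, hl2, hμk l hl1 hl2]
    have e2 : ((C s * (X i + X j)) ^ 1 * (C s * (X i - X j)) ^ 1 : MvPolynomial (Fin (r + 2)) ℂ)
        = C (s ^ 2) * (X i ^ 2 - X j ^ 2) := by
      rw [map_pow]; ring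
    rw [hc, Finset.sum_eq_zero fun k _ => ha k, e, Tm_mono s h 1 1 μ hμi hμj, hα2,
      coeff_mul_monomial, e2, coeff_C_mul, coeff_sub, coeff_X_pow, coeff_X_pow, if_neg, if_pos rfl]
    · ring
    · intro e
      have := DFunLike.congr_fun e i
      simp [h] at this
  have hsub : Finset.filter (fun α => α j = 2) (Tm s i j (psi (r + 2))).support ⊆ {α1, α2} := by
    intro α hα
    obtain ⟨h1, h2⟩ := Finset.mem_filter.1 hα
    rw [mem_support_iff, hc] at h1
    by_contra hn
    simp only [mem_insert, mem_singleton, not_or] at hn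
    apply h1
    rw [Finset.sum_eq_zero fun k _ => by_contra fun hne => hn.1 (hA α h2 k hne).1]
    have : coeff α (Tm s i j (monomial (ones (r + 2)) 1)) = 0 :=
      by_contra fun hne => hn.2 (hB α h2 hne)
    simp [this]
  refine le_trans (Finset.sum_le_sum_of_subset_of_nonneg hsub fun α _ _ => by positivity) ?_
  rw [Finset.sum_pair h12, hc1, hc2]
  have p1 : ∏ k : Fin (r + 2), ((Nat.factorial (α1 k) : ℕ) : ℝ) = r.factorial * 2 := by
    rw [Finset.prod_eq_mul i j h]
    · simp [hα1, h, h.symm]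
    · rintro k - ⟨h1, h2⟩
      simp [hα1, h1, h2]
    · simp
    · simp
  have p2 : ∏ k : Fin (r + 2), ((Nat.factorial (α2 k) : ℕ) : ℝ) = 2 := by
    rw [Finset.prod_eq_single j]
    · simp [hα2j]
    · intro k _ hk
      by_cases h1 : k = i
      · subst h1; simp [hα2, hk, hμi]
      · simp [hα2, hk, hμk k h1 hk]
    · simp
  rw [p1, p2]
  have q1 : ‖(2 : ℂ) * (s ^ (r + 2) * ((r + 2).choose 2 : ℕ))‖ ^ 2 =
      4 * (1 / 2) ^ (r + 2) * (((r + 2).choose 2 : ℕ) : ℝ) ^ 2 := by
    rw [← hs, norm_mul, norm_mul, norm_pow, Complex.norm_natCast, ← pow_mul]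
    simp only [Complex.norm_ofNat]
    ring
  have q2 : ‖((r + 2 : ℕ) : ℂ) * s ^ 2‖ ^ 2 = ((r + 2 : ℕ) : ℝ) ^ 2 / 4 := by
    rw [norm_mul, norm_pow, hs, Complex.norm_natCast]
    ring
  rw [q1, q2]
  have q3 : (((r + 2).choose 2 : ℕ) : ℝ) * (r.factorial * 2) = (r + 2).factorial := by
    have := Nat.add_choose_mul_factorial_mul_factorial r 2
    rw [← this]
    push_cast
    simp [Nat.factorial]
    ring
  have q4 : (((r + 2).choose 2 : ℕ) : ℝ) ≤ ((r + 2 : ℕ) : ℝ) ^ 2 := by
    exact_mod_cast Nat.choose_le_pow (r + 2) 2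
  have q5 : (0 : ℝ) ≤ (r + 2).factorial := by positivity
  have q6 : 4 * (1 / 2 : ℝ) ^ (r + 2) * (((r + 2).choose 2 : ℕ) : ℝ) ^ 2 * (r.factorial * 2) =
      4 * (((r + 2).choose 2 : ℕ) : ℝ) / 2 ^ (r + 2) * (r + 2).factorial := by
    rw [← q3, one_div, inv_pow]
    ring
  rw [q6]
  have q7 : 4 * (((r + 2).choose 2 : ℕ) : ℝ) / 2 ^ (r + 2) * (r + 2).factorial ≤
      4 * ((r + 2 : ℕ) : ℝ) ^ 2 / 2 ^ (r + 2) * (r + 2).factorial := by gcongr
  nlinarith [sq_nonneg ((r + 2 : ℕ) : ℝ)]

theorem two_pow_le (r : ℕ) : 2 ^ (r + 2) ≤ 2 * (r + 2).factorial := by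
  induction r with
  | zero => simp
  | succ r ih =>
    rw [show r + 1 + 2 = (r + 2) + 1 by ring, pow_succ, Nat.factorial_succ]
    nlinarith [Nat.factorial_pos (r + 2)]

theorem exists_N (c : ℝ) (hc : 0 < c) : ∃ r : ℕ, 1 ≤ r ∧
    ((r + 2 : ℕ) : ℝ) ^ 2 * (4 * ((r + 2 : ℕ) : ℝ) ^ 2 / 2 ^ (r + 2) * (r + 2).factorial +
      ((r + 2 : ℕ) : ℝ) ^ 2) < c * (r + 2).factorial := by
  have h := (tendsto_pow_const_div_const_pow_of_one_lt 4 (one_lt_two (α := ℝ))).eventually
    (gt_mem_nhds (show (0 : ℝ) < c / 6 by positivity))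
  obtain ⟨M, hM⟩ := Filter.eventually_atTop.1 h
  refine ⟨M + 1, by omega, ?_⟩
  have h1 := hM (M + 1 + 2) (by omega)
  have h2 : (2 : ℝ) ^ (M + 1 + 2) ≤ 2 * (M + 1 + 2).factorial := by exact_mod_cast two_pow_le (M + 1)
  set n : ℝ := ((M + 1 + 2 : ℕ) : ℝ)
  set F : ℝ := ((M + 1 + 2).factorial : ℝ)
  set P : ℝ := 2 ^ (M + 1 + 2)
  have hP : 0 < P := by positivity
  have hF : 0 < F := by positivity
  have h3 : n ^ 4 ≤ n ^ 4 / P * (2 * F) := by
    rw [div_mul_eq_mul_div, le_div_iff₀ hP]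
    gcongr
  have h4 : n ^ 2 * (4 * n ^ 2 / P * F + n ^ 2) = 4 * (n ^ 4 / P) * F + n ^ 4 := by ring
  rw [h4]
  nlinarith

end Pool.Agent.H353Z.Hal
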