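import Mathlib

/-!
A non-cyclic module over the two-dimensional non-abelian Lie algebra (Stafford's stably free
ideal in a concrete model) and the split extension by it.
-/

set_option autoImplicit false
set_option maxHeartbeats 400000

open Polynomial

namespace Pool.Agent.H353Z.LieA

universe u

variable {k : Type u} [Field k]

/-- the shift `T ↦ T - 1` -/
noncomputable def σ : k[X] →+* k[X] := (taylorAlgHom (-1 : k) : k[X] →ₐ[k] k[X])

theorem σ_apply (f : k[X]) : σ f = taylor (-1 : k) f := rfl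

theorem σ_inj : Function.Injective (σ (k := k)) := taylor_injective _

theorem σ_X : σ (X : k[X]) = X - 1 := by simp [σ_apply, taylor_X, sub_eq_add_neg]

theorem σ_C (a : k) : σ (C a) = C a := by simp [σ_apply]

theorem σ_eval (f : k[X]) : (σ f).eval 1 = f.eval 0 := by simp [σ_apply, taylor_eval]

abbrev V (k : Type u) [Field k] : Type u := k[X][X]

noncomputable def Yf (v : V k) : V k := X * v.map σ

theorem Yf_add (v w : V k) : Yf (v + w) = Yf v + Yf w := by simp [Yf, mul_add]

theorem Yf_C_mul (f : k[X]) (v : V k) : Yf (C f * v) = C (σ f) * Yf v := by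
  simp [Yf]; ring

theorem smul_eq (a : k) (v : V k) : a • v = C (C a) * v := by
  rw [← smul_eq_C_mul, ← smul_one_smul k[X] a v, smul_eq_C_mul a, mul_one]

noncomputable def Y : V k →ₗ[k] V k where
  toFun := Yf
  map_add' := Yf_add
  map_smul' a v := by simp only [smul_eq, Yf_C_mul, σ_C, RingHom.id_apply]

noncomputable def D : V k →ₗ[k] V k := LinearMap.mulLeft k (C X)

theorem D_apply (v : V k) : D v = C X * v := rfl

theorem Y_apply (v : V k) : Y v = Yf v := rfl

theorem DY (v : V k) : D (Y v) = Y (D v) + Y v := by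
  simp only [D_apply, Y_apply, Yf_C_mul, σ_X, map_sub, map_one]
  ring

/-- the functional cutting out the left ideal -/
noncomputable def Λ (v : V k) : k[X] := (derivative v).eval (-1) + X * v.eval (-1)

theorem Λ_add (v w : V k) : Λ (v + w) = Λ v + Λ w := by simp [Λ]; ring

theorem Λ_C_mul (f : k[X]) (v : V k) : Λ (C f * v) = f * Λ v := by simp [Λ]; ring

theorem eval_map_σ (v : V k) : (v.map σ).eval (-1) = σ (v.eval (-1)) := by
  have := Polynomial.eval₂_at_apply (p := v) σ (-1)
  rwa [map_neg, map_one, ← eval_map] at this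

theorem Λ_Yf (v : V k) : Λ (Yf v) = -σ (Λ v) := by
  simp only [Λ, Yf, derivative_mul, derivative_X, derivative_map, eval_add, eval_mul, eval_X,
    eval_map_σ, map_add, map_mul, σ_X, eval_one]
  ring

/-- the kernel of `Λ` -/
noncomputable def KΛ : Submodule k (V k) where
  carrier := {v | Λ v = 0}
  add_mem' {v w} hv hw := by
    simp only [Set.mem_ofPred_eq] at *
    rw [Λ_add, hv, hw, add_zero]
  zero_mem' := by simp [Λ]
  smul_mem' a v hv := by
    simp only [Set.mem_ofPred_eq] at *
    rw [smul_eq, Λ_C_mul, hv, mul_zero]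

theorem mem_KΛ {v : V k} : v ∈ KΛ ↔ Λ v = 0 := Iff.rfl

theorem KΛ_D {v : V k} (h : v ∈ KΛ) : D v ∈ KΛ := by
  rw [mem_KΛ] at h ⊢
  rw [D_apply, Λ_C_mul, h, mul_zero]

theorem KΛ_Y {v : V k} (h : v ∈ KΛ) : Y v ∈ KΛ := by
  rw [mem_KΛ] at h ⊢
  rw [Y_apply, Λ_Yf, h, map_zero, neg_zero]

noncomputable def m1 : V k := (X + 1) ^ 2

noncomputable def m2 : V k := C X * X + C (X - 1)

theorem m1_mem : (m1 : V k) ∈ KΛ := by
  rw [mem_KΛ]
  simp [Λ, m1, derivative_pow]

theorem m2_mem : (m2 : V k) ∈ KΛ := by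
  rw [mem_KΛ]
  simp [Λ, m2]
  ring

theorem rel : (m1 - D m1) + (Y m2 + m2) = (0 : V k) := by
  simp only [D_apply, Y_apply, Yf, m1, m2, Polynomial.map_add, Polynomial.map_mul, map_C, map_X,
    map_sub, σ_X, map_one, Polynomial.map_sub, Polynomial.map_one]
  ring

/-- right multiplication by `g` -/
noncomputable def Rg (g : V k) : V k →ₗ[k[X]] V k :=
  Polynomial.lsum fun i => LinearMap.toSpanSingleton k[X] (V k) (Yf^[i] g)

theorem Rg_monomial (g : V k) (i : ℕ) (f : k[X]) : Rg g (monomial i f) = C f * Yf^[i] g := by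
  simp [Rg, smul_eq_C_mul]

theorem Rg_Yf (g u : V k) : Rg g (Yf u) = Yf (Rg g u) := by
  induction u using Polynomial.induction_on' with
  | add p q hp hq => rw [Yf_add, map_add, map_add, Yf_add, hp, hq]
  | monomial i f =>
    have : Yf (monomial i f) = monomial (i + 1) (σ f) := by
      simp [Yf, X_mul_monomial]
    rw [this, Rg_monomial, Rg_monomial, Yf_C_mul, Function.iterate_succ_apply']

theorem coeff_iter (g : V k) (i j : ℕ) : (Yf^[i] g).coeff (j + i) = σ^[i] (g.coeff j) := by
  induction i with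
  | zero => rfl
  | succ i ih =>
    rw [Function.iterate_succ_apply', Function.iterate_succ_apply', Yf, ← add_assoc, coeff_X_mul,
      coeff_map, ih]

theorem coeff_Rg (g u : V k) (N : ℕ) (hN : u.natDegree ≤ N) :
    (Rg g u).coeff (g.natDegree + N) = u.coeff N * σ^[N] g.leadingCoeff := by
  conv_lhs => rw [u.as_sum_range' (N + 1) (by omega), map_sum, finsetSum_coeff]
  rw [Finset.sum_eq_single N]
  · rw [Rg_monomial, coeff_C_mul, coeff_iter, leadingCoeff]
  · intro i hi hne
    have hi' : i < N := by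
      have := Finset.mem_range.1 hi
      omega
    have e : g.natDegree + N = (g.natDegree + (N - i)) + i := by omega
    rw [Rg_monomial, coeff_C_mul, e, coeff_iter, coeff_eq_zero_of_natDegree_lt (p := g) (by omega),
      iterate_map_zero, mul_zero]
  · intro h
    exact (h (Finset.mem_range.2 (by omega))).elim

theorem deg_Rg (g u : V k) (hg : g ≠ 0) (hu : u ≠ 0) (d : ℕ)
    (h : ∀ j, d < j → (Rg g u).coeff j = 0) : g.natDegree + u.natDegree ≤ d := by
  by_contra hc
  have := h _ (not_le.1 hc)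
  rw [coeff_Rg g u _ le_rfl] at this
  rcases mul_eq_zero.1 this with h1 | h1
  · exact hu (leadingCoeff_eq_zero.1 h1)
  · exact hg (leadingCoeff_eq_zero.1 ((σ_inj.iterate _) (by rw [h1, iterate_map_zero])))

/-- the cyclic submodule generated by `g` -/
noncomputable def U (g : V k) : Submodule k (V k) := (LinearMap.range (Rg g)).restrictScalars k

theorem U_self (g : V k) : g ∈ U g := ⟨monomial 0 1, by rw [Rg_monomial]; simp⟩

theorem U_D {g v : V k} (h : v ∈ U g) : D v ∈ U g := by
  obtain ⟨u, rfl⟩ := h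
  exact ⟨(X : k[X]) • u, by rw [map_smul, smul_eq_C_mul, D_apply]⟩

theorem U_Y {g v : V k} (h : v ∈ U g) : Y v ∈ U g := by
  obtain ⟨u, rfl⟩ := h
  exact ⟨Yf u, Rg_Yf g u⟩

theorem not_cyclic (g : V k) (hg : g ∈ KΛ) (h1 : m1 ∈ U g) (h2 : m2 ∈ U g) : False := by
  obtain ⟨u1, h1⟩ := h1
  obtain ⟨u2, h2⟩ := h2
  have e1 : (m1 : V k) = X ^ 2 + C 2 * X + 1 := by
    rw [m1, map_ofNat]; ring
  have c12 : (m1 : V k).coeff 2 = 1 := by simp [e1, coeff_X, coeff_one]
  have c20 : (m2 : V k).coeff 0 = X - 1 := by simp [m2]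
  have c21 : (m2 : V k).coeff 1 = X := by simp [m2, coeff_one]
  have hm1 : (m1 : V k) ≠ 0 := fun h => by simp [h] at c12
  have hm2 : (m2 : V k) ≠ 0 := fun h => by
    rw [h, coeff_zero] at c21
    exact X_ne_zero c21.symm
  have hu1 : u1 ≠ 0 := fun h => hm1 (by rw [← h1, h, map_zero])
  have hu2 : u2 ≠ 0 := fun h => hm2 (by rw [← h2, h, map_zero])
  have hg0 : g ≠ 0 := by
    rintro rfl
    apply hm1
    rw [← h1]
    simp [Rg, lsum_apply, Function.iterate_fixed (f := Yf (k := k)) (x := 0) (by simp [Yf]),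
      Polynomial.sum]
  have d1 := deg_Rg g u1 hg0 hu1 2 (fun j hj => by
    rw [h1, e1]
    have : j ≠ 0 := by omega
    have : 1 ≠ j := by omega
    have : j ≠ 2 := by omega
    simp [coeff_X, coeff_one, coeff_X_pow, *])
  have d2 := deg_Rg g u2 hg0 hu2 1 (fun j hj => by
    rw [h2, m2]
    have : j ≠ 0 := by omega
    have : 1 ≠ j := by omega
    simp [coeff_X, coeff_one, coeff_C, *])
  rcases Nat.eq_zero_or_pos g.natDegree with h0 | h0
  · have hC := eq_C_of_natDegree_eq_zero h0
    have hΛ : Λ g = 0 := mem_KΛ.1 hg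
    rw [hC] at hΛ
    simp only [Λ, derivative_C, eval_zero, eval_C, zero_add, mul_eq_zero, X_ne_zero,
      false_or] at hΛ
    exact hg0 (by rw [hC, hΛ, map_zero])
  · have hn : g.natDegree = 1 := by omega
    have hC := eq_C_of_natDegree_eq_zero (p := u2) (by omega)
    rw [hC, ← monomial_zero_left, Rg_monomial, Function.iterate_zero_apply] at h2
    have a1 := coeff_Rg g u1 1 (by omega)
    rw [h1, hn, c12, Function.iterate_one, leadingCoeff, hn] at a1
    rw [← h2, coeff_C_mul] at c20 c21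
    have b0 := congrArg (eval 0) c20
    have b1 := congrArg (eval 0) c21
    have b2 := congrArg (eval 1) a1
    simp only [eval_mul, eval_sub, eval_X, eval_one, σ_eval] at b0 b1 b2
    rcases mul_eq_zero.1 b1 with h | h
    · simp [h] at b0
    · simp [h] at b2

theorem torsion_free (s l : k) (v : V k) (h : s • D v + l • Y v = v) : v = 0 := by
  by_contra hv
  by_cases hl : l = 0
  · rw [hl, zero_smul, add_zero, smul_eq, D_apply] at h
    have h2 : C (C s * X - 1) * v = 0 := by
      rw [map_sub, map_mul, map_one]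
      linear_combination h
    rcases mul_eq_zero.1 h2 with h3 | h3
    · have := congrArg (eval 0) (C_eq_zero.1 h3)
      simp at this
    · exact hv h3
  · have := congrArg (fun p => coeff p (v.natDegree + 1)) h
    simp only [smul_eq, D_apply, Y_apply, Yf, coeff_add, coeff_C_mul, coeff_X_mul, coeff_map,
      coeff_natDegree_succ_eq_zero, mul_zero, zero_add, mul_eq_zero, C_eq_zero, hl,
      false_or] at this
    exact hv (leadingCoeff_eq_zero.1 (σ_inj (by rw [map_zero]; exact this)))

/-- the split extension -/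
def E (k : Type u) [Field k] : Type u := k × k × V k

noncomputable instance : AddCommGroup (E k) := inferInstanceAs (AddCommGroup (k × k × V k))

noncomputable instance : Module k (E k) := inferInstanceAs (Module k (k × k × V k))

noncomputable def act (a : E k) (v : V k) : V k := a.1 • D v + a.2.1 • Y v

noncomputable def br (a b : E k) : E k :=
  (0, a.1 * b.2.1 - b.1 * a.2.1, act a b.2.2 - act b a.2.2)

theorem E_ext {a b : E k} (h1 : a.1 = b.1) (h2 : a.2.1 = b.2.1) (h3 : a.2.2 = b.2.2) : a = b :=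
  Prod.ext h1 (Prod.ext h2 h3)

@[simp] theorem add1 (a b : E k) : (a + b).1 = a.1 + b.1 := rfl
@[simp] theorem add2 (a b : E k) : (a + b).2.1 = a.2.1 + b.2.1 := rfl
@[simp] theorem add3 (a b : E k) : (a + b).2.2 = a.2.2 + b.2.2 := rfl
@[simp] theorem sub1 (a b : E k) : (a - b).1 = a.1 - b.1 := rfl
@[simp] theorem sub2 (a b : E k) : (a - b).2.1 = a.2.1 - b.2.1 := rfl
@[simp] theorem sub3 (a b : E k) : (a - b).2.2 = a.2.2 - b.2.2 := rfl
@[simp] theorem neg1 (a : E k) : (-a).1 = -a.1 := rfl
@[simp] theorem neg2 (a : E k) : (-a).2.1 = -a.2.1 := rfl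
@[simp] theorem neg3 (a : E k) : (-a).2.2 = -a.2.2 := rfl
@[simp] theorem smul1 (c : k) (b : E k) : (c • b).1 = c * b.1 := rfl
@[simp] theorem smul2 (c : k) (b : E k) : (c • b).2.1 = c * b.2.1 := rfl
@[simp] theorem smul3 (c : k) (b : E k) : (c • b).2.2 = c • b.2.2 := rfl
@[simp] theorem zero1 : (0 : E k).1 = 0 := rfl
@[simp] theorem zero2 : (0 : E k).2.1 = 0 := rfl
@[simp] theorem zero3 : (0 : E k).2.2 = 0 := rfl

noncomputable instance : LieRing (E k) where
  bracket := br
  add_lie a b c := by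
    apply E_ext <;> simp [br, act]
    · ring
    · module
  lie_add a b c := by
    apply E_ext <;> simp [br, act]
    · ring
    · module
  lie_self a := by
    apply E_ext <;> simp [br, act]
  leibniz_lie a b c := by
    apply E_ext <;> simp [br, act, DY]
    · ring
    · module

@[simp] theorem lie1 (a b : E k) : ⁅a, b⁆.1 = 0 := rfl
@[simp] theorem lie2 (a b : E k) : ⁅a, b⁆.2.1 = a.1 * b.2.1 - b.1 * a.2.1 := rfl
@[simp] theorem lie3 (a b : E k) : ⁅a, b⁆.2.2 = act a b.2.2 - act b a.2.2 := rfl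

noncomputable instance : LieAlgebra k (E k) where
  lie_smul t a b := by
    apply E_ext <;> simp [act]
    · ring
    · module

def mk (s l : k) (v : V k) : E k := (s, l, v)

@[simp] theorem mk1 (s l : k) (v : V k) : (mk s l v).1 = s := rfl
@[simp] theorem mk2 (s l : k) (v : V k) : (mk s l v).2.1 = l := rfl
@[simp] theorem mk3 (s l : k) (v : V k) : (mk s l v).2.2 = v := rfl

theorem act_mem {W : Submodule k (V k)} (hD : ∀ v ∈ W, D v ∈ W) (hY : ∀ v ∈ W, Y v ∈ W) (a : E k)
    {v : V k} (hv : v ∈ W) : act a v ∈ W :=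
  W.add_mem (W.smul_mem _ (hD v hv)) (W.smul_mem _ (hY v hv))

/-- elements whose module part lies in the kernel of `Λ` -/
noncomputable def EΛ : LieSubalgebra k (E k) where
  carrier := {a | a.2.2 ∈ KΛ}
  add_mem' ha hb := KΛ.add_mem ha hb
  zero_mem' := KΛ.zero_mem
  smul_mem' c _ ha := KΛ.smul_mem c ha
  lie_mem' ha hb := KΛ.sub_mem (act_mem (fun _ => KΛ_D) (fun _ => KΛ_Y) _ hb)
    (act_mem (fun _ => KΛ_D) (fun _ => KΛ_Y) _ ha)

theorem core (α β : E k) (m : V k) (hm : m ∈ KΛ) (hdet : α.1 * β.2.1 - β.1 * α.2.1 ≠ 0)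
    (p q : k) (w : V k) (hw : w ∈ U m) (h : ⁅α, β⁆ = p • α + q • β + mk 0 0 w)
    (hgen : ∀ S : LieSubalgebra k (E k), α ∈ S → β ∈ S → mk 0 0 m ∈ S →
      mk 0 0 m1 ∈ S ∧ mk 0 0 m2 ∈ S) : False := by
  let S : LieSubalgebra k (E k) :=
    { carrier := {e | ∃ a b : k, ∃ v ∈ U m, e = a • α + b • β + mk 0 0 v}
      add_mem' := by
        rintro _ _ ⟨a, b, v, hv, rfl⟩ ⟨a', b', v', hv', rfl⟩
        refine ⟨a + a', b + b', v + v', Submodule.add_mem _ hv hv', ?_⟩
        apply E_ext <;> simp
        · ring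
        · ring
        · module
      zero_mem' := ⟨0, 0, 0, Submodule.zero_mem _, by apply E_ext <;> simp⟩
      smul_mem' := by
        rintro c _ ⟨a, b, v, hv, rfl⟩
        refine ⟨c * a, c * b, c • v, Submodule.smul_mem _ _ hv, ?_⟩
        apply E_ext <;> simp
        · ring
        · ring
        · module
      lie_mem' := by
        rintro _ _ ⟨a, b, v, hv, rfl⟩ ⟨a', b', v', hv', rfl⟩
        refine ⟨(a * b' - a' * b) * p, (a * b' - a' * b) * q, (a * b' - a' * b) • w +
          (act (a • α + b • β) v' - act (a' • α + b' • β) v), Submodule.add_mem _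
            (Submodule.smul_mem _ _ hw) (Submodule.sub_mem _
              (act_mem (fun _ => U_D) (fun _ => U_Y) _ hv')
              (act_mem (fun _ => U_D) (fun _ => U_Y) _ hv)), ?_⟩
        have e : ⁅a • α + b • β + mk 0 0 v, a' • α + b' • β + mk 0 0 v'⁆ =
            (a * b' - a' * b) • ⁅α, β⁆ +
              mk 0 0 (act (a • α + b • β) v' - act (a' • α + b' • β) v) := by
          apply E_ext <;> simp [act]
          · ring
          · module
        rw [e, h]
        apply E_ext <;> simp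
        · ring
        · ring
        · module }
  have key : ∀ v, mk 0 0 v ∈ S → v ∈ U m := by
    rintro v ⟨a, b, v', hv', e⟩
    have e1 := congrArg (fun x : E k => x.1) e
    have e2 := congrArg (fun x : E k => x.2.1) e
    have e3 := congrArg (fun x : E k => x.2.2) e
    simp only [mk1, mk2, mk3, add1, add2, add3, smul1, smul2, smul3, add_zero] at e1 e2 e3
    have ha : a = 0 := by
      apply mul_left_cancel₀ hdet
      linear_combination β.1 * e2 - β.2.1 * e1
    have hb : b = 0 := by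
      apply mul_left_cancel₀ hdet
      linear_combination α.2.1 * e1 - α.1 * e2
    rw [e3, ha, hb]
    simpa using hv'
  obtain ⟨h1, h2⟩ := hgen S ⟨1, 0, 0, Submodule.zero_mem _, by apply E_ext <;> simp⟩
    ⟨0, 1, 0, Submodule.zero_mem _, by apply E_ext <;> simp⟩
    ⟨0, 0, m, U_self m, by apply E_ext <;> simp⟩
  exact not_cyclic m hm (key _ h1) (key _ h2)

theorem no_gen (α β ζ : E k) (hα : α ∈ EΛ) (hβ : β ∈ EΛ) (hζ : ζ ∈ EΛ) (h : ⁅α, β⁆ = β)
    (hgen : ∀ S : LieSubalgebra k (E k), α ∈ S → β ∈ S → ζ ∈ S →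
      mk 1 0 0 ∈ S ∧ mk 0 1 0 ∈ S ∧ mk 0 0 m1 ∈ S ∧ mk 0 0 m2 ∈ S) : False := by
  have e1 : β.1 = 0 := (congrArg (fun x : E k => x.1) h).symm
  have e2 := congrArg (fun x : E k => x.2.1) h
  have e3 := congrArg (fun x : E k => x.2.2) h
  simp only [lie2, lie3, e1, zero_mul, sub_zero] at e2 e3
  by_cases hb : β.2.1 = 0
  · have hv : β.2.2 = 0 := by
      apply torsion_free α.1 α.2.1
      simpa [act, e1, hb] using e3
    have hβ0 : β = 0 := E_ext e1 hb hv
    by_cases hdet : α.1 * ζ.2.1 - ζ.1 * α.2.1 = 0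
    · have key : ∀ c1 c2 : k, α.1 * c1 + α.2.1 * c2 = 0 → ζ.1 * c1 + ζ.2.1 * c2 = 0 →
          c1 = 0 ∧ c2 = 0 := by
        intro c1 c2 h1 h2
        let S : LieSubalgebra k (E k) :=
          { carrier := {e | e.1 * c1 + e.2.1 * c2 = 0}
            add_mem' := fun {a b} ha hb => by
              simp only [Set.mem_ofPred_eq, add1, add2] at *
              linear_combination ha + hb
            zero_mem' := by simp
            smul_mem' := fun c a ha => by
              simp only [Set.mem_ofPred_eq, smul1, smul2] at *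
              linear_combination c * ha
            lie_mem' := fun {a b} ha hb => by
              simp only [Set.mem_ofPred_eq, lie1, lie2] at *
              linear_combination a.1 * hb - b.1 * ha }
        obtain ⟨g1, g2, -⟩ := hgen S h1 (hβ0 ▸ S.zero_mem) h2
        have g1' : (1 : k) * c1 + 0 * c2 = 0 := g1
        have g2' : (0 : k) * c1 + 1 * c2 = 0 := g2
        exact ⟨by simpa using g1', by simpa using g2'⟩
      obtain ⟨a1, a2⟩ := key α.2.1 (-α.1) (by ring) (by linear_combination -hdet)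
      obtain ⟨a3, a4⟩ := key ζ.2.1 (-ζ.1) (by linear_combination hdet) (by ring)
      rw [neg_eq_zero] at a2 a4
      exact one_ne_zero (key 1 0 (by simp [a2]) (by simp [a4])).1
    · let m := (⁅α, ζ⁆ + ζ.1 • α - α.1 • ζ).2.2
      refine core α ζ m (EΛ.sub_mem (EΛ.add_mem (EΛ.lie_mem hα hζ) (EΛ.smul_mem _ hα))
        (EΛ.smul_mem _ hζ)) hdet (-ζ.1) α.1 m (U_self m) ?_
        (fun S h1 h2 _ => (hgen S h1 (hβ0 ▸ S.zero_mem) h2).2.2)
      apply E_ext <;> simp [m]
      · ring
      · ring
  · have ha : α.1 = 1 := mul_right_cancel₀ hb (by rw [e2, one_mul])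
    let c := (ζ.2.1 - ζ.1 * α.2.1) / β.2.1
    let m := (ζ - ζ.1 • α - c • β).2.2
    refine core α β m (EΛ.sub_mem (EΛ.sub_mem hζ (EΛ.smul_mem _ hα)) (EΛ.smul_mem _ hβ))
      (by simpa [ha, e1] using hb) 0 1 0 (Submodule.zero_mem _)
      (by rw [h]; apply E_ext <;> simp) (fun S h1 h2 h3 => (hgen S h1 h2 ?_).2.2)
    have : ζ = ζ.1 • α + c • β + mk 0 0 m := by
      apply E_ext <;> simp [m, c, ha, e1, hb]
    rw [this]
    exact S.add_mem (S.add_mem (S.smul_mem _ h1) (S.smul_mem _ h2)) h3

end Pool.Agent.H353Z.LieA
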