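import Pool.Agent.H353Z.LieA

/-!
Two free product decompositions of a Lie algebra without isomorphic refinements.
-/

set_option autoImplicit false
set_option maxHeartbeats 400000

namespace Pool.Agent.H353Z.LieB

open Pool.Agent.H353Z.LieA LieSubalgebra

universe u

variable {k : Type u} [Field k]

section general
variable {L : Type u} [LieRing L] [LieAlgebra k L]

/-- the family `B` is a free product decomposition of `A` -/
def Dec {J : Type u} (B : J → LieSubalgebra k L) (A : LieSubalgebra k L) : Prop :=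
  (∀ j, B j ≠ ⊥) ∧ ∃ h : ∀ j, B j ≤ A,
    ∀ (M : Type u) [LieRing M] [LieAlgebra k M] (f : ∀ j, ↥(B j) →ₗ⁅k⁆ M),
      ∃! g : ↥A →ₗ⁅k⁆ M, ∀ j, g.comp (LieSubalgebra.inclusion (h j)) = f j

theorem ext_span {M : Type u} [LieRing M] [LieAlgebra k M] (S : Set L)
    (f g : ↥(lieSpan k L S) →ₗ⁅k⁆ M)
    (h : ∀ s (hs : s ∈ S), f ⟨s, subset_lieSpan hs⟩ = g ⟨s, subset_lieSpan hs⟩) : f = g := by
  ext ⟨x, hx⟩
  induction hx using lieSpan_induction with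
  | mem x hx => exact h x hx
  | zero => exact (map_zero f).trans (map_zero g).symm
  | add x y hx hy h1 h2 =>
    exact (map_add f ⟨x, hx⟩ ⟨y, hy⟩).trans ((congrArg₂ _ h1 h2).trans
      (map_add g ⟨x, hx⟩ ⟨y, hy⟩).symm)
  | smul a x hx h1 =>
    exact (map_smul f a ⟨x, hx⟩).trans ((congrArg _ h1).trans (map_smul g a ⟨x, hx⟩).symm)
  | lie x y hx hy h1 h2 =>
    exact (f.map_lie ⟨x, hx⟩ ⟨y, hy⟩).trans ((congrArg₂ _ h1 h2).trans
      (g.map_lie ⟨x, hx⟩ ⟨y, hy⟩).symm)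

theorem Dec.le {J : Type u} {B : J → LieSubalgebra k L} {A : LieSubalgebra k L} (h : Dec B A)
    (j : J) : B j ≤ A := h.2.1 j

theorem Dec.gen {J : Type u} {B : J → LieSubalgebra k L} {A : LieSubalgebra k L} (h : Dec B A)
    (S : LieSubalgebra k L) (hS : ∀ j, B j ≤ S) : A ≤ S := by
  obtain ⟨-, hle, hU⟩ := h
  obtain ⟨g, hg, -⟩ := hU S (fun j => LieSubalgebra.inclusion (hS j))
  obtain ⟨g', -, hu⟩ := hU L (fun j => (B j).incl)
  have h1 := hu (S.incl.comp g) (fun j => by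
    ext x
    have := LieHom.congr_fun (hg j) x
    exact congrArg Subtype.val this)
  have h2 := hu A.incl (fun j => rfl)
  intro a ha
  have := LieHom.congr_fun (h1.trans h2.symm) ⟨a, ha⟩
  have e : (g ⟨a, ha⟩ : L) = a := this
  exact e ▸ (g ⟨a, ha⟩).2

theorem Dec.retr {J : Type u} {B : J → LieSubalgebra k L} {A : LieSubalgebra k L} (h : Dec B A)
    (j : J) : ∃ p : ↥A →ₗ⁅k⁆ L, (∀ b (hb : b ∈ B j), p ⟨b, h.le j hb⟩ = b) ∧
      ∀ l, l ≠ j → ∀ b (hb : b ∈ B l), p ⟨b, h.le l hb⟩ = 0 := by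
  classical
  obtain ⟨g, hg, -⟩ := h.2.2 L (fun l => if l = j then (B l).incl else 0)
  refine ⟨g, fun b hb => ?_, fun l hl b hb => ?_⟩
  · have := LieHom.congr_fun (hg j) ⟨b, hb⟩
    simpa [LieSubalgebra.inclusion_apply] using this
  · have := LieHom.congr_fun (hg l) ⟨b, hb⟩
    simpa [hl, LieSubalgebra.inclusion_apply] using this

theorem mem_span2 {x y : L} (hxy : ⁅x, y⁆ = y) {b : L} (hb : b ∈ lieSpan k L {x, y}) :
    ∃ s l : k, b = s • x + l • y := by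
  induction hb using lieSpan_induction with
  | mem b hb =>
    rcases hb with rfl | rfl
    · exact ⟨1, 0, by simp⟩
    · exact ⟨0, 1, by simp⟩
  | zero => exact ⟨0, 0, by simp⟩
  | add a b _ _ h1 h2 =>
    obtain ⟨s, l, rfl⟩ := h1
    obtain ⟨s', l', rfl⟩ := h2
    exact ⟨s + s', l + l', by module⟩
  | smul c a _ h1 =>
    obtain ⟨s, l, rfl⟩ := h1
    exact ⟨c * s, c * l, by module⟩
  | lie a b _ _ h1 h2 =>
    obtain ⟨s, l, rfl⟩ := h1
    obtain ⟨s', l', rfl⟩ := h2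
    have hyx : ⁅y, x⁆ = -y := by rw [← lie_skew, hxy]
    refine ⟨0, s * l' - s' * l, ?_⟩
    simp only [add_lie, lie_add, smul_lie, lie_smul, lie_self, hxy, hyx]
    module

theorem Dec.subsingleton {J : Type u} {B : J → LieSubalgebra k L} {x y : L} (hxy : ⁅x, y⁆ = y)
    (h : Dec B (lieSpan k L {x, y})) (j l : J) : j = l := by
  by_contra hne
  obtain ⟨b, hb, hb0⟩ := (LieSubalgebra.eq_bot_iff (B j)).not.1 (h.1 j) |> not_forall.1
    |>.imp fun b hb => Classical.not_imp.1 hb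
  obtain ⟨b', hb', hb0'⟩ := (LieSubalgebra.eq_bot_iff (B l)).not.1 (h.1 l) |> not_forall.1
    |>.imp fun b hb => Classical.not_imp.1 hb
  have key : ∀ (p : ↥(lieSpan k L {x, y}) →ₗ⁅k⁆ L) (b b' : L) (hb : b ∈ lieSpan k L {x, y})
      (hb' : b' ∈ lieSpan k L {x, y}), b ≠ 0 → b' ≠ 0 → p ⟨b, hb⟩ = b → p ⟨b', hb'⟩ = 0 →
      ∀ s l s' l' : k, b = s • x + l • y → b' = s' • x + l' • y → s ≠ 0 ∧ s' = 0 := by
    intro p b b' hb hb' h0 h0' h1 h2 s l s' l' e e'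
    let X : lieSpan k L {x, y} := ⟨x, subset_lieSpan (by simp)⟩
    let Y : lieSpan k L {x, y} := ⟨y, subset_lieSpan (by simp)⟩
    have hXY : ⁅p X, p Y⁆ = p Y := by
      rw [← p.map_lie]
      exact congrArg p (Subtype.ext hxy)
    have f1 : b = s • p X + l • p Y := by
      rw [← h1, ← map_smul, ← map_smul, ← map_add]
      exact congrArg p (Subtype.ext e)
    have f2 : 0 = s' • p X + l' • p Y := by
      rw [← h2, ← map_smul, ← map_smul, ← map_add]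
      exact congrArg p (Subtype.ext e')
    have g1 := congrArg (fun a => ⁅a, p Y⁆) f2
    have g2 := congrArg (fun a => ⁅p X, a⁆) f2
    simp only [zero_lie, lie_zero, add_lie, lie_add, smul_lie, lie_smul, lie_self, hXY, smul_zero,
      add_zero, zero_add] at g1 g2
    have hY : p Y = 0 := by
      by_contra hc
      rw [eq_comm, smul_eq_zero] at g1 g2
      apply h0'
      rw [e', g1.resolve_right hc, g2.resolve_right hc]
      simp
    rw [hY, smul_zero, add_zero] at f1 f2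
    have hX : p X ≠ 0 := fun hc => h0 (by rw [f1, hc, smul_zero])
    exact ⟨fun hc => h0 (by rw [f1, hc, zero_smul]), (smul_eq_zero.1 f2.symm).resolve_right hX⟩
  obtain ⟨s, t, e⟩ := mem_span2 hxy (h.le j hb)
  obtain ⟨s', t', e'⟩ := mem_span2 hxy (h.le l hb')
  obtain ⟨p, p1, p2⟩ := h.retr j
  obtain ⟨q, q1, q2⟩ := h.retr l
  exact (key p b b' _ _ hb0 hb0' (p1 b hb) (p2 l (Ne.symm hne) b' hb') _ _ _ _ e e').1
    (key q b' b _ _ hb0' hb0 (q1 b' hb') (q2 j hne b hb) _ _ _ _ e' e).2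

/-- the complement generator -/
def W (x y e1 e2 : L) : L := (e1 - ⁅x, e1⁆) + (⁅y, e2⁆ + e2)

def M1 (x y e1 e2 : L) : L := e1 - (⁅y, W x y e1 e2⁆ + W x y e1 e2)

def M2 (x y e1 e2 : L) : L := e2 - ⁅x, W x y e1 e2⁆

theorem W_add {x y : L} (hxy : ⁅x, y⁆ = y) (a b w : L) :
    W x y (a + (⁅y, w⁆ + w)) (b + ⁅x, w⁆) = W x y a b + w := by
  have : ⁅x, ⁅y, w⁆⁆ = ⁅y, w⁆ + ⁅y, ⁅x, w⁆⁆ := by rw [leibniz_lie, hxy]
  simp only [W, lie_add, this]
  abel

theorem W_M {x y : L} (hxy : ⁅x, y⁆ = y) (e1 e2 : L) :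
    W x y (M1 x y e1 e2) (M2 x y e1 e2) = 0 := by
  have := W_add hxy (M1 x y e1 e2) (M2 x y e1 e2) (W x y e1 e2)
  rw [M1, M2, sub_add_cancel, sub_add_cancel] at this
  exact (add_eq_right.1 this.symm)

theorem map_W {M : Type u} [LieRing M] [LieAlgebra k M] (f : L →ₗ⁅k⁆ M) (x y e1 e2 : L) :
    f (W x y e1 e2) = W (f x) (f y) (f e1) (f e2) := by simp [W]

theorem map_M1 {M : Type u} [LieRing M] [LieAlgebra k M] (f : L →ₗ⁅k⁆ M) (x y e1 e2 : L) :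
    f (M1 x y e1 e2) = M1 (f x) (f y) (f e1) (f e2) := by simp [M1, map_W]

theorem map_M2 {M : Type u} [LieRing M] [LieAlgebra k M] (f : L →ₗ⁅k⁆ M) (x y e1 e2 : L) :
    f (M2 x y e1 e2) = M2 (f x) (f y) (f e1) (f e2) := by simp [M2, map_W]

variable (k) in
/-- the universal property of the presentation `⟨x, y, e1, e2 | [x, y] = y⟩` -/
def Univ (x y e1 e2 : L) : Prop :=
  ⁅x, y⁆ = y ∧ ∀ (M : Type u) [LieRing M] [LieAlgebra k M],
    (∀ X Y E1 E2 : M, ⁅X, Y⁆ = Y → ∃ F : L →ₗ⁅k⁆ M, F x = X ∧ F y = Y ∧ F e1 = E1 ∧ F e2 = E2) ∧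
    ∀ F G : L →ₗ⁅k⁆ M, F x = G x → F y = G y → F e1 = G e1 → F e2 = G e2 → F = G

theorem top_ext {M : Type u} [LieRing M] [LieAlgebra k M] (g g' : ↥(⊤ : LieSubalgebra k L) →ₗ⁅k⁆ M)
    (h : g.comp (topEquiv.symm : L ≃ₗ⁅k⁆ (⊤ : LieSubalgebra k L)).toLieHom =
      g'.comp (topEquiv.symm : L ≃ₗ⁅k⁆ (⊤ : LieSubalgebra k L)).toLieHom) : g = g' := by
  ext ⟨a, ha⟩
  exact LieHom.congr_fun h a

variable {x y e1 e2 : L}

def xs (x e1 e2 : L) : ULift.{u} (Fin 3) → L := fun i => ![x, e1, e2] i.down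

def ys (y : L) : ULift.{u} (Fin 3) → L := fun i => ![y, 0, 0] i.down

variable (k) in
def A1 (x y e1 e2 : L) (i : ULift.{u} (Fin 3)) : LieSubalgebra k L :=
  lieSpan k L {xs x e1 e2 i, ys y i}

variable (k) in
def A2 (x y e1 e2 : L) : ULift.{u} Bool → LieSubalgebra k L
  | ⟨true⟩ => lieSpan k L {x, y, M1 x y e1 e2, M2 x y e1 e2}
  | ⟨false⟩ => lieSpan k L {W x y e1 e2}

theorem ne_bot_of {S : Set L} {a : L} (ha : a ∈ S) (h : a ≠ 0) : lieSpan k L S ≠ ⊥ :=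
  fun hc => h ((LieSubalgebra.eq_bot_iff _).1 hc a (subset_lieSpan ha))

theorem mk_ne : (mk 1 0 0 : E k) ≠ 0 := fun h => one_ne_zero (congrArg (fun a : E k => a.1) h)

theorem Univ.ne (h : Univ k x y e1 e2) : x ≠ 0 ∧ e1 ≠ 0 ∧ e2 ≠ 0 ∧ W x y e1 e2 ≠ 0 := by
  obtain ⟨F, f1, -⟩ := (h.2 (E k)).1 (mk 1 0 0) 0 0 0 (by simp)
  obtain ⟨G, g1, g2, g3, g4⟩ := (h.2 (E k)).1 0 0 (mk 1 0 0) 0 (by simp)
  obtain ⟨H, -, -, -, h4⟩ := (h.2 (E k)).1 0 0 0 (mk 1 0 0) (by simp)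
  refine ⟨fun hc => mk_ne (k := k) ?_, fun hc => mk_ne (k := k) ?_, fun hc => mk_ne (k := k) ?_,
    fun hc => mk_ne (k := k) ?_⟩
  · rw [← f1, hc, map_zero]
  · rw [← g3, hc, map_zero]
  · rw [← h4, hc, map_zero]
  · have := map_W G x y e1 e2
    rw [hc, map_zero, g1, g2, g3, g4] at this
    simpa [W] using this.symm

theorem xs_ys (h : ⁅x, y⁆ = y) (i : ULift.{u} (Fin 3)) : ⁅xs x e1 e2 i, ys y i⁆ = ys y i := by
  obtain ⟨i⟩ := i
  fin_cases i <;> simp [xs, ys, h]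

theorem Univ.dec1 (h : Univ k x y e1 e2) : Dec (A1 k x y e1 e2) ⊤ := by
  refine ⟨fun ⟨i⟩ => ne_bot_of (a := xs x e1 e2 ⟨i⟩) (by simp) ?_, fun _ => le_top,
    fun M _ _ f => ?_⟩
  · fin_cases i
    · exact h.ne.1
    · exact h.ne.2.1
    · exact h.ne.2.2.1
  · let X : ∀ i, A1 k x y e1 e2 i := fun i => ⟨xs x e1 e2 i, subset_lieSpan (by simp)⟩
    let Y : ∀ i, A1 k x y e1 e2 i := fun i => ⟨ys y i, subset_lieSpan (by simp)⟩
    obtain ⟨F, f1, f2, f3, f4⟩ := (h.2 M).1 (f _ (X ⟨0⟩)) (f _ (Y ⟨0⟩)) (f _ (X ⟨1⟩)) (f _ (X ⟨2⟩))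
      (by rw [← LieHom.map_lie]; exact congrArg _ (Subtype.ext h.1))
    have hF : ∀ j, (F.comp (⊤ : LieSubalgebra k L).incl).comp
        (LieSubalgebra.inclusion (le_top : A1 k x y e1 e2 j ≤ ⊤)) = f j := by
      rintro ⟨i⟩
      apply ext_span
      rintro s (rfl | rfl)
      · fin_cases i
        · exact f1
        · exact f3
        · exact f4
      · fin_cases i
        · exact f2
        · exact (map_zero F).trans (map_zero (f ⟨1⟩)).symm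
        · exact (map_zero F).trans (map_zero (f ⟨2⟩)).symm
    refine ⟨_, hF, fun g hg => top_ext _ _ ((h.2 M).2 _ _ ?_ ?_ ?_ ?_)⟩
    · exact LieHom.congr_fun ((hg ⟨0⟩).trans (hF ⟨0⟩).symm) (X ⟨0⟩)
    · exact LieHom.congr_fun ((hg ⟨0⟩).trans (hF ⟨0⟩).symm) (Y ⟨0⟩)
    · exact LieHom.congr_fun ((hg ⟨1⟩).trans (hF ⟨1⟩).symm) (X ⟨1⟩)
    · exact LieHom.congr_fun ((hg ⟨2⟩).trans (hF ⟨2⟩).symm) (X ⟨2⟩)

theorem Univ.dec2 (h : Univ k x y e1 e2) : Dec (A2 k x y e1 e2) ⊤ := by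
  refine ⟨?_, fun _ => le_top, fun M _ _ f => ?_⟩
  · rintro ⟨_ | _⟩
    · exact ne_bot_of (a := W x y e1 e2) (by simp) h.ne.2.2.2
    · exact ne_bot_of (a := x) (by simp) h.ne.1
  · let X : A2 k x y e1 e2 ⟨true⟩ := ⟨x, subset_lieSpan (by simp)⟩
    let Y : A2 k x y e1 e2 ⟨true⟩ := ⟨y, subset_lieSpan (by simp)⟩
    let N1 : A2 k x y e1 e2 ⟨true⟩ := ⟨M1 x y e1 e2, subset_lieSpan (by simp)⟩
    let N2 : A2 k x y e1 e2 ⟨true⟩ := ⟨M2 x y e1 e2, subset_lieSpan (by simp)⟩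
    let Z : A2 k x y e1 e2 ⟨false⟩ := ⟨W x y e1 e2, subset_lieSpan (by simp)⟩
    have hXY : ⁅f _ X, f _ Y⁆ = f _ Y := by
      rw [← LieHom.map_lie]; exact congrArg _ (Subtype.ext h.1)
    obtain ⟨F, f1, f2, f3, f4⟩ := (h.2 M).1 (f _ X) (f _ Y)
      (f _ N1 + (⁅f _ Y, f _ Z⁆ + f _ Z)) (f _ N2 + ⁅f _ X, f _ Z⁆) hXY
    have h0 : W X Y N1 N2 = 0 := Subtype.ext
      ((map_W (A2 k x y e1 e2 ⟨true⟩).incl X Y N1 N2).trans (W_M h.1 e1 e2))
    have f5 : F (W x y e1 e2) = f _ Z := by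
      rw [map_W, f1, f2, f3, f4, W_add hXY, ← map_W, h0, map_zero, zero_add]
    have hF : ∀ j, (F.comp (⊤ : LieSubalgebra k L).incl).comp
        (LieSubalgebra.inclusion (le_top : A2 k x y e1 e2 j ≤ ⊤)) = f j := by
      rintro ⟨_ | _⟩
      · apply ext_span
        rintro s rfl
        exact f5
      · apply ext_span
        rintro s (rfl | rfl | rfl | rfl)
        · exact f1
        · exact f2
        · show F (M1 x y e1 e2) = f _ N1
          rw [M1, map_sub, map_add, F.map_lie, f5, f2, f3, add_sub_cancel_right]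
        · show F (M2 x y e1 e2) = f _ N2
          rw [M2, map_sub, F.map_lie, f5, f1, f4, add_sub_cancel_right]
    refine ⟨_, hF, fun g hg => top_ext _ _ ?_⟩
    set G := g.comp (topEquiv.symm : L ≃ₗ⁅k⁆ (⊤ : LieSubalgebra k L)).toLieHom
    set G' := (F.comp (⊤ : LieSubalgebra k L).incl).comp
      (topEquiv.symm : L ≃ₗ⁅k⁆ (⊤ : LieSubalgebra k L)).toLieHom
    have g1 : G x = G' x := LieHom.congr_fun ((hg ⟨true⟩).trans (hF ⟨true⟩).symm) X
    have g2 : G y = G' y := LieHom.congr_fun ((hg ⟨true⟩).trans (hF ⟨true⟩).symm) Y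
    have g3 : G (M1 x y e1 e2) = G' (M1 x y e1 e2) :=
      LieHom.congr_fun ((hg ⟨true⟩).trans (hF ⟨true⟩).symm) N1
    have g4 : G (M2 x y e1 e2) = G' (M2 x y e1 e2) :=
      LieHom.congr_fun ((hg ⟨true⟩).trans (hF ⟨true⟩).symm) N2
    have g5 : G (W x y e1 e2) = G' (W x y e1 e2) :=
      LieHom.congr_fun ((hg ⟨false⟩).trans (hF ⟨false⟩).symm) Z
    refine (h.2 M).2 _ _ g1 g2 ?_ ?_
    · rw [M1, map_sub, map_add, G.map_lie, map_sub, map_add, G'.map_lie, g2, g5] at g3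
      exact sub_left_injective g3
    · rw [M2, map_sub, G.map_lie, map_sub, G'.map_lie, g1, g5] at g4
      exact sub_left_injective g4

theorem Univ.no_gen (h : Univ k x y e1 e2) (X Y Z : L) (hX : X ∈ A2 k x y e1 e2 ⟨true⟩)
    (hY : Y ∈ A2 k x y e1 e2 ⟨true⟩) (hZ : Z ∈ A2 k x y e1 e2 ⟨true⟩) (hXY : ⁅X, Y⁆ = Y)
    (hgen : ∀ S : LieSubalgebra k L, X ∈ S → Y ∈ S → Z ∈ S → A2 k x y e1 e2 ⟨true⟩ ≤ S) :
    False := by
  obtain ⟨F, f1, f2, f3, f4⟩ := (h.2 (E k)).1 (mk 1 0 0) (mk 0 1 0) (mk 0 0 m1) (mk 0 0 m2)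
    (by apply E_ext <;> simp [act])
  have f5 : F (W x y e1 e2) = 0 := by
    rw [map_W, f1, f2, f3, f4]
    apply E_ext
    · simp [W]
    · simp [W]
    · simpa [W, act] using rel (k := k)
  have f6 : F (M1 x y e1 e2) = mk 0 0 m1 := by
    rw [M1, map_sub, map_add, F.map_lie, f5, f3]; simp
  have f7 : F (M2 x y e1 e2) = mk 0 0 m2 := by
    rw [M2, map_sub, F.map_lie, f5, f4]; simp
  have hle : A2 k x y e1 e2 ⟨true⟩ ≤ (EΛ (k := k)).comap F := by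
    refine lieSpan_le.2 ?_
    rintro s (rfl | rfl | rfl | rfl) <;> rw [SetLike.mem_coe, mem_comap]
    · rw [f1]; exact KΛ.zero_mem
    · rw [f2]; exact KΛ.zero_mem
    · rw [f6]; exact m1_mem
    · rw [f7]; exact m2_mem
  refine LieA.no_gen (F X) (F Y) (F Z) (hle hX) (hle hY) (hle hZ) (by rw [← F.map_lie, hXY])
    fun S h1 h2 h3 => ?_
  have := hgen (S.comap F) h1 h2 h3
  rw [← f1, ← f2, ← f6, ← f7]
  exact ⟨this (subset_lieSpan (by simp)), this (subset_lieSpan (by simp)),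
    this (subset_lieSpan (by simp)), this (subset_lieSpan (by simp))⟩

theorem Univ.no_ref (h : Univ k x y e1 e2) (J : Type u) (B : J → LieSubalgebra k L)
    (p : J → ULift.{u} (Fin 3)) (J' : Type u) (B' : J' → LieSubalgebra k L)
    (p' : J' → ULift.{u} Bool)
    (h1 : ∀ i, Dec (fun j : {j : J // p j = i} => B j.1) (A1 k x y e1 e2 i))
    (h2 : ∀ i, Dec (fun j : {j : J' // p' j = i} => B' j.1) (A2 k x y e1 e2 i))
    (σ : J ≃ J') (hσ : ∀ j, Nonempty (↥(B j) ≃ₗ⁅k⁆ ↥(B' (σ j)))) : False := by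
  have hinj : ∀ j l, p j = p l → j = l := fun j l e =>
    congrArg Subtype.val ((h1 (p l)).subsingleton (xs_ys h.1 _) ⟨j, e⟩ ⟨l, rfl⟩)
  obtain ⟨j0, hj0⟩ : ∃ j0, p' j0 = ⟨false⟩ := by
    by_contra hc
    exact h.dec2.1 ⟨false⟩ (le_bot_iff.1 ((h2 ⟨false⟩).gen ⊥ fun j => (hc ⟨j.1, j.2⟩).elim))
  have key : ∀ i, ∃ X Y : L, X ∈ A2 k x y e1 e2 ⟨true⟩ ∧ Y ∈ A2 k x y e1 e2 ⟨true⟩ ∧ ⁅X, Y⁆ = Y ∧
      (ys y i = 0 → Y = 0) ∧ (i = p (σ.symm j0) → X = 0 ∧ Y = 0) ∧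
      ∀ S : LieSubalgebra k L, X ∈ S → Y ∈ S → ∀ j, p j = i → p' (σ j) = ⟨true⟩ →
        B' (σ j) ≤ S := by
    intro i
    by_cases hi : ∃ j, p j = i ∧ p' (σ j) = ⟨true⟩
    · obtain ⟨j, rfl, hj⟩ := hi
      obtain ⟨φ⟩ := hσ j
      have hge : A1 k x y e1 e2 (p j) ≤ B j := (h1 (p j)).gen _ fun l => by
        rw [hinj l.1 j l.2]
      have hle : B j ≤ A1 k x y e1 e2 (p j) := (h1 (p j)).le ⟨j, rfl⟩
      have hle' : B' (σ j) ≤ A2 k x y e1 e2 ⟨true⟩ := (h2 ⟨true⟩).le ⟨σ j, hj⟩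
      let X : B j := ⟨xs x e1 e2 (p j), hge (subset_lieSpan (by simp))⟩
      let Y : B j := ⟨ys y (p j), hge (subset_lieSpan (by simp))⟩
      refine ⟨φ X, φ Y, hle' (φ X).2, hle' (φ Y).2, ?_, fun h0 => ?_, fun h0 => ?_,
        fun S hX hY l hl _ => ?_⟩
      · have : ⁅X, Y⁆ = Y := Subtype.ext (xs_ys h.1 _)
        rw [← LieSubalgebra.coe_bracket, ← φ.map_lie, this]
      · have : Y = 0 := Subtype.ext h0
        rw [this, map_zero]
        rfl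
      · rw [hinj _ _ h0, σ.apply_symm_apply, hj0] at hj
        cases hj
      · rw [hinj l j hl]
        intro c hc
        obtain ⟨b, hb⟩ := φ.surjective ⟨c, hc⟩
        obtain ⟨s, t, e⟩ := mem_span2 (xs_ys h.1 _) (hle b.2)
        have : b = s • X + t • Y := Subtype.ext e
        rw [this, map_add, map_smul, map_smul] at hb
        have e2 : s • (φ X : L) + t • (φ Y : L) = c := congrArg Subtype.val hb
        rw [← e2]
        exact S.add_mem (S.smul_mem _ hX) (S.smul_mem _ hY)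
    · exact ⟨0, 0, LieSubalgebra.zero_mem _, LieSubalgebra.zero_mem _, by simp, fun _ => rfl,
        fun _ => ⟨rfl, rfl⟩, fun S _ _ j e e' => (hi ⟨j, e, e'⟩).elim⟩
  choose X Y hX hY hXY hy h0 hS using key
  have hgen : ∀ S : LieSubalgebra k L, (∀ i, X i ∈ S) → Y ⟨0⟩ ∈ S →
      A2 k x y e1 e2 ⟨true⟩ ≤ S := by
    intro S g1 g2
    refine (h2 ⟨true⟩).gen S fun j => ?_
    have g3 : ∀ i, Y i ∈ S := by
      rintro ⟨i⟩
      fin_cases i
      · exact g2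
      · exact (hy ⟨1⟩ rfl) ▸ S.zero_mem
      · exact (hy ⟨2⟩ rfl) ▸ S.zero_mem
    have := hS _ S (g1 _) (g3 _) (σ.symm j.1) rfl (by rw [σ.apply_symm_apply]; exact j.2)
    rwa [σ.apply_symm_apply] at this
  generalize p (σ.symm j0) = i0 at h0
  obtain ⟨a0, b0⟩ := h0 i0 rfl
  obtain ⟨i0⟩ := i0
  fin_cases i0
  · refine h.no_gen (X ⟨1⟩) 0 (X ⟨2⟩) (hX _) (LieSubalgebra.zero_mem _) (hX _) (by simp)
      fun S g1 g2 g3 => hgen S ?_ (b0 ▸ g2)
    rintro ⟨i⟩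
    fin_cases i
    · exact a0 ▸ g2
    · exact g1
    · exact g3
  · refine h.no_gen (X ⟨0⟩) (Y ⟨0⟩) (X ⟨2⟩) (hX _) (hY _) (hX _) (hXY _)
      fun S g1 g2 g3 => hgen S ?_ g2
    rintro ⟨i⟩
    fin_cases i
    · exact g1
    · exact a0 ▸ S.zero_mem
    · exact g3
  · refine h.no_gen (X ⟨0⟩) (Y ⟨0⟩) (X ⟨1⟩) (hX _) (hY _) (hX _) (hXY _)
      fun S g1 g2 g3 => hgen S ?_ g2
    rintro ⟨i⟩
    fin_cases i
    · exact g1
    · exact g3
    · exact a0 ▸ S.zero_mem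

end general

section pres
open FreeLieAlgebra

variable (k) in
/-- the relator ideal -/
noncomputable def II : LieIdeal k (FreeLieAlgebra k (Fin 4)) :=
  LieSubmodule.lieSpan k (FreeLieAlgebra k (Fin 4)) {⁅of k (0 : Fin 4), of k 1⁆ - of k 1}

variable (k) in
abbrev LL : Type u := FreeLieAlgebra k (Fin 4) ⧸ II k

noncomputable def π : FreeLieAlgebra k (Fin 4) →ₗ⁅k⁆ LL k :=
  { (II k).toSubmodule.mkQ with map_lie' := fun {a b} => LieSubmodule.Quotient.mk_bracket _ a b }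

theorem π_surj : Function.Surjective (π (k := k)) := (II k).toSubmodule.mkQ_surjective

theorem univ_LL : Univ k (π (of k 0) : LL k) (π (of k 1)) (π (of k 2)) (π (of k 3)) := by
  refine ⟨?_, fun M _ _ => ⟨fun X Y E1 E2 hXY => ?_, fun F G h0 h1 h2 h3 => ?_⟩⟩
  · rw [← LieHom.map_lie, ← sub_eq_zero, ← map_sub]
    exact LieSubmodule.Quotient.mk_eq_zero'.2 (LieSubmodule.subset_lieSpan rfl)
  · let F0 : FreeLieAlgebra k (Fin 4) →ₗ⁅k⁆ M := lift k ![X, Y, E1, E2]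
    have hker : II k ≤ F0.ker := by
      rw [II, LieSubmodule.lieSpan_le]
      rintro _ rfl
      simp [F0, hXY]
    let F1 : LL k →ₗ[k] M := (II k).toSubmodule.liftQ F0.toLinearMap fun a ha => hker ha
    have hF1 : ∀ a, F1 (π a) = F0 a := fun a => rfl
    refine ⟨{ F1 with map_lie' := fun {a b} => ?_ }, ?_, ?_, ?_, ?_⟩
    · obtain ⟨a, rfl⟩ := π_surj a
      obtain ⟨b, rfl⟩ := π_surj b
      show F1 ⁅π a, π b⁆ = ⁅F1 (π a), F1 (π b)⁆
      rw [← LieHom.map_lie, hF1, hF1, hF1, LieHom.map_lie]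
    all_goals exact (hF1 _).trans (lift_of_apply _ _)
  · have : F.comp π = G.comp π := hom_ext fun i => by
      fin_cases i
      · exact h0
      · exact h1
      · exact h2
      · exact h3
    ext a
    obtain ⟨a, rfl⟩ := π_surj a
    exact LieHom.congr_fun this a

end pres

end Pool.Agent.H353Z.LieB
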