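import Mathlib

/-!
Homological lemmas on projective dimension of cyclic modules.
-/

set_option autoImplicit false

open CategoryTheory Abelian RingTheory.Sequence

namespace Pool.Agent.H353Z.PD

variable {S : Type} [CommRing S]

/-- projective dimension at most `n` -/
abbrev PDle (S : Type) [CommRing S] (M : Type) [AddCommGroup M] [Module S M] (n : ℕ) : Prop :=
  HasProjectiveDimensionLE (ModuleCat.of S M) n

section ses
variable {A B C : Type} [AddCommGroup A] [Module S A] [AddCommGroup B] [Module S B]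
  [AddCommGroup C] [Module S C]

theorem ses (f : A →ₗ[S] B) (g : B →ₗ[S] C) (hf : Function.Injective f)
    (hg : Function.Surjective g) (h : Function.Exact f g) :
    (ModuleCat.shortComplexOfCompEqZero f g h.linearMap_comp_eq_zero).ShortExact :=
  ModuleCat.shortComplex_shortExact _ h hf hg

theorem pd_mid (f : A →ₗ[S] B) (g : B →ₗ[S] C) (hf : Function.Injective f)
    (hg : Function.Surjective g) (h : Function.Exact f g) (n : ℕ) (hA : PDle S A n)
    (hC : PDle S C n) : PDle S B n :=
  (ses f g hf hg h).hasProjectiveDimensionLT_X₂ (n + 1) hA hC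

theorem pd_right (f : A →ₗ[S] B) (g : B →ₗ[S] C) (hf : Function.Injective f)
    (hg : Function.Surjective g) (h : Function.Exact f g) (n : ℕ) (hA : PDle S A n)
    (hB : PDle S B (n + 1)) : PDle S C (n + 1) :=
  (ses f g hf hg h).hasProjectiveDimensionLT_X₃ (n + 1) hA hB

theorem pd_left (f : A →ₗ[S] B) (g : B →ₗ[S] C) (hf : Function.Injective f)
    (hg : Function.Surjective g) (h : Function.Exact f g) (n : ℕ) (hB : PDle S B n)
    (hC : PDle S C (n + 1)) : PDle S A n :=
  (ses f g hf hg h).hasProjectiveDimensionLT_X₁ (n + 1) hB hC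

theorem pd_mono {n m : ℕ} (h : n ≤ m) (hA : PDle S A n) : PDle S A m :=
  haveI := hA
  hasProjectiveDimensionLT_of_ge _ (n + 1) (m + 1) (by omega)

theorem pd_zero_iff : PDle S A 0 ↔ Module.Projective S A := by
  rw [IsProjective.iff_projective, projective_iff_hasProjectiveDimensionLE_zero]

theorem pd_of_projective [Module.Projective S A] (n : ℕ) : PDle S A n :=
  pd_mono (Nat.zero_le n) (pd_zero_iff.2 inferInstance)

theorem pd_equiv (e : A ≃ₗ[S] B) (n : ℕ) (h : PDle S A n) : PDle S B n :=
  haveI := h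
  hasProjectiveDimensionLT_of_iso e.toModuleIso (n + 1)

end ses

theorem pd_ideal_iff (J : Ideal S) (n : ℕ) : PDle S (S ⧸ J) (n + 1) ↔ PDle S J n := by
  have hex : Function.Exact J.subtype J.mkQ := LinearMap.exact_subtype_mkQ J
  constructor
  · intro h
    exact pd_left J.subtype J.mkQ J.injective_subtype J.mkQ_surjective hex n
      (pd_of_projective n) h
  · intro h
    exact pd_right J.subtype J.mkQ J.injective_subtype J.mkQ_surjective hex n h
      (pd_of_projective (n + 1))

/-- the colon exact sequence -/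
theorem colon_seq (J K L : Ideal S) (f : S) (hK : ∀ g, g ∈ K ↔ f * g ∈ J)
    (hL : L = J ⊔ Ideal.span {f}) :
    ∃ (a : (S ⧸ K) →ₗ[S] (S ⧸ J)) (b : (S ⧸ J) →ₗ[S] (S ⧸ L)),
      Function.Injective a ∧ Function.Surjective b ∧ Function.Exact a b := by
  have hJL : J ≤ L := hL ▸ le_sup_left
  refine ⟨K.mapQ J (LinearMap.lsmul S S f) (fun g hg => by simpa using (hK g).1 hg),
    J.mapQ L LinearMap.id (fun g hg => by simpa using hJL hg), ?_, ?_, ?_⟩
  · rw [injective_iff_map_eq_zero]
    intro x hx
    obtain ⟨g, rfl⟩ := K.mkQ_surjective x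
    simp only [Submodule.mkQ_apply, Submodule.mapQ_apply, LinearMap.lsmul_apply, smul_eq_mul,
      Submodule.Quotient.mk_eq_zero] at hx ⊢
    exact (hK g).2 hx
  · intro x
    obtain ⟨g, rfl⟩ := L.mkQ_surjective x
    exact ⟨J.mkQ g, rfl⟩
  · intro x
    obtain ⟨g, rfl⟩ := J.mkQ_surjective x
    simp only [Submodule.mkQ_apply, Submodule.mapQ_apply, LinearMap.id_coe, id_eq,
      Submodule.Quotient.mk_eq_zero, Set.mem_range]
    constructor
    · intro hg
      rw [hL] at hg
      obtain ⟨y, hy, z, hz, rfl⟩ := Submodule.mem_sup.1 hg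
      obtain ⟨c, rfl⟩ := Ideal.mem_span_singleton'.1 hz
      refine ⟨K.mkQ c, ?_⟩
      simp only [Submodule.mkQ_apply, Submodule.mapQ_apply, LinearMap.lsmul_apply, smul_eq_mul]
      rw [Submodule.Quotient.eq]
      have : f * c - (y + c * f) = -y := by ring
      rw [this]
      exact J.neg_mem hy
    · rintro ⟨c, hc⟩
      obtain ⟨c, rfl⟩ := K.mkQ_surjective c
      simp only [Submodule.mkQ_apply, Submodule.mapQ_apply, LinearMap.lsmul_apply,
        smul_eq_mul] at hc
      rw [Submodule.Quotient.eq] at hc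
      have : g = -(f * c - g) + c * f := by ring
      rw [this, hL]
      exact Submodule.add_mem_sup (J.neg_mem hc) (Ideal.mem_span_singleton'.2 ⟨c, rfl⟩)

theorem pd_colon (J K L : Ideal S) (f : S) (hK : ∀ g, g ∈ K ↔ f * g ∈ J)
    (hL : L = J ⊔ Ideal.span {f}) (n : ℕ) (h1 : PDle S (S ⧸ K) n) (h2 : PDle S (S ⧸ L) n) :
    PDle S (S ⧸ J) n := by
  obtain ⟨a, b, ha, hb, hab⟩ := colon_seq J K L f hK hL
  exact pd_mid a b ha hb hab n h1 h2

theorem pd_reg (J L : Ideal S) (f : S) (hK : ∀ g, f * g ∈ J → g ∈ J)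
    (hL : L = J ⊔ Ideal.span {f}) (n : ℕ) (h1 : PDle S (S ⧸ J) n) :
    PDle S (S ⧸ L) (n + 1) := by
  obtain ⟨a, b, ha, hb, hab⟩ := colon_seq J J L f
    (fun g => ⟨fun hg => J.mul_mem_left f hg, hK g⟩) hL
  exact pd_right a b ha hb hab n h1 (pd_mono (Nat.le_succ n) h1)

theorem pd_bot : PDle S (S ⧸ (⊥ : Ideal S)) 0 :=
  pd_equiv (Submodule.quotEquivOfEqBot (⊥ : Ideal S) rfl).symm 0 (pd_of_projective 0)

theorem pd_top (n : ℕ) : PDle S (S ⧸ (⊤ : Ideal S)) n := by
  haveI : Subsingleton (S ⧸ (⊤ : Ideal S)) := Ideal.Quotient.subsingleton_iff.2 rfl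
  exact pd_of_projective n

theorem pd_principal [IsDomain S] (f : S) (hf : f ≠ 0) : PDle S (S ⧸ Ideal.span {f}) 1 :=
  pd_reg ⊥ _ f (fun g hg => by simpa [hf] using hg) (by simp) 0 pd_bot

theorem pd_mul [IsDomain S] (f : S) (hf : f ≠ 0) (G : Ideal S) (n : ℕ) (hn : 1 ≤ n)
    (h : PDle S (S ⧸ G) n) : PDle S (S ⧸ (Ideal.span {f} * G)) n := by
  refine pd_colon (Ideal.span {f} * G) G (Ideal.span {f}) f (fun g => ?_) ?_ n h
    (pd_mono hn (pd_principal f hf))
  · rw [Ideal.mem_span_singleton_mul]
    constructor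
    · intro hg; exact ⟨g, hg, rfl⟩
    · rintro ⟨z, hz, e⟩
      rwa [← mul_left_cancel₀ hf e]
  · exact (sup_eq_right.2 Ideal.mul_le_left).symm

/-! ### lower bounds -/

theorem ext_vanish_reg (N : ModuleCat.{0} S) (rs : List S)
    (hN : ∀ r ∈ rs, r ∈ Module.annihilator S N) (M : ModuleCat.{0} S)
    (reg : IsWeaklyRegular M rs) : ∀ i < rs.length, Subsingleton (Ext N M i) := by
  induction rs generalizing M with
  | nil => simp
  | cons a rs' ih =>
    intro i hi
    simp only [isWeaklyRegular_cons_iff] at reg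
    simp only [List.mem_cons, forall_eq_or_imp] at hN
    simp only [List.length_cons] at hi
    match i with
    | 0 =>
      have : Subsingleton (N →ₗ[S] M) := by
        refine ⟨fun f g => ?_⟩
        ext x
        apply reg.1
        have hx : a • x = 0 := Module.mem_annihilator.1 hN.1 x
        simp only [← map_smul, hx, map_zero]
      exact (Ext.addEquiv₀.trans ModuleCat.homAddEquiv).subsingleton
    | i + 1 =>
      let g := (AddCommGrpCat.ofHom ((Ext.mk₀ (ModuleCat.smulShortComplex M a).f).postcomp N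
        (add_zero (i + 1))))
      have mono_g : Mono g := by
        apply (Ext.covariant_sequence_exact₁' N reg.1.smulShortComplex_shortExact i (i + 1)
          rfl).mono_g ((AddCommGrpCat.isZero_of_iff_subsingleton.mpr ?_).eq_zero_of_src _)
        exact ih hN.2 (ModuleCat.of S (QuotSMulTop a M)) reg.2 i (by omega)
      have zero_g : g = 0 := Ext.postcomp_smul_id_eq_zero_of_mem_annihilator hN.1 (i + 1)
      exact AddCommGrpCat.subsingleton_of_isZero (Limits.IsZero.of_mono_eq_zero _ zero_g)

theorem smul_top_of_projective (P : Type) [AddCommGroup P] [Module S P] [Module.Projective S P]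
    (I : Ideal S) (r : S) (hr : ∀ g, r * g ∈ I → g ∈ I) (m : P)
    (hm : r • m ∈ (I • ⊤ : Submodule S P)) : m ∈ (I • ⊤ : Submodule S P) := by
  obtain ⟨s, hs⟩ := (Module.projective_def (R := S) (P := P)).1 inferInstance
  have key : ∀ (z : P), z ∈ (I • ⊤ : Submodule S P) → ∀ p, s z p ∈ I := by
    intro z hz p
    refine Submodule.smul_induction_on hz ?_ ?_
    · intro a ha n _
      rw [map_smul, Finsupp.smul_apply, smul_eq_mul]
      exact I.mul_mem_right _ ha
    · intro x y hx hy
      rw [map_add, Finsupp.add_apply]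
      exact I.add_mem hx hy
  have h2 : ∀ p, s m p ∈ I := by
    intro p
    apply hr
    have := key _ hm p
    rwa [map_smul, Finsupp.smul_apply, smul_eq_mul] at this
  rw [← hs m, Finsupp.linearCombination_apply, Finsupp.sum]
  exact Submodule.sum_mem _ fun p _ => Submodule.smul_mem_smul (h2 p) trivial

theorem weaklyRegular_of_projective (rs : List S)
    (hrs : ∀ i (h : i < rs.length) (g : S), rs[i] * g ∈ Ideal.ofList (rs.take i) →
      g ∈ Ideal.ofList (rs.take i))
    (P : Type) [AddCommGroup P] [Module S P] [Module.Projective S P] :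
    IsWeaklyRegular P rs := by
  refine ⟨fun i h => ?_⟩
  rw [isSMulRegular_iff_right_eq_zero_of_smul]
  intro m hm
  obtain ⟨m, rfl⟩ := Submodule.mkQ_surjective _ m
  rw [← map_smul, Submodule.mkQ_apply, Submodule.Quotient.mk_eq_zero] at hm
  rw [Submodule.mkQ_apply, Submodule.Quotient.mk_eq_zero]
  exact smul_top_of_projective P _ _ (hrs i h) m hm

theorem ext_vanish_pd (N : ModuleCat.{0} S) (len : ℕ)
    (hP : ∀ P : ModuleCat.{0} S, Projective P → ∀ i < len, Subsingleton (Ext N P i))
    (r : ℕ) (M : ModuleCat.{0} S) (hM : HasProjectiveDimensionLE M r) :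
    ∀ i, i + r < len → Subsingleton (Ext N M i) := by
  induction r generalizing M with
  | zero =>
    intro i hi
    exact hP M ((projective_iff_hasProjectiveDimensionLE_zero M).2 hM) i (by omega)
  | succ r ih =>
    intro i hi
    have hS := M.shortExact_projectiveShortComplex
    have h2 : Projective M.projectiveShortComplex.X₂ := inferInstance
    have h1 : HasProjectiveDimensionLE M.projectiveShortComplex.X₁ r :=
      (hS.hasProjectiveDimensionLT_X₃_iff r h2).1 hM
    have e1 := ih _ h1 (i + 1) (by omega)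
    have e2 := hP _ h2 i (by omega)
    refine ⟨fun x y => ?_⟩
    have : ∀ x : Ext N M i, x = 0 := by
      intro x
      obtain ⟨x₂, hx⟩ := Ext.covariant_sequence_exact₃ N hS x rfl (Subsingleton.elim _ _)
      rw [← hx, Subsingleton.elim x₂ 0, Ext.zero_comp]
    rw [this x, this y]

/-- if an element outside `J` is multiplied into `J` by a regular sequence of length `> r`, then
the projective dimension of `S ⧸ J` exceeds `r`. -/
theorem not_pd (rs : List S)
    (hrs : ∀ i (h : i < rs.length) (g : S), rs[i] * g ∈ Ideal.ofList (rs.take i) →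
      g ∈ Ideal.ofList (rs.take i))
    (J : Ideal S) (s : S) (hs : s ∉ J) (hkill : ∀ r ∈ rs, r * s ∈ J) (r : ℕ)
    (hr : r < rs.length) : ¬ PDle S (S ⧸ J) r := by
  intro h
  let N : ModuleCat.{0} S := ModuleCat.of S (S ⧸ Ideal.ofList rs)
  have hN : ∀ r ∈ rs, r ∈ Module.annihilator S N := by
    intro r hr
    rw [Module.mem_annihilator]
    intro x
    obtain ⟨g, rfl⟩ := Submodule.mkQ_surjective _ x
    rw [← map_smul, Submodule.mkQ_apply, Submodule.Quotient.mk_eq_zero, smul_eq_mul]
    exact Ideal.mul_mem_right _ _ (Ideal.subset_span hr)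
  have hP : ∀ P : ModuleCat.{0} S, Projective P → ∀ i < rs.length, Subsingleton (Ext N P i) := by
    intro P hP
    haveI : Module.Projective S P := (IsProjective.iff_projective P).2 hP
    exact ext_vanish_reg N rs hN P (weaklyRegular_of_projective rs hrs P)
  have h0 := ext_vanish_pd N rs.length hP r _ h 0 (by omega)
  have h1 : Subsingleton ((S ⧸ Ideal.ofList rs) →ₗ[S] (S ⧸ J)) :=
    (Ext.addEquiv₀.trans (ModuleCat.homAddEquiv (M := N)
      (N := ModuleCat.of S (S ⧸ J)))).symm.subsingleton
  let φ : (S ⧸ Ideal.ofList rs) →ₗ[S] (S ⧸ J) :=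
    (Ideal.ofList rs).mapQ J (LinearMap.lsmul S S s) (by
      rw [Ideal.ofList, Ideal.span_le]
      intro r hr
      simpa [mul_comm] using hkill r hr)
  have := LinearMap.congr_fun (Subsingleton.elim φ 0) (Submodule.mkQ _ 1)
  simp only [φ, Submodule.mkQ_apply, Submodule.mapQ_apply, LinearMap.lsmul_apply, smul_eq_mul,
    mul_one, LinearMap.zero_apply, Submodule.Quotient.mk_eq_zero] at this
  exact hs this

/-! ### staircase ideals -/

/-- `T x W A = ∑_{j ≤ A} x^(A-j) W j` -/
def T (x : S) (W : ℕ → Ideal S) : ℕ → Ideal S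
  | 0 => W 0
  | A + 1 => Ideal.span {x} * T x W A ⊔ W (A + 1)

theorem le_T (x : S) (W : ℕ → Ideal S) (A : ℕ) : W A ≤ T x W A := by
  cases A with
  | zero => exact le_rfl
  | succ A => exact le_sup_right

theorem mem_T (x : S) (W : ℕ → Ideal S) (A j : ℕ) (hj : j ≤ A) (w : S) (hw : w ∈ W j) :
    x ^ (A - j) * w ∈ T x W A := by
  induction A with
  | zero =>
    obtain rfl : j = 0 := by omega
    simpa [T] using hw
  | succ A ih =>
    rcases Nat.eq_or_lt_of_le hj with rfl | h
    · simpa using le_T x W _ hw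
    · have : A + 1 - j = (A - j) + 1 := by omega
      rw [this, pow_succ', mul_assoc]
      exact Ideal.mem_sup_left (Ideal.mul_mem_mul (Ideal.mem_span_singleton_self x)
        (ih (by omega)))

theorem T_le (x : S) (W : ℕ → Ideal S) (A : ℕ) (J : Ideal S)
    (h : ∀ j ≤ A, ∀ w ∈ W j, x ^ (A - j) * w ∈ J) : T x W A ≤ J := by
  induction A generalizing J with
  | zero =>
    intro w hw
    simpa using h 0 le_rfl w hw
  | succ A ih =>
    refine sup_le ?_ ?_
    · have := ih (J.colon {x}) (fun j hj w hw => by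
        rw [Submodule.mem_colon_singleton, smul_eq_mul]
        have := h j (by omega) w hw
        have e : A + 1 - j = (A - j) + 1 := by omega
        rw [e, pow_succ'] at this
        convert this using 1
        ring)
      intro z hz
      obtain ⟨y, hy, rfl⟩ := Ideal.mem_span_singleton_mul.1 hz
      have := this hy
      rw [Submodule.mem_colon_singleton, smul_eq_mul] at this
      rwa [mul_comm]
    · intro w hw
      simpa using h (A + 1) le_rfl w hw

variable [IsDomain S]

theorem colon_T (x : S) (hx : x ≠ 0) (W : ℕ → Ideal S) (A : ℕ)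
    (hreg : ∀ g, x * g ∈ W (A + 1) → g ∈ W (A + 1)) (hW : W (A + 1) ≤ W A) (g : S) :
    g ∈ T x W A ↔ x * g ∈ T x W (A + 1) := by
  constructor
  · intro hg
    exact Ideal.mem_sup_left (Ideal.mul_mem_mul (Ideal.mem_span_singleton_self x) hg)
  · intro hg
    obtain ⟨y, hy, z, hz, e⟩ := Submodule.mem_sup.1 hg
    obtain ⟨y', hy', rfl⟩ := Ideal.mem_span_singleton_mul.1 hy
    have : z = x * (g - y') := by rw [mul_sub, ← e]; ring
    rw [this] at hz
    have h2 := le_T x W A (hW (hreg _ hz))
    have : g = (g - y') + y' := by ring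
    rw [this]
    exact Ideal.add_mem _ h2 hy'

theorem pd_T (x : S) (hx : x ≠ 0) (W : ℕ → Ideal S) (A m : ℕ)
    (hreg : ∀ j ≤ A, ∀ g, x * g ∈ W j → g ∈ W j) (hW : ∀ j < A, W (j + 1) ≤ W j)
    (hpd : ∀ j ≤ A, PDle S (S ⧸ W j) m) : PDle S (S ⧸ T x W A) (m + 1) := by
  induction A with
  | zero => exact pd_mono (Nat.le_succ m) (hpd 0 le_rfl)
  | succ A ih =>
    have ih' := ih (fun j hj => hreg j (by omega)) (fun j hj => hW j (by omega))
      (fun j hj => hpd j (by omega))
    refine pd_colon (T x W (A + 1)) (T x W A) (W (A + 1) ⊔ Ideal.span {x}) x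
      (colon_T x hx W A (hreg _ le_rfl) (hW A (by omega))) ?_ (m + 1) ih' ?_
    · apply le_antisymm
      · exact sup_le_sup_right (le_T x W _) _
      · refine sup_le (sup_le ?_ le_sup_left) le_sup_right
        exact le_trans Ideal.mul_le_left le_sup_right
    · exact pd_reg _ _ x (hreg _ le_rfl) rfl m (hpd _ le_rfl)

theorem of_mem_T (x : S) (hx : x ≠ 0) (W : ℕ → Ideal S) (A j : ℕ) (hj : j ≤ A)
    (hreg : ∀ j ≤ A, ∀ g, x * g ∈ W j → g ∈ W j) (hW : ∀ j < A, W (j + 1) ≤ W j)
    (w : S) (hw : x ^ (A - j) * w ∈ T x W A) : w ∈ Ideal.span {x} ⊔ W j := by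
  induction A with
  | zero =>
    obtain rfl : j = 0 := by omega
    exact Ideal.mem_sup_right (by simpa [T] using hw)
  | succ A ih =>
    rcases Nat.eq_or_lt_of_le hj with rfl | h
    · simp only [Nat.sub_self, pow_zero, one_mul] at hw
      exact (sup_le_sup_right Ideal.mul_le_left _ : T x W (A + 1) ≤ _) hw
    · have : A + 1 - j = (A - j) + 1 := by omega
      rw [this, pow_succ', mul_assoc] at hw
      exact ih (by omega) (fun j hj => hreg j (by omega)) (fun j hj => hW j (by omega))
        ((colon_T x hx W A (hreg _ le_rfl) (hW A (by omega)) _).2 hw)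

end Pool.Agent.H353Z.PD
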