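import Pool.Agent.H353Z.PD
import Pool.Agent.H353Z.Comb

/-!
Every convergent function with values at least one is the projective dimension function of the
powers of a monomial ideal.
-/

set_option autoImplicit false

open CategoryTheory MvPolynomial Pointwise

namespace Pool.Agent.H353Z.PDMain

open Pool.Agent.H353Z.PD Pool.Agent.H353Z.Comb

theorem mem_of_eq {S : Type} [CommRing S] {I : Ideal S} {a b : S} (h : a ∈ I) (e : b = a) :
    b ∈ I := e ▸ h

section mono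
variable {n : ℕ}

/-- monomials with exponent zero at `i` -/
def MonAt (i : Fin n) (f : MvPolynomial (Fin n) ℚ) : Prop :=
  ∃ e : Fin n →₀ ℕ, e i = 0 ∧ f = monomial e 1

def Mon (f : MvPolynomial (Fin n) ℚ) : Prop := ∃ e : Fin n →₀ ℕ, f = monomial e 1

theorem MonAt.mon {i : Fin n} {f : MvPolynomial (Fin n) ℚ} (h : MonAt i f) : Mon f := by
  obtain ⟨e, -, he⟩ := h
  exact ⟨e, he⟩

theorem Mon.mul {f g : MvPolynomial (Fin n) ℚ} (hf : Mon f) (hg : Mon g) : Mon (f * g) := by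
  obtain ⟨e, rfl⟩ := hf
  obtain ⟨e', rfl⟩ := hg
  exact ⟨e + e', by rw [monomial_mul, one_mul]⟩

theorem Mon_X_pow (i : Fin n) (k : ℕ) : Mon (X i ^ k : MvPolynomial (Fin n) ℚ) :=
  ⟨Finsupp.single i k, X_pow_eq_monomial⟩

theorem MonAt_one (i : Fin n) : MonAt i (1 : MvPolynomial (Fin n) ℚ) := ⟨0, rfl, rfl⟩

theorem MonAt.mul {i : Fin n} {f g : MvPolynomial (Fin n) ℚ} (hf : MonAt i f) (hg : MonAt i g) :
    MonAt i (f * g) := by
  obtain ⟨e, he, rfl⟩ := hf
  obtain ⟨e', he', rfl⟩ := hg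
  exact ⟨e + e', by simp [he, he'], by rw [monomial_mul, one_mul]⟩

theorem MonAt.pow {i : Fin n} {f : MvPolynomial (Fin n) ℚ} (hf : MonAt i f) (k : ℕ) :
    MonAt i (f ^ k) := by
  induction k with
  | zero => simpa using MonAt_one i
  | succ k ih => rw [pow_succ]; exact ih.mul hf

theorem MonAt_X {i k : Fin n} (h : k ≠ i) : MonAt i (X k : MvPolynomial (Fin n) ℚ) :=
  ⟨Finsupp.single k 1, by simp [h], rfl⟩

theorem span_mon (A : Set (MvPolynomial (Fin n) ℚ)) (hA : ∀ f ∈ A, Mon f) :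
    A = (fun e => monomial e (1 : ℚ)) '' {e | monomial e (1 : ℚ) ∈ A} := by
  ext f
  constructor
  · intro hf
    obtain ⟨e, rfl⟩ := hA f hf
    exact ⟨e, hf, rfl⟩
  · rintro ⟨e, he, rfl⟩
    exact he

theorem regX (i : Fin n) (A : Set (MvPolynomial (Fin n) ℚ)) (hA : ∀ f ∈ A, MonAt i f)
    (f : MvPolynomial (Fin n) ℚ) (hf : X i * f ∈ Ideal.span A) : f ∈ Ideal.span A := by
  rw [span_mon A (fun f hf => (hA f hf).mon), mem_ideal_span_monomial_image] at hf ⊢
  intro m hm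
  have : Finsupp.single i 1 + m ∈ (X i * f).support := by
    rw [mem_support_iff, coeff_X_mul]
    exact mem_support_iff.1 hm
  obtain ⟨e, he, hle⟩ := hf _ this
  refine ⟨e, he, ?_⟩
  obtain ⟨e', he', h2⟩ := hA _ he
  obtain rfl : e = e' := monomial_left_injective one_ne_zero h2
  intro k
  have := hle k
  by_cases hk : k = i
  · subst hk; omega
  · simpa [Finsupp.single_apply, Ne.symm hk] using this

theorem pd_vars (V : Finset (Fin n)) :
    PDle (MvPolynomial (Fin n) ℚ)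
      (MvPolynomial (Fin n) ℚ ⧸ Ideal.span (X '' (V : Set (Fin n)) :
        Set (MvPolynomial (Fin n) ℚ))) V.card := by
  classical
  induction V using Finset.induction_on with
  | empty =>
    have : Ideal.span (X '' ((∅ : Finset (Fin n)) : Set (Fin n)) :
      Set (MvPolynomial (Fin n) ℚ)) = ⊥ := by simp
    rw [this]
    exact pd_bot
  | insert i V hi ih =>
    rw [Finset.card_insert_of_notMem hi]
    refine pd_reg _ _ (X i) (regX i _ ?_) ?_ _ ih
    · rintro f ⟨k, hk, rfl⟩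
      exact MonAt_X (fun h => hi (h ▸ hk))
    · rw [Finset.coe_insert, Set.image_insert_eq, Ideal.span_insert, sup_comm]

end mono

variable (t0 H : ℕ) (g : ℕ → ℕ)

abbrev R (H : ℕ) : Type := MvPolynomial (Fin (H + 1)) ℚ

noncomputable def u : R H := ∏ i : Fin H, X i.succ

def Γ (t j : ℕ) : Set (R H) :=
  {f | (f = 1 ∧ Un t0 H t j) ∨ (∃ i : Fin H, f = X i.succ ∧ Var t0 H g t j i) ∨ f = u H}

noncomputable def W (t j : ℕ) : Ideal (R H) := Ideal.span {u H ^ j} * Ideal.span (Γ t0 H g t j)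

noncomputable def Q (t : ℕ) : Ideal (R H) := T (X 0) (W t0 H g t) (t * (2 * N t0 H))

theorem u_mon : MonAt 0 (u H) := by
  unfold u
  refine Finset.prod_induction _ (MonAt 0) (fun a b => MonAt.mul) (MonAt_one 0) ?_
  intro i _
  exact MonAt_X (Fin.succ_ne_zero i)

theorem u_ne : u H ≠ 0 := by
  obtain ⟨e, -, he⟩ := u_mon H
  rw [he]
  simp

theorem Γ_mon (t j : ℕ) : ∀ f ∈ Γ t0 H g t j, MonAt 0 f := by
  rintro f (⟨rfl, -⟩ | ⟨i, rfl, -⟩ | rfl)
  · exact MonAt_one 0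
  · exact MonAt_X (Fin.succ_ne_zero i)
  · exact u_mon H

theorem u_mem (t j : ℕ) : u H ∈ Ideal.span (Γ t0 H g t j) :=
  Ideal.subset_span (Or.inr (Or.inr rfl))

theorem W_reg (t j : ℕ) (f : R H) (hf : X 0 * f ∈ W t0 H g t j) : f ∈ W t0 H g t j := by
  unfold W at hf ⊢
  rw [Ideal.span_mul_span'] at hf ⊢
  refine regX 0 _ ?_ f hf
  rintro _ ⟨a, ha, b, hb, rfl⟩
  obtain rfl : a = u H ^ j := ha
  exact ((u_mon H).pow j).mul (Γ_mon t0 H g t j b hb)

theorem mem_W {t j : ℕ} {d : R H} (hd : d ∈ Ideal.span (Γ t0 H g t j)) :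
    u H ^ j * d ∈ W t0 H g t j :=
  Ideal.mul_mem_mul (Ideal.mem_span_singleton_self _) hd

theorem W_anti (t j : ℕ) : W t0 H g t (j + 1) ≤ W t0 H g t j := by
  intro f hf
  obtain ⟨z, hz, rfl⟩ := Ideal.mem_span_singleton_mul.1 hf
  have : u H ^ (j + 1) * z = u H ^ j * (u H * z) := by ring
  rw [this]
  exact mem_W t0 H g (Ideal.mul_mem_right _ _ (u_mem t0 H g t j))

variable {t0 H g}

theorem gen_mul (ht0 : 1 ≤ t0) (t j1 j2 : ℕ) :
    Ideal.span (Γ t0 H g t j1) * Ideal.span (Γ t0 H g 1 j2) ≤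
      Ideal.span (Γ t0 H g (t + 1) (j1 + j2)) := by
  rw [Ideal.span_mul_span', Ideal.span_le]
  rintro _ ⟨a, ha, b, hb, rfl⟩
  rcases ha with ⟨rfl, ha⟩ | ⟨i, rfl, ha⟩ | rfl
  · rcases hb with ⟨rfl, hb⟩ | ⟨k, rfl, hb⟩ | rfl
    · exact Ideal.subset_span (Or.inl ⟨by simp, j1, j2, rfl, ha, Un_one.1 hb⟩)
    · exact Ideal.subset_span (Or.inr (Or.inl ⟨k, by simp, j1, j2, rfl,
        Or.inr ⟨ha, Var_one.1 hb⟩⟩))
    · exact Ideal.mul_mem_left _ _ (u_mem _ _ _ _ _)
  · rcases hb with ⟨rfl, hb⟩ | ⟨k, rfl, hb⟩ | rfl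
    · exact Ideal.subset_span (Or.inr (Or.inl ⟨i, by simp, j1, j2, rfl,
        Or.inl ⟨ha, Un_one.1 hb⟩⟩))
    · have h1 := Var_le ht0 ha
      have h2 := Var_le ht0 hb
      have h3 : Un t0 H (t + 1) (j1 + j2) := Un_big (by omega) (by nlinarith)
      have h4 : (1 : R H) ∈ Ideal.span (Γ t0 H g (t + 1) (j1 + j2)) :=
        Ideal.subset_span (Or.inl ⟨rfl, h3⟩)
      simpa using Ideal.mul_mem_left _ (X i.succ * X k.succ) h4
    · exact Ideal.mul_mem_left _ _ (u_mem _ _ _ _ _)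
  · exact Ideal.mul_mem_right _ _ (u_mem _ _ _ _ _)

theorem gen_split (ht0 : 1 ≤ t0) (t j : ℕ) (hj : j ≤ (t + 1) * (2 * N t0 H)) (d : R H)
    (hd : d ∈ Γ t0 H g (t + 1) j) :
    ∃ j1 j2 d1 d2, j1 + j2 = j ∧ j1 ≤ t * (2 * N t0 H) ∧ j2 ≤ 2 * N t0 H ∧
      d1 ∈ Γ t0 H g t j1 ∧ d2 ∈ Γ t0 H g 1 j2 ∧ d = d1 * d2 := by
  rcases hd with ⟨rfl, j1, j2, rfl, h1, h2⟩ | ⟨i, rfl, j1, j2, rfl, ⟨h1, h2⟩ | ⟨h1, h2⟩⟩ | rfl
  · exact ⟨j1, j2, 1, 1, rfl, Un_le ht0 h1, U_le ht0 h2, Or.inl ⟨rfl, h1⟩,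
      Or.inl ⟨rfl, Un_one.2 h2⟩, by simp⟩
  · exact ⟨j1, j2, _, 1, rfl, (Var_le ht0 h1).1, U_le ht0 h2, Or.inr (Or.inl ⟨i, rfl, h1⟩),
      Or.inl ⟨rfl, Un_one.2 h2⟩, by simp⟩
  · exact ⟨j1, j2, 1, _, rfl, Un_le ht0 h1, by have := B_lt h2; omega, Or.inl ⟨rfl, h1⟩,
      Or.inr (Or.inl ⟨i, rfl, Var_one.2 h2⟩), by simp⟩
  · by_cases h : j ≤ t * (2 * N t0 H)
    · exact ⟨j, 0, _, 1, rfl, h, by omega, Or.inr (Or.inr rfl), Or.inl ⟨rfl, Un_zero 1⟩, by simp⟩
    · have e : (t + 1) * (2 * N t0 H) = t * (2 * N t0 H) + 2 * N t0 H := by ring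
      by_cases h2 : j ≤ 2 * N t0 H
      · exact ⟨0, j, 1, _, by simp, by omega, h2, Or.inl ⟨rfl, Un_zero t⟩, Or.inr (Or.inr rfl),
          by simp⟩
      · exact ⟨j - 2 * N t0 H, 2 * N t0 H, _, 1, by omega, by omega, le_rfl, Or.inr (Or.inr rfl),
          Or.inl ⟨rfl, Un_big (t := 0) (by omega) (by omega)⟩, by simp⟩

theorem Q_succ (ht0 : 1 ≤ t0) (t : ℕ) : Q t0 H g t * Q t0 H g 1 = Q t0 H g (t + 1) := by
  have e : (t + 1) * (2 * N t0 H) = t * (2 * N t0 H) + 2 * N t0 H := by ring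
  apply le_antisymm
  · rw [Ideal.mul_le]
    intro r hr s hs
    have h1 : Q t0 H g t ≤ (Q t0 H g (t + 1)).colon {s} := by
      apply T_le
      intro j1 hj1 w1 hw1
      rw [Submodule.mem_colon_singleton, smul_eq_mul]
      have h2 : Q t0 H g 1 ≤ (Q t0 H g (t + 1)).colon {X 0 ^ (t * (2 * N t0 H) - j1) * w1} := by
        apply T_le
        intro j2 hj2 w2 hw2
        rw [Submodule.mem_colon_singleton, smul_eq_mul]
        obtain ⟨z1, hz1, rfl⟩ := Ideal.mem_span_singleton_mul.1 hw1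
        obtain ⟨z2, hz2, rfl⟩ := Ideal.mem_span_singleton_mul.1 hw2
        have h3 := mem_T (X 0) (W t0 H g (t + 1)) ((t + 1) * (2 * N t0 H)) (j1 + j2) (by omega) _
          (mem_W t0 H g (gen_mul ht0 t j1 j2 (Ideal.mul_mem_mul hz1 hz2)))
        have e2 : (t + 1) * (2 * N t0 H) - (j1 + j2) =
          (t * (2 * N t0 H) - j1) + (1 * (2 * N t0 H) - j2) := by omega
        rw [e2] at h3
        exact mem_of_eq h3 (by ring)
      have := h2 hs
      rw [Submodule.mem_colon_singleton, smul_eq_mul] at this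
      rwa [mul_comm]
    have := h1 hr
    rwa [Submodule.mem_colon_singleton, smul_eq_mul] at this
  · apply T_le
    intro j hj w hw
    obtain ⟨z, hz, rfl⟩ := Ideal.mem_span_singleton_mul.1 hw
    have h1 : Ideal.span (Γ t0 H g (t + 1) j) ≤ (Q t0 H g t * Q t0 H g 1).colon
        {X 0 ^ ((t + 1) * (2 * N t0 H) - j) * u H ^ j} := by
      rw [Ideal.span_le]
      intro d hd
      rw [SetLike.mem_coe, Submodule.mem_colon_singleton, smul_eq_mul]
      obtain ⟨j1, j2, d1, d2, rfl, h1, h2, h3, h4, rfl⟩ := gen_split ht0 t j hj d hd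
      have a1 := mem_T (X 0) (W t0 H g t) (t * (2 * N t0 H)) j1 h1 _
        (mem_W t0 H g (Ideal.subset_span h3))
      have a2 := mem_T (X 0) (W t0 H g 1) (1 * (2 * N t0 H)) j2 (by omega) _
        (mem_W t0 H g (Ideal.subset_span h4))
      have e2 : (t + 1) * (2 * N t0 H) - (j1 + j2) =
          (t * (2 * N t0 H) - j1) + (1 * (2 * N t0 H) - j2) := by omega
      rw [e2]
      exact mem_of_eq (Ideal.mul_mem_mul a1 a2) (by ring)
    have := h1 hz
    rw [Submodule.mem_colon_singleton, smul_eq_mul] at this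
    convert this using 1
    ring

theorem Q_pow (ht0 : 1 ≤ t0) (t : ℕ) : Q t0 H g 1 ^ t = Q t0 H g t := by
  induction t with
  | zero =>
    rw [pow_zero, Ideal.one_eq_top, eq_comm, Ideal.eq_top_iff_one]
    have := mem_T (X 0) (W t0 H g 0) (0 * (2 * N t0 H)) 0 (by omega) _
      (mem_W t0 H g (Ideal.subset_span (Or.inl ⟨rfl, Un_zero 0⟩)))
    exact mem_of_eq this (by simp)
  | succ t ih => rw [pow_succ, ih, Q_succ ht0]

theorem Q_mon (t : ℕ) : ∃ s : Set (Fin (H + 1) →₀ ℕ),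
    Ideal.span ((fun e => monomial e (1 : ℚ)) '' s) = Q t0 H g t := by
  let A : Set (R H) := {f | ∃ j ≤ t * (2 * N t0 H), ∃ d ∈ Γ t0 H g t j,
    f = X 0 ^ (t * (2 * N t0 H) - j) * (u H ^ j * d)}
  have hA : ∀ f ∈ A, Mon f := by
    rintro f ⟨j, -, d, hd, rfl⟩
    exact (Mon_X_pow _ _).mul (((u_mon H).pow j).mul (Γ_mon _ _ _ _ _ d hd)).mon
  refine ⟨{e | monomial e (1 : ℚ) ∈ A}, ?_⟩
  rw [← span_mon A hA]
  apply le_antisymm
  · rw [Ideal.span_le]
    rintro f ⟨j, hj, d, hd, rfl⟩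
    exact mem_T _ _ _ j hj _ (mem_W t0 H g (Ideal.subset_span hd))
  · apply T_le
    intro j hj w hw
    obtain ⟨z, hz, rfl⟩ := Ideal.mem_span_singleton_mul.1 hw
    have h1 : Ideal.span (Γ t0 H g t j) ≤ (Ideal.span A).colon
        {X 0 ^ (t * (2 * N t0 H) - j) * u H ^ j} := by
      rw [Ideal.span_le]
      intro d hd
      rw [SetLike.mem_coe, Submodule.mem_colon_singleton, smul_eq_mul]
      exact Ideal.subset_span ⟨j, hj, d, hd, by ring⟩
    have := h1 hz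
    rw [Submodule.mem_colon_singleton, smul_eq_mul] at this
    convert this using 1
    ring

theorem pd_Γ (ht0 : 1 ≤ t0) (hg : ∀ t, t0 ≤ t → g t = g t0) {t j : ℕ} (hgt : 1 ≤ g t)
    (hj : j ≤ t * (2 * N t0 H)) :
    PDle (R H) (R H ⧸ Ideal.span (Γ t0 H g t j)) (g t) := by
  classical
  by_cases hU : Un t0 H t j
  · have : Ideal.span (Γ t0 H g t j) = ⊤ :=
      (Ideal.eq_top_iff_one _).2 (Ideal.subset_span (Or.inl ⟨rfl, hU⟩))
    rw [this]
    exact pd_top _
  let V : Finset (Fin H) := Finset.univ.filter fun i => Var t0 H g t j i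
  have hV : V.card ≤ g t := by
    rcases Var_bound ht0 hg hj hU with h | h
    · have := Finset.card_le_card_of_injOn (s := V) (t := Finset.range (g t)) (fun i => i.val)
        (fun i hi => by
          simp only [Finset.coe_range, Set.mem_Iio]
          exact h i (Finset.mem_filter.1 hi).2) (fun a _ b _ h => Fin.ext h)
      simpa using this
    · refine le_trans (Finset.card_le_one.2 fun a ha b hb => Fin.ext ?_) hgt
      exact h a b (Finset.mem_filter.1 ha).2 (Finset.mem_filter.1 hb).2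
  rcases V.eq_empty_or_nonempty with h0 | ⟨i0, hi0⟩
  · have : Γ t0 H g t j = {u H} := by
      ext f
      constructor
      · rintro (⟨-, h⟩ | ⟨i, -, h⟩ | rfl)
        · exact (hU h).elim
        · have : i ∈ V := Finset.mem_filter.2 ⟨Finset.mem_univ _, h⟩
          rw [h0] at this
          simp at this
        · rfl
      · rintro rfl
        exact Or.inr (Or.inr rfl)
    rw [this]
    exact pd_mono hgt (pd_principal _ (u_ne H))
  · have : Ideal.span (Γ t0 H g t j) =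
        Ideal.span (X '' ((V.map (Fin.succEmb H) : Finset (Fin (H + 1))) : Set (Fin (H + 1)))) := by
      have hX : ∀ i ∈ V, (X i.succ : R H) ∈ Ideal.span
          (X '' ((V.map (Fin.succEmb H) : Finset (Fin (H + 1))) : Set (Fin (H + 1)))) := by
        intro i hi
        exact Ideal.subset_span ⟨i.succ, Finset.mem_coe.2 (Finset.mem_map.2 ⟨i, hi, rfl⟩), rfl⟩
      apply le_antisymm
      · rw [Ideal.span_le]
        rintro f (⟨-, h⟩ | ⟨i, rfl, h⟩ | rfl)
        · exact (hU h).elim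
        · exact hX i (Finset.mem_filter.2 ⟨Finset.mem_univ _, h⟩)
        · obtain ⟨c, hc⟩ : (X i0.succ : R H) ∣ u H := Finset.dvd_prod_of_mem _ (Finset.mem_univ i0)
          rw [hc]
          exact Ideal.mul_mem_right _ _ (hX i0 hi0)
      · rw [Ideal.span_le]
        rintro f ⟨k, hk, rfl⟩
        obtain ⟨i, hi, rfl⟩ := Finset.mem_map.1 (Finset.mem_coe.1 hk)
        exact Ideal.subset_span (Or.inr (Or.inl ⟨i, rfl, (Finset.mem_filter.1 hi).2⟩))
    rw [this]
    refine pd_mono ?_ (pd_vars _)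
    rwa [Finset.card_map]

theorem pd_upper (ht0 : 1 ≤ t0) (hg : ∀ t, t0 ≤ t → g t = g t0) {t : ℕ} (hgt : 1 ≤ g t) :
    PDle (R H) (Q t0 H g t) (g t) := by
  rw [← pd_ideal_iff]
  refine pd_T (X 0) (X_ne_zero 0) _ _ _ (fun j _ => W_reg t0 H g t j)
    (fun j _ => W_anti t0 H g t j) (fun j hj => ?_)
  exact pd_mul _ (pow_ne_zero _ (u_ne H)) _ _ hgt (pd_Γ ht0 hg hgt hj)

theorem pd_lower (ht0 : 1 ≤ t0) (hg : ∀ t, t0 ≤ t → g t = g t0)
    (hH : ∀ s, 1 ≤ s → s ≤ t0 → g s ≤ H) {t : ℕ} (ht : 1 ≤ t) (hgt : 1 ≤ g t) (m : ℕ)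
    (hm : m < g t) : ¬ PDle (R H) (Q t0 H g t) m := by
  rw [← pd_ideal_iff]
  obtain ⟨j, hj1, hj2, hU, hle, hvar⟩ := critical ht0 hg hH ht
  let v : Fin (g t + 1) → Fin (H + 1) := Fin.castLE (by omega)
  refine not_pd (List.ofFn fun i => X (v i)) ?_ _ (X 0 ^ (t * (2 * N t0 H) - j) * u H ^ j) ?_ ?_
    _ (by simp; omega)
  · intro i h f hf
    rw [List.getElem_ofFn] at hf
    refine regX _ _ ?_ f hf
    intro r hr
    obtain ⟨k, hk, rfl⟩ := List.mem_take_iff_getElem.1 hr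
    rw [List.getElem_ofFn]
    apply MonAt_X
    intro he
    have := congrArg Fin.val he
    simp only [v, Fin.val_castLE] at this
    omega
  · intro h
    have h1 := of_mem_T (X 0) (X_ne_zero 0) _ _ j hj2 (fun j _ => W_reg t0 H g t j)
      (fun j _ => W_anti t0 H g t j) _ h
    obtain ⟨y, hy, z, hz, e⟩ := Submodule.mem_sup.1 h1
    obtain ⟨z, hz', rfl⟩ := Ideal.mem_span_singleton_mul.1 hz
    have hz0 : constantCoeff z = 0 := by
      have : Ideal.span (Γ t0 H g t j) ≤ RingHom.ker (constantCoeff (σ := Fin (H + 1)) (R := ℚ)) := by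
        rw [Ideal.span_le]
        rintro f (⟨-, h⟩ | ⟨i, rfl, h⟩ | rfl)
        · exact (hU h).elim
        · simp
        · have i0 : Fin H := ⟨0, by omega⟩
          obtain ⟨c, hc⟩ : (X i0.succ : R H) ∣ u H := Finset.dvd_prod_of_mem _ (Finset.mem_univ i0)
          rw [hc]
          simp
      exact this hz'
    have h2 : (X 0 : R H) ∣ u H ^ j * (1 - z) := by
      rw [Ideal.mem_span_singleton] at hy
      have : u H ^ j * (1 - z) = y := by rw [mul_sub, mul_one]; linear_combination -e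
      rwa [this]
    rcases X_prime.dvd_or_dvd h2 with h3 | h3
    · have h4 := X_prime.dvd_of_dvd_pow h3
      obtain ⟨i, -, hi⟩ := (Prime.dvd_finsetProd_iff X_prime _).1 h4
      exact Fin.succ_ne_zero i (X_dvd_X.1 hi).symm
    · obtain ⟨c, hc⟩ := h3
      have := congrArg constantCoeff hc
      simp [hz0] at this
  · intro r hr
    obtain ⟨i, rfl⟩ := (List.mem_ofFn' _ _).1 hr
    by_cases hi : i.val = 0
    · have hv : v i = 0 := Fin.ext (by simp [v, hi])
      obtain ⟨j, rfl⟩ : ∃ j', j = j' + 1 := ⟨j - 1, by omega⟩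
      have := mem_T (X 0) (W t0 H g t) (t * (2 * N t0 H)) j (by omega) _
        (mem_W t0 H g (u_mem t0 H g t j))
      have e : t * (2 * N t0 H) - j = (t * (2 * N t0 H) - (j + 1)) + 1 := by omega
      rw [e] at this
      simp only [hv]
      exact mem_of_eq this (by ring)
    · let k : Fin H := ⟨i.val - 1, by have := i.2; omega⟩
      have hv : v i = k.succ := Fin.ext (by simp [v, k]; omega)
      have hk : Var t0 H g t j k := hvar _ (by have := i.2; simp [k]; omega)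
      have := mem_T (X 0) (W t0 H g t) (t * (2 * N t0 H)) j hj2 _
        (mem_W t0 H g (Ideal.subset_span (Or.inr (Or.inl ⟨k, rfl, hk⟩))))
      simp only [hv]
      exact mem_of_eq this (by ring)

/-- the main theorem -/
theorem main (g : ℕ → ℕ) (N0 : ℕ) (hg : ∀ t, N0 ≤ t → g t = g N0) (hpos : ∀ t, 1 ≤ t → 1 ≤ g t) :
    ∃ (n : ℕ) (s : Set (Fin n →₀ ℕ)), ∀ t, 1 ≤ t → ∀ m : ℕ,
      (PDle (MvPolynomial (Fin n) ℚ)
        ↥((Ideal.span ((fun e => monomial e (1 : ℚ)) '' s)) ^ t) m ↔ g t ≤ m) := by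
  let t0 := N0 + 1
  let H := ∑ s ∈ Finset.range (t0 + 1), g s
  have ht0 : 1 ≤ t0 := by omega
  have hg' : ∀ t, t0 ≤ t → g t = g t0 := fun t ht => by
    rw [hg t (by omega), hg t0 (by omega)]
  have hH : ∀ s, 1 ≤ s → s ≤ t0 → g s ≤ H := fun s _ hs =>
    Finset.single_le_sum (f := g) (fun _ _ => Nat.zero_le _) (Finset.mem_range.2 (by omega))
  obtain ⟨s, hs⟩ := Q_mon (t0 := t0) (H := H) (g := g) 1
  refine ⟨H + 1, s, fun t ht m => ?_⟩
  rw [hs, Q_pow ht0]
  constructor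
  · intro h
    by_contra hc
    exact pd_lower ht0 hg' hH ht (hpos t ht) m (by omega) h
  · intro h
    exact pd_mono h (pd_upper ht0 hg' (hpos t ht))

end Pool.Agent.H353Z.PDMain
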