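import Pool.Agent.H353Z.PD

/-!
More homological lemmas: non-vanishing of Ext, the Mayer-Vietoris sequence, factorisations.
-/

set_option autoImplicit false

open CategoryTheory Abelian

namespace Pool.Agent.H353Z.SymA

open Pool.Agent.H353Z.PD

variable {S : Type} [CommRing S]

/-- the colon exact sequence with explicit maps -/
theorem colon_seq' (J K L : Ideal S) (f : S) (hK : ∀ g, g ∈ K ↔ f * g ∈ J)
    (hL : L = J ⊔ Ideal.span {f}) :
    ∃ (a : (S ⧸ K) →ₗ[S] (S ⧸ J)) (b : (S ⧸ J) →ₗ[S] (S ⧸ L)),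
      Function.Injective a ∧ Function.Surjective b ∧ Function.Exact a b ∧
      ∀ g, a (K.mkQ g) = J.mkQ (f * g) := by
  have hJL : J ≤ L := hL ▸ le_sup_left
  refine ⟨K.mapQ J (LinearMap.lsmul S S f) (fun g hg => by simpa using (hK g).1 hg),
    J.mapQ L LinearMap.id (fun g hg => by simpa using hJL hg), ?_, ?_, ?_, fun g => rfl⟩
  · rw [injective_iff_map_eq_zero]
    intro x hx
    obtain ⟨g, rfl⟩ := K.mkQ_surjective x
    simp only [Submodule.mkQ_apply, Submodule.mapQ_apply, LinearMap.lsmul_apply, smul_eq_mul,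
      Submodule.Quotient.mk_eq_zero] at hx ⊢
    exact (hK g).2 hx
  · intro x
    obtain ⟨g, rfl⟩ := L.mkQ_surjective x
    exact ⟨J.mkQ g, rfl⟩
  · intro x
    obtain ⟨g, rfl⟩ := J.mkQ_surjective x
    simp only [Submodule.mkQ_apply, Submodule.mapQ_apply, LinearMap.id_coe, id_eq,
      Submodule.Quotient.mk_eq_zero, Set.mem_range]
    constructor
    · intro hg
      rw [hL] at hg
      obtain ⟨y, hy, z, hz, rfl⟩ := Submodule.mem_sup.1 hg
      obtain ⟨c, rfl⟩ := Ideal.mem_span_singleton'.1 hz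
      refine ⟨K.mkQ c, ?_⟩
      simp only [Submodule.mkQ_apply, Submodule.mapQ_apply, LinearMap.lsmul_apply, smul_eq_mul]
      rw [Submodule.Quotient.eq]
      have : f * c - (y + c * f) = -y := by ring
      rw [this]
      exact J.neg_mem hy
    · rintro ⟨c, hc⟩
      obtain ⟨c, rfl⟩ := K.mkQ_surjective c
      simp only [Submodule.mkQ_apply, Submodule.mapQ_apply, LinearMap.lsmul_apply,
        smul_eq_mul] at hc
      rw [Submodule.Quotient.eq] at hc
      have : g = -(f * c - g) + c * f := by ring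
      rw [this, hL]
      exact Submodule.add_mem_sup (J.neg_mem hc) (Ideal.mem_span_singleton'.2 ⟨c, rfl⟩)

theorem pd_colon_right (J K L : Ideal S) (f : S) (hK : ∀ g, g ∈ K ↔ f * g ∈ J)
    (hL : L = J ⊔ Ideal.span {f}) (n : ℕ) (h1 : PDle S (S ⧸ K) n)
    (h2 : PDle S (S ⧸ J) (n + 1)) : PDle S (S ⧸ L) (n + 1) := by
  obtain ⟨a, b, ha, hb, hab⟩ := colon_seq J K L f hK hL
  exact pd_right a b ha hb hab n h1 h2

section fac
variable {A B B' C : Type} [AddCommGroup A] [Module S A] [AddCommGroup B] [Module S B]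
  [AddCommGroup B'] [Module S B'] [AddCommGroup C] [Module S C]

theorem pd_of_factor (a : A →ₗ[S] B) (q : B →ₗ[S] B') (a' : A →ₗ[S] B') (b : B' →ₗ[S] C)
    (hq : a' = q.comp a) (hf : Function.Injective a')
    (hg : Function.Surjective b) (h : Function.Exact a' b) (n : ℕ) (hB : PDle S B n)
    (hC : PDle S C (n + 1)) : PDle S A n := by
  have hS := ses a' b hf hg h
  refine HasProjectiveDimensionLT.mk fun i hi Y x => ?_
  have hC' : HasProjectiveDimensionLT (ModuleCat.of S C) (n + 1 + 1) := hC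
  have hB' : HasProjectiveDimensionLT (ModuleCat.of S B) (n + 1) := hB
  obtain ⟨x₂, hx⟩ := Ext.contravariant_sequence_exact₁ hS Y x (add_comm 1 i)
    (Ext.eq_zero_of_hasProjectiveDimensionLT (X := ModuleCat.of S C) _ (n + 1 + 1) (by omega))
  have e : (ModuleCat.shortComplexOfCompEqZero a' b h.linearMap_comp_eq_zero).f =
      ModuleCat.ofHom a ≫ ModuleCat.ofHom q := by
    subst hq; rfl
  rw [← hx, e, ← Ext.mk₀_comp_mk₀_assoc,
    Ext.eq_zero_of_hasProjectiveDimensionLT (X := ModuleCat.of S B)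
      ((Ext.mk₀ (ModuleCat.ofHom q)).comp x₂ (zero_add i)) (n + 1) hi, Ext.comp_zero]

/-- non-vanishing of `Ext` -/
def NZ (N : ModuleCat.{0} S) (M : Type) [AddCommGroup M] [Module S M] (n : ℕ) : Prop :=
  ∃ x : Ext (ModuleCat.of S M) N n, x ≠ 0

theorem NZ.not_pd {N : ModuleCat.{0} S} {n : ℕ} (h : NZ N A (n + 1)) : ¬ PDle S A n := by
  intro hA
  obtain ⟨x, hx⟩ := h
  have hA' : HasProjectiveDimensionLT (ModuleCat.of S A) (n + 1) := hA
  exact hx (Ext.eq_zero_of_hasProjectiveDimensionLT x (n + 1) le_rfl)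

theorem NZ_left {N : ModuleCat.{0} S} (f : A →ₗ[S] B) (g : B →ₗ[S] C) (hf : Function.Injective f)
    (hg : Function.Surjective g) (h : Function.Exact f g) (n : ℕ) (hB : PDle S B n)
    (hC : NZ N C (n + 1)) : NZ N A n := by
  have hS := ses f g hf hg h
  obtain ⟨x, hx⟩ := hC
  have hB' : HasProjectiveDimensionLT (ModuleCat.of S B) (n + 1) := hB
  obtain ⟨x₁, h1⟩ := Ext.contravariant_sequence_exact₃ hS N x
    (Ext.eq_zero_of_hasProjectiveDimensionLT (X := ModuleCat.of S B) _ (n + 1) le_rfl)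
    (add_comm 1 n)
  refine ⟨x₁, fun h0 => hx ?_⟩
  rw [← h1, h0, Ext.comp_zero]

theorem pd_prod (n : ℕ) (hA : PDle S A n) (hB : PDle S B n) : PDle S (A × B) n :=
  pd_mid (LinearMap.inl S A B) (LinearMap.snd S A B) LinearMap.inl_injective
    LinearMap.snd_surjective Function.Exact.inl_snd n hA hB

end fac

theorem NZ_reg {N : ModuleCat.{0} S} (J L : Ideal S) (f : S) (hf : f ∈ Module.annihilator S N)
    (hK : ∀ g, f * g ∈ J → g ∈ J) (hL : L = J ⊔ Ideal.span {f}) (n : ℕ)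
    (h : NZ N (S ⧸ J) n) : NZ N (S ⧸ L) (n + 1) := by
  obtain ⟨a, b, ha, hb, hab, hval⟩ := colon_seq' J J L f
    (fun g => ⟨fun hg => J.mul_mem_left f hg, hK g⟩) hL
  have hS := ses a b ha hb hab
  obtain ⟨x, hx⟩ := h
  refine ⟨hS.extClass.comp x (add_comm 1 n), fun h0 => hx ?_⟩
  obtain ⟨x₂, h2⟩ := Ext.contravariant_sequence_exact₁ hS N x (add_comm 1 n) h0
  have e : (ModuleCat.shortComplexOfCompEqZero a b hab.linearMap_comp_eq_zero).f =
      f • 𝟙 (ModuleCat.of S (S ⧸ J)) := by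
    ext
    have := hval 1
    simp only [Submodule.mkQ_apply, mul_one] at this
    change a (Submodule.Quotient.mk 1) = f • (Submodule.Quotient.mk 1 : S ⧸ J)
    rw [this, ← Submodule.Quotient.mk_smul, smul_eq_mul, mul_one]
  have e2 : f • 𝟙 N = 0 := by
    simp [← ModuleCat.lsmul_eq_smul_id, Module.mem_annihilator_iff_lsmul_eq_zero.mp hf]
  rw [← h2, e, Ext.mk₀_smul, Ext.smul_comp, Ext.mk₀_id_comp, Ext.smul_eq_comp_mk₀, e2,
    Ext.mk₀_zero, Ext.comp_zero]

theorem NZ_bot (m : Ideal S) (hm : m ≠ ⊤) :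
    NZ (ModuleCat.of S (S ⧸ m)) (S ⧸ (⊥ : Ideal S)) 0 := by
  refine ⟨Ext.mk₀ (ModuleCat.ofHom ((⊥ : Ideal S).mapQ m LinearMap.id bot_le)), fun h => hm ?_⟩
  rw [← Ext.mk₀_zero] at h
  have h2 := (Ext.mk₀_bijective _ _).1 h
  have h3 := congrArg (fun φ => φ.hom (Submodule.Quotient.mk 1)) h2
  simp only [ModuleCat.hom_ofHom, Submodule.mapQ_apply, LinearMap.id_coe, id_eq,
    ModuleCat.hom_zero, LinearMap.zero_apply, Submodule.Quotient.mk_eq_zero] at h3
  exact (Ideal.eq_top_iff_one m).2 h3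

/-- the Mayer-Vietoris sequence -/
theorem mv_seq (A B C D : Ideal S) (hC : C = A ⊓ B) (hD : D = A ⊔ B) :
    ∃ (a : (S ⧸ C) →ₗ[S] ((S ⧸ A) × (S ⧸ B))) (b : ((S ⧸ A) × (S ⧸ B)) →ₗ[S] (S ⧸ D)),
      Function.Injective a ∧ Function.Surjective b ∧ Function.Exact a b := by
  have h1 : C ≤ A := hC ▸ inf_le_left
  have h2 : C ≤ B := hC ▸ inf_le_right
  have h3 : A ≤ D := hD ▸ le_sup_left
  have h4 : B ≤ D := hD ▸ le_sup_right
  refine ⟨LinearMap.prod (C.mapQ A LinearMap.id h1) (C.mapQ B LinearMap.id h2),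
    LinearMap.coprod (A.mapQ D LinearMap.id h3) (-(B.mapQ D LinearMap.id h4)), ?_, ?_, ?_⟩
  · rw [injective_iff_map_eq_zero]
    intro x hx
    obtain ⟨g, rfl⟩ := C.mkQ_surjective x
    simp only [Submodule.mkQ_apply, LinearMap.prod_apply, Function.prod, Submodule.mapQ_apply,
      LinearMap.id_coe, id_eq, Prod.mk_eq_zero, Submodule.Quotient.mk_eq_zero] at hx ⊢
    rw [hC]
    exact hx
  · intro x
    obtain ⟨g, rfl⟩ := D.mkQ_surjective x
    exact ⟨(A.mkQ g, 0), by simp⟩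
  · rintro ⟨x, y⟩
    obtain ⟨g, rfl⟩ := A.mkQ_surjective x
    obtain ⟨g', rfl⟩ := B.mkQ_surjective y
    simp only [Submodule.mkQ_apply, LinearMap.coprod_apply, Submodule.mapQ_apply,
      LinearMap.id_coe, id_eq, LinearMap.neg_apply, Set.mem_range]
    rw [← sub_eq_add_neg, sub_eq_zero, Submodule.Quotient.eq]
    constructor
    · intro hg
      rw [hD] at hg
      obtain ⟨y, hy, z, hz, e⟩ := Submodule.mem_sup.1 hg
      refine ⟨C.mkQ (g - y), ?_⟩
      simp only [Submodule.mkQ_apply, LinearMap.prod_apply, Function.prod, Submodule.mapQ_apply,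
        LinearMap.id_coe, id_eq, Prod.mk.injEq]
      constructor
      · rw [Submodule.Quotient.eq]
        simpa using hy
      · rw [Submodule.Quotient.eq]
        have : g - y - g' = z := by linear_combination -e
        rwa [this]
    · rintro ⟨c, hc⟩
      obtain ⟨c, rfl⟩ := C.mkQ_surjective c
      simp only [Submodule.mkQ_apply, LinearMap.prod_apply, Function.prod, Submodule.mapQ_apply,
        LinearMap.id_coe, id_eq, Prod.mk.injEq, Submodule.Quotient.eq] at hc
      have : g - g' = -(c - g) + (c - g') := by ring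
      rw [this]
      exact D.add_mem (D.neg_mem (h3 hc.1)) (h4 hc.2)

end Pool.Agent.H353Z.SymA
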