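import Mathlib

/-!
Two-variable exponent sets with prescribed holes in their sumsets.
-/

set_option autoImplicit false

namespace Pool.Agent.H353Z.SymB

/-- exponents of the `t`-th power of the monomial ideal with exponent set `A` -/
def pw (A : Set (ℕ × ℕ)) : ℕ → Set (ℕ × ℕ)
  | 0 => Set.univ
  | t + 1 => {p | ∃ a ∈ pw A t, ∃ b ∈ A, p = a + b}

/-- `n`-fold sumset -/
def sm (B : Set ℕ) : ℕ → Set ℕ
  | 0 => {0}
  | n + 1 => {σ | ∃ a ∈ sm B n, ∃ b ∈ B, σ = a + b}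

theorem pw_add (A : Set (ℕ × ℕ)) (t : ℕ) (p q : ℕ × ℕ) (hp : p ∈ pw A t) : p + q ∈ pw A t := by
  induction t generalizing p with
  | zero => trivial
  | succ t ih =>
    obtain ⟨a, ha, b, hb, rfl⟩ := hp
    exact ⟨a + q, ih a ha, b, hb, by ring⟩

theorem pw_up (A : Set (ℕ × ℕ)) (t : ℕ) {p q : ℕ × ℕ} (hp : p ∈ pw A t) (h1 : p.1 ≤ q.1)
    (h2 : p.2 ≤ q.2) : q ∈ pw A t := by
  have := pw_add A t p (q.1 - p.1, q.2 - p.2) hp
  convert this using 1
  ext <;> simp <;> omega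

theorem pw_mono {A A' : Set (ℕ × ℕ)} (h : A ⊆ A') (t : ℕ) : pw A t ⊆ pw A' t := by
  induction t with
  | zero => exact le_rfl
  | succ t ih =>
    rintro p ⟨a, ha, b, hb, rfl⟩
    exact ⟨a, ih ha, b, h hb, rfl⟩

theorem pw_nsmul (A : Set (ℕ × ℕ)) (t : ℕ) (b : ℕ × ℕ) (hb : b ∈ A) :
    (t * b.1, t * b.2) ∈ pw A t := by
  induction t with
  | zero => trivial
  | succ t ih => exact ⟨_, ih, b, hb, by ext <;> simp <;> ring⟩

/-- the data of one row -/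
structure Row where
  B : Set ℕ
  K : Set ℕ
  α : ℕ
  d : ℕ
  γ : ℕ
  hα : α ∈ B
  hd : d ∈ B
  hB : ∀ θ ∈ B, α ≤ θ ∧ θ ≤ d ∧ θ % 4 = 0
  hγ : α < γ ∧ γ < d ∧ γ % 4 = 2
  hK : ∀ κ ∈ K, α ≤ κ ∧ κ ≤ d ∧ κ % 4 = 2

namespace Row

variable (r : Row)

def E' : Set (ℕ × ℕ) :=
  {p | (p.2 ≤ r.α ∧ r.d + r.α ≤ p.1 + 2 * p.2) ∨ (p.2 ∈ r.B ∧ r.d ≤ p.1 + p.2) ∨
    (r.α ≤ p.2 ∧ r.d + 1 ≤ p.1 + p.2 ∧ (p.2 % 4 ≠ 2 ∨ p.2 ∈ r.K)) ∨
    (r.α ≤ p.2 ∧ r.d + 2 ≤ p.1 + p.2)}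

/-- the special point -/
def sp : ℕ × ℕ := (r.d + 1 - r.γ, r.γ)

def E : Set (ℕ × ℕ) := {p | p ∈ r.E' ∨ p = r.sp}

def Hol (n θ : ℕ) : Prop :=
  (∃ σ ∈ sm r.B n, θ = r.γ + σ) ∧ ¬ ∃ κ ∈ r.K, ∃ σ ∈ sm r.B n, θ = κ + σ

theorem E'_sub : r.E' ⊆ r.E := fun _ h => Or.inl h

theorem E'_up {p q : ℕ × ℕ} (hp : p ∈ r.E') (h1 : p.1 ≤ q.1) (h2 : p.2 ≤ q.2) : q ∈ r.E' := by
  have hα := r.hB _ r.hα
  have hd := r.hB _ r.hd
  rcases eq_or_lt_of_le h2 with e | e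
  · rcases hp with h | h | h | h
    · left; omega
    · right; left; rw [← e]; exact ⟨h.1, by omega⟩
    · right; right; left; rw [← e]; exact ⟨h.1, by omega, h.2.2⟩
    · right; right; right; omega
  · rcases hp with h | h | h | h
    · by_cases h3 : q.2 ≤ r.α
      · left; omega
      · by_cases h4 : q.2 = r.α + 1
        · right; right; left; exact ⟨by omega, by omega, Or.inl (by omega)⟩
        · right; right; right; omega
    · have := r.hB _ h.1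
      by_cases h4 : q.2 = p.2 + 1
      · right; right; left; exact ⟨by omega, by omega, Or.inl (by omega)⟩
      · right; right; right; omega
    · right; right; right; omega
    · right; right; right; omega

theorem sp_add {q : ℕ × ℕ} (hq : q ≠ 0) : r.sp + q ∈ r.E' := by
  have := r.hγ
  have hq' : 1 ≤ q.1 + q.2 := by
    by_contra hc
    apply hq
    ext <;> simp <;> omega
  right; right; right
  simp only [sp, Prod.snd_add, Prod.fst_add]
  omega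

theorem E_up {p q : ℕ × ℕ} (hp : p ∈ r.E) (h1 : p.1 ≤ q.1) (h2 : p.2 ≤ q.2) : q ∈ r.E := by
  rcases hp with h | rfl
  · exact Or.inl (r.E'_up h h1 h2)
  · by_cases e : q = r.sp
    · exact Or.inr e
    · left
      have : q = r.sp + (q.1 - r.sp.1, q.2 - r.sp.2) := by ext <;> simp <;> omega
      rw [this]
      apply r.sp_add
      intro h0
      apply e
      rw [this, h0, add_zero]

theorem zero_notMem : (0 : ℕ × ℕ) ∉ r.E := by
  have := r.hγ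
  rintro ((h | h | h | h) | h)
  · simp at h; omega
  · simp at h; omega
  · simp at h
  · simp at h
  · have := congrArg Prod.snd h
    simp [sp] at this
    omega

theorem pure_y : (r.d + r.α, 0) ∈ r.E' := Or.inl ⟨by simp, by simp⟩

theorem pure_z : (0, r.d) ∈ r.E' := Or.inr (Or.inl ⟨r.hd, by simp⟩)

theorem sm_bound {n σ : ℕ} (h : σ ∈ sm r.B n) : σ ≤ n * r.d ∧ σ % 4 = 0 := by
  induction n generalizing σ with
  | zero =>
    obtain rfl : σ = 0 := h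
    simp
  | succ n ih =>
    obtain ⟨a, ha, b, hb, rfl⟩ := h
    have := ih ha
    have := r.hB b hb
    constructor
    · nlinarith
    · omega

theorem exact_mem {n σ : ℕ} (h : σ ∈ sm r.B n) : (n * r.d - σ, σ) ∈ pw r.E' n := by
  induction n generalizing σ with
  | zero => trivial
  | succ n ih =>
    obtain ⟨a, ha, b, hb, rfl⟩ := h
    have h1 := r.sm_bound ha
    have h2 := r.hB b hb
    refine ⟨_, ih ha, (r.d - b, b), Or.inr (Or.inl ⟨hb, by simp; omega⟩), ?_⟩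
    have : (n + 1) * r.d = n * r.d + r.d := by ring
    ext
    · simp; omega
    · simp

theorem sp_sp : ∃ g1 ∈ r.E', ∃ g2 ∈ r.E', r.sp + r.sp = g1 + g2 := by
  have := r.hγ
  refine ⟨(r.d + 2 - r.γ, r.γ - 1), ?_, (r.d - r.γ, r.γ + 1), ?_, ?_⟩
  · right; right; left; simp only; omega
  · right; right; left; simp only; omega
  · ext <;> simp [sp] <;> omega

theorem sp_g {g : ℕ × ℕ} (hg : g ∈ r.E') (hne : ¬ (g.2 ∈ r.B ∧ g.1 + g.2 = r.d)) :
    ∃ g1 ∈ r.E', ∃ g2 ∈ r.E', r.sp + g = g1 + g2 := by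
  have hγ := r.hγ
  have hα := r.hB _ r.hα
  have hd := r.hB _ r.hd
  have big : r.α ≤ g.2 → r.d + 1 ≤ g.1 + g.2 → ∃ g1 ∈ r.E', ∃ g2 ∈ r.E', r.sp + g = g1 + g2 := by
    intro h1 h2
    by_cases h3 : r.d - r.α ≤ r.d + 1 - r.γ + g.1
    · refine ⟨(r.d - r.α, r.α), Or.inr (Or.inl ⟨r.hα, by simp only; omega⟩),
        (r.d + 1 - r.γ + g.1 - (r.d - r.α), r.γ + g.2 - r.α), ?_, ?_⟩
      · right; right; right; simp only; omega
      · ext <;> simp [sp] <;> omega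
    · refine ⟨(0, r.d), r.pure_z, (r.d + 1 - r.γ + g.1, r.γ + g.2 - r.d), ?_, ?_⟩
      · right; right; right; simp only; omega
      · ext <;> simp [sp] <;> omega
  rcases hg with h | h | h | h
  · by_cases h3 : g.2 < r.α
    · refine ⟨(r.d + 2 - r.γ, r.γ - 1), ?_, (g.1 - 1, g.2 + 1), ?_, ?_⟩
      · right; right; left; simp only; omega
      · left; simp only; omega
      · ext <;> simp [sp] <;> omega
    · have e : g.2 = r.α := by omega
      apply big (by omega)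
      by_contra hc
      exact hne ⟨e ▸ r.hα, by omega⟩
  · apply big (r.hB _ h.1).1
    by_contra hc
    exact hne ⟨h.1, by omega⟩
  · exact big h.1 h.2.1
  · exact big h.1 (by omega)

theorem claimD {t : ℕ} {a : ℕ × ℕ} (ha : a ∈ pw r.E' t) :
    a + r.sp ∈ pw r.E' (t + 1) ∨ ∃ σ ∈ sm r.B t, a = (t * r.d - σ, σ) := by
  induction t generalizing a with
  | zero =>
    by_cases h : a = 0
    · exact Or.inr ⟨0, rfl, by rw [h]; simp [Prod.ext_iff]⟩
    · exact Or.inl ⟨0, trivial, r.sp + a, r.sp_add h, by ring⟩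
  | succ t ih =>
    obtain ⟨a', ha', g, hg, rfl⟩ := ha
    by_cases hex : g.2 ∈ r.B ∧ g.1 + g.2 = r.d
    · rcases ih ha' with h | ⟨σ, hσ, rfl⟩
      · exact Or.inl ⟨_, h, g, hg, by ring⟩
      · refine Or.inr ⟨σ + g.2, ⟨σ, hσ, g.2, hex.1, rfl⟩, ?_⟩
        have h1 := r.sm_bound hσ
        have : (t + 1) * r.d = t * r.d + r.d := by ring
        ext
        · simp; omega
        · simp
    · obtain ⟨g1, h1, g2, h2, e⟩ := r.sp_g hg hex
      refine Or.inl ⟨a' + g1, ⟨a', ha', g1, h1, rfl⟩, g2, h2, ?_⟩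
      rw [add_assoc, add_assoc, ← e, add_comm g]

theorem claimC {t : ℕ} {p : ℕ × ℕ} (hp : p ∈ pw r.E (t + 1)) :
    p ∈ pw r.E' (t + 1) ∨ ∃ a ∈ pw r.E' t, p = a + r.sp := by
  induction t generalizing p with
  | zero =>
    obtain ⟨a, -, c, hc | rfl, rfl⟩ := hp
    · exact Or.inl ⟨a, trivial, c, hc, rfl⟩
    · exact Or.inr ⟨a, trivial, rfl⟩
  | succ t ih =>
    obtain ⟨a, ha, c, hc, rfl⟩ := hp
    rcases ih ha with h | ⟨a', ha', rfl⟩
    · rcases hc with hc | rfl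
      · exact Or.inl ⟨a, h, c, hc, rfl⟩
      · exact Or.inr ⟨a, h, rfl⟩
    · rcases hc with hc | rfl
      · exact Or.inr ⟨a' + c, ⟨a', ha', c, hc, rfl⟩, by ring⟩
      · obtain ⟨g1, h1, g2, h2, e⟩ := r.sp_sp
        refine Or.inl ⟨a' + g1, ⟨a', ha', g1, h1, rfl⟩, g2, h2, ?_⟩
        rw [add_assoc, add_assoc, e]

theorem H1 {t : ℕ} {p q : ℕ × ℕ} (hp : p ∈ pw r.E (t + 1)) (h1 : p.1 ≤ q.1) (h2 : p.2 ≤ q.2)
    (hne : p.1 < q.1 ∨ p.2 < q.2) : q ∈ pw r.E' (t + 1) := by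
  rcases r.claimC hp with h | ⟨a, ha, rfl⟩
  · exact pw_up _ _ h h1 h2
  · refine ⟨a, ha, r.sp + (q.1 - (a + r.sp).1, q.2 - (a + r.sp).2), r.sp_add ?_, ?_⟩
    · intro h0
      have e1 := congrArg Prod.fst h0
      have e2 := congrArg Prod.snd h0
      simp only [Prod.fst_zero, Prod.snd_zero] at e1 e2
      omega
    · simp only [Prod.fst_add, Prod.snd_add] at h1 h2
      ext <;> simp <;> omega

theorem H2 {t : ℕ} {p : ℕ × ℕ} (hp : p ∈ pw r.E (t + 1)) (hn : p ∉ pw r.E' (t + 1)) :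
    r.Hol t p.2 := by
  have hγ := r.hγ
  rcases r.claimC hp with h | ⟨a, ha, rfl⟩
  · exact (hn h).elim
  rcases r.claimD ha with h | ⟨σ, hσ, rfl⟩
  · exact (hn h).elim
  refine ⟨⟨σ, hσ, by simp [sp, add_comm]⟩, ?_⟩
  rintro ⟨κ, hκ, σ', hσ', e⟩
  apply hn
  have h1 := r.sm_bound hσ
  have h2 := r.sm_bound hσ'
  have h3 := r.hK κ hκ
  simp only [sp, Prod.snd_add] at e
  refine ⟨_, r.exact_mem hσ', (r.d + 1 - κ, κ), ?_, ?_⟩
  · right; right; left; exact ⟨h3.1, by simp only; omega, Or.inr hκ⟩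
  · ext <;> simp [sp] <;> omega

theorem layer1 {g : ℕ × ℕ} (hg : g ∈ r.E') :
    r.d ≤ g.1 + g.2 ∧ (g.1 + g.2 = r.d → g.2 ∈ r.B) ∧
      (g.1 + g.2 = r.d + 1 → g.2 % 4 = 2 → g.2 ∈ r.K) := by
  have hα := r.hB _ r.hα
  rcases hg with h | h | h | h
  · refine ⟨by omega, fun e => ?_, fun e e' => by omega⟩
    have : g.2 = r.α := by omega
    exact this ▸ r.hα
  · have := r.hB _ h.1
    exact ⟨h.2, fun _ => h.1, fun _ e' => by omega⟩
  · exact ⟨by omega, fun e => by omega, fun _ e' => h.2.2.resolve_left (by omega)⟩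
  · exact ⟨by omega, fun e => by omega, fun e => by omega⟩

theorem layer {t : ℕ} {p : ℕ × ℕ} (hp : p ∈ pw r.E' t) :
    t * r.d ≤ p.1 + p.2 ∧ (p.1 + p.2 = t * r.d → p.2 ∈ sm r.B t) ∧
      (p.1 + p.2 = t * r.d + 1 → p.2 % 4 = 2 →
        ∃ n, t = n + 1 ∧ ∃ κ ∈ r.K, ∃ σ ∈ sm r.B n, p.2 = κ + σ) := by
  induction t generalizing p with
  | zero =>
    refine ⟨by simp, fun e => ?_, fun e e' => by omega⟩
    have : p.2 = 0 := by omega
    exact this
  | succ t ih =>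
    obtain ⟨a, ha, g, hg, rfl⟩ := hp
    obtain ⟨a1, a2, a3⟩ := ih ha
    obtain ⟨g1, g2, g3⟩ := r.layer1 hg
    have e0 : (t + 1) * r.d = t * r.d + r.d := by ring
    simp only [Prod.fst_add, Prod.snd_add]
    refine ⟨by omega, fun e => ⟨a.2, a2 (by omega), g.2, g2 (by omega), rfl⟩, fun e e' => ?_⟩
    refine ⟨t, rfl, ?_⟩
    by_cases h : g.1 + g.2 = r.d
    · have hB := g2 h
      have := r.hB _ hB
      obtain ⟨n, rfl, κ, hκ, σ, hσ, e2⟩ := a3 (by omega) (by omega)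
      exact ⟨κ, hκ, σ + g.2, ⟨σ, hσ, g.2, hB, rfl⟩, by omega⟩
    · have hs := a2 (by omega)
      have := r.sm_bound hs
      exact ⟨g.2, g3 (by omega) (by omega), a.2, hs, by omega⟩

theorem H3 {t θ : ℕ} (h : r.Hol t θ) :
    ∃ b, (b, θ) ∈ pw r.E (t + 1) ∧ (b, θ) ∉ pw r.E' (t + 1) := by
  have hγ := r.hγ
  obtain ⟨⟨σ, hσ, rfl⟩, hn⟩ := h
  have h1 := r.sm_bound hσ
  refine ⟨t * r.d - σ + (r.d + 1 - r.γ), ⟨_, pw_mono r.E'_sub t (r.exact_mem hσ), r.sp, Or.inr rfl,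
    by ext <;> simp [sp, add_comm]⟩, fun hc => hn ?_⟩
  have e0 : (t + 1) * r.d = t * r.d + r.d := by ring
  obtain ⟨n, hn', h⟩ := (r.layer hc).2.2 (by simp only; omega) (by simp only; omega)
  obtain rfl : t = n := by omega
  exact h

end Row

end Pool.Agent.H353Z.SymB
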