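import Pool.Agent.H353Z.SymB
import Pool.Agent.H353Z.Comb

/-!
A finite family of rows whose holes coincide with a prescribed eventually periodic multiplicity.
-/

set_option autoImplicit false

namespace Pool.Agent.H353Z.SymC

open Pool.Agent.H353Z.SymB

structure Row0 where
  B : Set ℕ
  K : Set ℕ
  α : ℕ
  d : ℕ
  γ : ℕ
  hα : α ∈ B
  hd : d ∈ B
  hB : ∀ θ ∈ B, α ≤ θ ∧ θ ≤ d
  hγ : α ≤ γ ∧ γ < d
  hK : ∀ κ ∈ K, α ≤ κ ∧ κ < d

def Row0.Hol (r : Row0) (n θ : ℕ) : Prop :=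
  (∃ σ ∈ sm r.B n, θ = r.γ + σ) ∧ ¬ ∃ κ ∈ r.K, ∃ σ ∈ sm r.B n, θ = κ + σ

theorem lift_aux {w ρ a b : ℕ} (hρ : ρ < w) (h : a < b) : 4 * (w * a + ρ) + 2 < 4 * (w * b) := by
  have : w * (a + 1) ≤ w * b := Nat.mul_le_mul_left _ h
  have e : w * (a + 1) = w * a + w := by ring
  omega

def Row0.lift (r : Row0) (w ρ : ℕ) (hρ : ρ < w) : Row where
  B := (fun b => 4 * (w * b)) '' r.B
  K := (fun κ => 4 * (w * κ + ρ) + 2) '' r.K
  α := 4 * (w * r.α)
  d := 4 * (w * r.d)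
  γ := 4 * (w * r.γ + ρ) + 2
  hα := ⟨_, r.hα, rfl⟩
  hd := ⟨_, r.hd, rfl⟩
  hB := by
    rintro _ ⟨b, hb, rfl⟩
    have h := r.hB b hb
    have h1 := Nat.mul_le_mul_left w h.1
    have h2 := Nat.mul_le_mul_left w h.2
    simp only
    omega
  hγ := by
    have h1 := Nat.mul_le_mul_left w r.hγ.1
    have h2 := lift_aux hρ r.hγ.2
    omega
  hK := by
    rintro _ ⟨κ, hκ, rfl⟩
    have h := r.hK κ hκ
    have h1 := Nat.mul_le_mul_left w h.1
    have h2 := lift_aux hρ h.2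
    simp only
    omega

theorem sm_image (B : Set ℕ) (w n σ : ℕ) :
    σ ∈ sm ((fun b => 4 * (w * b)) '' B) n ↔ ∃ σ0 ∈ sm B n, σ = 4 * (w * σ0) := by
  induction n generalizing σ with
  | zero =>
    constructor
    · rintro rfl
      exact ⟨0, rfl, rfl⟩
    · rintro ⟨_, rfl, rfl⟩
      rfl
  | succ n ih =>
    constructor
    · rintro ⟨a, ha, _, ⟨b, hb, rfl⟩, rfl⟩
      obtain ⟨a0, ha0, rfl⟩ := (ih a).1 ha
      exact ⟨a0 + b, ⟨a0, ha0, b, hb, rfl⟩, by ring⟩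
    · rintro ⟨_, ⟨a, ha, b, hb, rfl⟩, rfl⟩
      exact ⟨_, (ih _).2 ⟨a, ha, rfl⟩, _, ⟨b, hb, rfl⟩, by ring⟩

theorem lift_Hol (r : Row0) (w ρ : ℕ) (hρ : ρ < w) (n θ : ℕ) :
    (r.lift w ρ hρ).Hol n θ ↔ ∃ θ0, θ = 4 * (w * θ0 + ρ) + 2 ∧ r.Hol n θ0 := by
  constructor
  · rintro ⟨⟨σ, hσ, rfl⟩, hn⟩
    obtain ⟨σ0, h0, rfl⟩ := (sm_image _ _ _ _).1 hσ
    refine ⟨r.γ + σ0, by simp only [Row0.lift]; ring, ⟨σ0, h0, rfl⟩, ?_⟩
    rintro ⟨κ, hκ, σ', hσ', e⟩
    refine hn ⟨_, ⟨κ, hκ, rfl⟩, _, (sm_image _ _ _ _).2 ⟨σ', hσ', rfl⟩, ?_⟩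
    have : w * (r.γ + σ0) = w * (κ + σ') := by rw [e]
    simp only [Row0.lift]
    nlinarith
  · rintro ⟨_, rfl, ⟨σ, hσ, rfl⟩, hn⟩
    refine ⟨⟨_, (sm_image _ _ _ _).2 ⟨σ, hσ, rfl⟩, by simp only [Row0.lift]; ring⟩, ?_⟩
    rintro ⟨_, ⟨κ, hκ, rfl⟩, σ', hσ', e⟩
    obtain ⟨σ0, h0, rfl⟩ := (sm_image _ _ _ _).1 hσ'
    refine hn ⟨κ, hκ, σ0, h0, ?_⟩
    have : w * (r.γ + σ) = w * (κ + σ0) := by
      simp only at e
      nlinarith
    exact Nat.eq_of_mul_eq_mul_left (by omega) this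

/-! ### rows for one level -/

def finRow (n0 β γ : ℕ) (act : Prop) : Row0 where
  B := {0, 1, β, (γ + 1) + n0 * β + β + 3, (γ + 1) + n0 * β + β + 4}
  K := {κ | κ = γ ∨ κ = γ + 2 ∨ (¬ act ∧ κ = γ + 1)}
  α := 0
  d := (γ + 1) + n0 * β + β + 4
  γ := γ + 1
  hα := by simp
  hd := by simp
  hB := by
    rintro θ (rfl | rfl | rfl | rfl | rfl) <;> omega
  hγ := by omega
  hK := by
    rintro κ (rfl | rfl | ⟨-, rfl⟩) <;> omega

theorem finRow_sm (n0 β γ : ℕ) (act : Prop) {n σ : ℕ} (h : σ ∈ sm (finRow n0 β γ act).B n) :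
    σ = n * β ∨ ∃ κ ∈ (finRow n0 β γ act).K, ∃ σ' ∈ sm (finRow n0 β γ act).B n,
      γ + 1 + σ = κ + σ' := by
  induction n generalizing σ with
  | zero => left; simpa [sm] using h
  | succ n ih =>
    obtain ⟨a, ha, b, hb, rfl⟩ := h
    rcases hb with rfl | rfl | rfl | rfl | rfl
    · exact Or.inr ⟨γ, Or.inl rfl, a + 1, ⟨a, ha, 1, by simp [finRow], rfl⟩, by ring⟩
    · exact Or.inr ⟨γ + 2, Or.inr (Or.inl rfl), a + 0, ⟨a, ha, 0, by simp [finRow], rfl⟩, by ring⟩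
    · rcases ih ha with rfl | ⟨κ, hκ, σ', hσ', e⟩
      · left; ring
      · exact Or.inr ⟨κ, hκ, σ' + b, ⟨σ', hσ', b, by simp [finRow], rfl⟩, by omega⟩
    · exact Or.inr ⟨γ, Or.inl rfl, a + ((γ + 1) + n0 * β + β + 4),
        ⟨a, ha, _, by simp [finRow], rfl⟩, by ring⟩
    · exact Or.inr ⟨γ + 2, Or.inr (Or.inl rfl), a + ((γ + 1) + n0 * β + β + 3),
        ⟨a, ha, _, by simp [finRow], rfl⟩, by ring⟩

theorem finRow_Hol (n0 β γ : ℕ) (act : Prop) {n θ : ℕ} (h : (finRow n0 β γ act).Hol n θ) :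
    act ∧ θ = γ + 1 + n * β := by
  obtain ⟨⟨σ, hσ, rfl⟩, hn⟩ := h
  refine ⟨?_, ?_⟩
  · by_contra hc
    exact hn ⟨γ + 1, Or.inr (Or.inr ⟨hc, rfl⟩), σ, hσ, rfl⟩
  · rcases finRow_sm n0 β γ act hσ with rfl | h
    · rfl
    · exact (hn h).elim

theorem finRow_small (n0 β γ : ℕ) (act : Prop) {n σ : ℕ} (h : σ ∈ sm (finRow n0 β γ act).B n)
    (hs : σ < (γ + 1) + n0 * β + β + 3) : ∃ a a1, a + a1 ≤ n ∧ σ = a * β + a1 := by
  induction n generalizing σ with
  | zero => exact ⟨0, 0, le_rfl, by simpa [sm] using h⟩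
  | succ n ih =>
    obtain ⟨s, hs', b, hb, rfl⟩ := h
    obtain ⟨a, a1, h1, rfl⟩ := ih hs' (by omega)
    rcases hb with rfl | rfl | rfl | rfl | rfl
    · exact ⟨a, a1, by omega, rfl⟩
    · exact ⟨a, a1 + 1, by omega, by ring⟩
    · exact ⟨a + 1, a1, by omega, by ring⟩
    · omega
    · omega

theorem sm_mul (B : Set ℕ) {β : ℕ} (hβ : β ∈ B) (n : ℕ) : n * β ∈ sm B n := by
  induction n with
  | zero => simp [sm]
  | succ n ih => exact ⟨_, ih, β, hβ, by ring⟩

theorem finRow_hole (n0 β γ : ℕ) (act : Prop) (hact : act) (hβ : n0 + 2 ≤ β) :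
    (finRow n0 β γ act).Hol n0 (γ + 1 + n0 * β) := by
  refine ⟨⟨n0 * β, sm_mul _ (by simp [finRow]) n0, rfl⟩, ?_⟩
  rintro ⟨κ, hκ, σ, hσ, e⟩
  have hk : κ = γ ∨ κ = γ + 2 := by
    rcases hκ with h | h | ⟨h, -⟩
    · exact Or.inl h
    · exact Or.inr h
    · exact (h hact).elim
  obtain ⟨a, a1, h1, rfl⟩ := finRow_small n0 β γ act hσ (by omega)
  rcases Nat.eq_or_lt_of_le (show a ≤ n0 by omega) with rfl | h2
  · omega
  · have : (a + 1) * β ≤ n0 * β := Nat.mul_le_mul_right _ h2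
    have e2 : (a + 1) * β = a * β + β := by ring
    omega

/-! ### periodic rows -/

def perRow (i M L γ : ℕ) (act : Prop) (h1 : M ≤ L) (h2 : i ≤ γ) (h3 : γ < i + L) : Row0 where
  B := {i, i + M, i + L}
  K := {κ | ¬ act ∧ κ = γ}
  α := i
  d := i + L
  γ := γ
  hα := by simp
  hd := by simp
  hB := by
    rintro θ (rfl | rfl | rfl) <;> omega
  hγ := ⟨h2, h3⟩
  hK := by
    rintro κ ⟨-, rfl⟩
    exact ⟨h2, h3⟩

theorem per_sm (i M L n σ : ℕ) : σ ∈ sm ({i, i + M, i + L} : Set ℕ) n ↔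
    ∃ a b, a + b ≤ n ∧ σ = n * i + a * M + b * L := by
  induction n generalizing σ with
  | zero =>
    constructor
    · rintro rfl
      exact ⟨0, 0, le_rfl, by simp⟩
    · rintro ⟨a, b, h, rfl⟩
      obtain rfl : a = 0 := by omega
      obtain rfl : b = 0 := by omega
      simp [sm]
  | succ n ih =>
    constructor
    · rintro ⟨s, hs, c, hc, rfl⟩
      obtain ⟨a, b, h, rfl⟩ := (ih s).1 hs
      rcases hc with rfl | rfl | rfl
      · exact ⟨a, b, by omega, by ring⟩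
      · exact ⟨a + 1, b, by omega, by ring⟩
      · exact ⟨a, b + 1, by omega, by ring⟩
    · rintro ⟨a, b, h, rfl⟩
      by_cases h1 : a + b ≤ n
      · exact ⟨_, (ih _).2 ⟨a, b, h1, rfl⟩, i, by simp, by ring⟩
      · rcases a with _ | a
        · rcases b with _ | b
          · omega
          · exact ⟨_, (ih _).2 ⟨0, b, by omega, rfl⟩, i + L, by simp, by ring⟩
        · exact ⟨_, (ih _).2 ⟨a, b, by omega, rfl⟩, i + M, by simp, by ring⟩

theorem perRow_Hol (i M L γ : ℕ) (act : Prop) (h1 : M ≤ L) (h2 : i ≤ γ) (h3 : γ < i + L)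
    (n θ : ℕ) : (perRow i M L γ act h1 h2 h3).Hol n θ ↔
      act ∧ ∃ a b, a + b ≤ n ∧ θ = γ + n * i + a * M + b * L := by
  constructor
  · rintro ⟨⟨σ, hσ, rfl⟩, hn⟩
    refine ⟨by_contra fun hc => hn ⟨γ, ⟨hc, rfl⟩, σ, hσ, rfl⟩, ?_⟩
    obtain ⟨a, b, h, rfl⟩ := (per_sm i M L n σ).1 hσ
    exact ⟨a, b, h, by simp only [perRow]; ring⟩
  · rintro ⟨hact, a, b, h, rfl⟩
    refine ⟨⟨_, (per_sm i M L n _).2 ⟨a, b, h, rfl⟩, by simp only [perRow]; ring⟩, ?_⟩
    rintro ⟨κ, ⟨hc, -⟩, -⟩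
    exact hc hact

section design
variable (p N H : ℕ)

def MM : ℕ := p * H.factorial
def GG : ℕ := H + N * H + N + 1
def ll : ℕ := (H + 2) * GG N H
def γp (ρ i : ℕ) : ℕ := ρ * (H - i) + (i + 1) * GG N H * MM p H

variable {p N H}

theorem MM_pos (hp : 0 < p) : 0 < MM p H := Nat.mul_pos hp H.factorial_pos

theorem GG_pos : 0 < GG N H := by unfold GG; omega

theorem ll_ge : 2 * H + 2 ≤ ll N H ∧ N ≤ ll N H := by
  unfold ll GG
  constructor <;> nlinarith [Nat.zero_le (N * H), Nat.zero_le (H * (N * H))]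

theorem pos_bound (hp : 0 < p) {ρ i n a : ℕ} (hρ : ρ < MM p H) (hi : i < H) (hn : n ≤ N)
    (ha : a ≤ n) : ρ * (H - i) + n * i + a * MM p H < GG N H * MM p H := by
  have hM := MM_pos (H := H) hp
  have h1 : ρ * (H - i) ≤ MM p H * H := Nat.mul_le_mul hρ.le (by omega)
  have h2 : n * i ≤ N * H * MM p H :=
    le_trans (Nat.mul_le_mul hn hi.le) (Nat.le_mul_of_pos_right _ hM)
  have h3 : a * MM p H ≤ N * MM p H := Nat.mul_le_mul_right _ (by omega)
  have e : GG N H * MM p H = MM p H * H + N * H * MM p H + N * MM p H + MM p H := by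
    unfold GG; ring
  omega

theorem γp_ge (hp : 0 < p) (ρ i : ℕ) : i ≤ γp p N H ρ i := by
  have h1 := MM_pos (H := H) hp
  have h2 := GG_pos (N := N) (H := H)
  have : (i + 1) * 1 ≤ (i + 1) * (GG N H * MM p H) :=
    Nat.mul_le_mul_left _ (Nat.mul_pos h2 h1)
  unfold γp
  rw [mul_assoc]
  omega

theorem γp_lt (hp : 0 < p) {ρ i : ℕ} (hρ : ρ < MM p H) (hi : i < H) :
    γp p N H ρ i < i + ll N H * MM p H := by
  have h1 := pos_bound (N := N) (n := 0) (a := 0) hp hρ hi (by omega) le_rfl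
  have h2 : (i + 2) * (GG N H * MM p H) ≤ (H + 2) * (GG N H * MM p H) :=
    Nat.mul_le_mul_right _ (by omega)
  unfold γp ll
  nlinarith

theorem per_pair (hp : 0 < p) {ρ i i' n a b a' b' : ℕ} (hρ : ρ < MM p H) (hi' : i' < H)
    (hlt : i < i') (hab : a + b ≤ n) (hab' : a' + b' ≤ n)
    (e : γp p N H ρ i + n * i + a * MM p H + b * (ll N H * MM p H) =
      γp p N H ρ i' + n * i' + a' * MM p H + b' * (ll N H * MM p H)) :
    N < n ∧ n % p = ρ % p := by
  have hM := MM_pos (H := H) hp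
  constructor
  · by_contra hc
    have h1 := pos_bound (N := N) (n := n) (a := a) hp hρ (lt_trans hlt hi') (by omega) (by omega)
    have h2 := pos_bound (N := N) (n := n) (a := a') hp hρ hi' (by omega) (by omega)
    set X := GG N H * MM p H with hX
    have hL : ll N H * MM p H = X * (H + 2) := by unfold ll; rw [hX]; ring
    have e2 : X * ((H + 2) * b + (i + 1)) + (ρ * (H - i) + n * i + a * MM p H) =
        X * ((H + 2) * b' + (i' + 1)) + (ρ * (H - i') + n * i' + a' * MM p H) := by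
      unfold γp at e
      rw [hL, mul_assoc (i + 1), mul_assoc (i' + 1), ← hX] at e
      linarith
    have h3 := (Comb.divmod h1 h2 e2).1
    have h4 := (Comb.divmod (w := H + 2) (by omega) (by omega) h3).2
    omega
  · obtain ⟨δ, rfl⟩ : ∃ δ, i' = i + (δ + 1) := ⟨i' - i - 1, by omega⟩
    obtain ⟨c, hc⟩ : (δ + 1) ∣ H.factorial := Nat.dvd_factorial (by omega) (by omega)
    obtain ⟨k, rfl⟩ : ∃ k, H = i + (δ + 1) + k := ⟨H - (i + (δ + 1)), by omega⟩
    have e1 : i + (δ + 1) + k - i = δ + 1 + k := by omega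
    have e2 : i + (δ + 1) + k - (i + (δ + 1)) = k := by omega
    unfold γp at e
    rw [e1, e2] at e
    set M := MM p (i + (δ + 1) + k) with hMd
    have hM2 : M = (δ + 1) * (p * c) := by rw [hMd, MM, hc]; ring
    set G := GG N (i + (δ + 1) + k)
    set l := ll N (i + (δ + 1) + k)
    have h5 : ((δ + 1 : ℕ) : ℤ) * (ρ - n) = ((δ + 1 : ℕ) : ℤ) * (p * (c * ((δ + 1) * G + a' - a +
        (b' - b) * l))) := by
      have e' := congrArg (Nat.cast : ℕ → ℤ) e
      rw [hM2] at e'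
      push_cast at e' ⊢
      linear_combination e'
    have h6 := mul_left_cancel₀ (by positivity) h5
    have h7 : (n : ℤ) ≡ ρ [ZMOD p] := Int.modEq_iff_dvd.2 ⟨_, h6⟩
    exact Int.natCast_modEq_iff.1 h7

theorem per_full (hp : 0 < p) {i n : ℕ} (hi : i < H) (hn : 2 * ll N H ≤ n) :
    ∃ a b, a + b ≤ n ∧ (n % MM p H) * H + ll N H * MM p H + (n / MM p H) * MM p H * H =
      γp p N H (n % MM p H) i + n * i + a * MM p H + b * (ll N H * MM p H) := by
  have hM := MM_pos (H := H) hp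
  have hl := ll_ge (N := N) (H := H)
  set M := MM p H
  set l := ll N H with hl'
  set m := n / M
  set ρ := n % M
  have hn' : n = M * m + ρ := (Nat.div_add_mod n M).symm
  have hm : m ≤ n := Nat.div_le_self _ _
  obtain ⟨k, rfl⟩ : ∃ k, H = i + (k + 1) := ⟨H - i - 1, by omega⟩
  obtain ⟨c, hc⟩ : ∃ c, l = (i + 1) * GG N (i + (k + 1)) + c :=
    ⟨(k + 2) * GG N (i + (k + 1)), by rw [hl', ll]; ring⟩
  let j := c + m * (k + 1)
  have hlpos : 0 < l := by omega
  refine ⟨j % l, j / l, ?_, ?_⟩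
  · have h1 : j % l < l := Nat.mod_lt _ hlpos
    have h2 : j / l * l ≤ j := Nat.div_mul_le_self _ _
    have h3 : m * (k + 1) * 2 ≤ n * l := by
      have : m * ((k + 1) * 2) ≤ n * l := Nat.mul_le_mul hm (by omega)
      nlinarith
    have h4 : 2 * (j / l) * l ≤ (n + 2) * l := by
      have : c ≤ l := by omega
      simp only [j] at h2 ⊢
      nlinarith
    have h5 : 2 * (j / l) ≤ n + 2 := Nat.le_of_mul_le_mul_right h4 hlpos
    omega
  · have h1 : j = l * (j / l) + j % l := (Nat.div_add_mod j l).symm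
    have e1 : i + (k + 1) - i = k + 1 := by omega
    unfold γp
    rw [e1]
    change ρ * (i + (k + 1)) + l * M + m * M * (i + (k + 1)) = ρ * (k + 1) +
      (i + 1) * GG N (i + (k + 1)) * M + n * i + j % l * M + j / l * (l * M)
    have h2 : j % l * M + j / l * (l * M) = j * M := by
      conv_rhs => rw [h1]
      ring
    rw [add_assoc _ (j % l * M), h2, hn']
    simp only [j]
    rw [hc]
    ring

end design

theorem per_eq {g : ℕ → ℕ} {N p : ℕ} (hg : ∀ t, N ≤ t → g (t + p) = g t) (t k : ℕ) (ht : N ≤ t) :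
    g (t + k * p) = g t := by
  induction k with
  | zero => simp
  | succ k ih => rw [show t + (k + 1) * p = (t + k * p) + p by ring, hg _ (by omega), ih]

theorem per_mod {g : ℕ → ℕ} {N p : ℕ} (hg : ∀ t, N ≤ t → g (t + p) = g t) {t t' : ℕ} (ht : N ≤ t)
    (ht' : N ≤ t') (h : t % p = t' % p) : g t = g t' := by
  wlog hle : t ≤ t' generalizing t t'
  · exact (this ht' ht h.symm (by omega)).symm
  obtain ⟨k, hk⟩ := (Nat.modEq_iff_dvd' hle).1 h
  have : t' = t + k * p := by rw [mul_comm]; omega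
  rw [this, per_eq hg t k ht]

theorem per_bound {g : ℕ → ℕ} {N p : ℕ} (hp : 0 < p) (hg : ∀ t, N ≤ t → g (t + p) = g t) (t : ℕ) :
    g t ≤ ∑ s ∈ Finset.range (N + p), g s := by
  induction t using Nat.strong_induction_on with
  | _ t ih =>
  by_cases h : t < N + p
  · exact Finset.single_le_sum (f := g) (fun _ _ => Nat.zero_le _) (Finset.mem_range.2 h)
  · have : t = (t - p) + p := by omega
    rw [this, hg _ (by omega)]
    exact ih _ (by omega)

theorem design (g : ℕ → ℕ) (N p : ℕ) (hp : 0 < p) (hg : ∀ t, N ≤ t → g (t + p) = g t)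
    (hpos : ∀ t, 1 ≤ t → 1 ≤ g t) :
    ∃ (m : ℕ) (r : Fin (m + 1) → Row),
      (∀ n θ, {x | (r x).Hol n θ}.ncard ≤ g (n + 1)) ∧
      ∀ n, ∃ θ, g (n + 1) ≤ {x | (r x).Hol n θ}.ncard := by
  classical
  obtain ⟨H, hH⟩ : ∃ H, ∀ t, g t ≤ H := ⟨_, per_bound hp hg⟩
  have hM := MM_pos (H := H) hp
  have hl := ll_ge (N := N) (H := H)
  let N1 := 2 * ll N H
  let w := N1 + MM p H
  let hh : ℕ → ℕ := fun ρ => if ρ < N1 then g (ρ + 1) else g (ρ - N1 + 1 + N * p)
  let r0 : Fin w × Fin H → Row0 := fun x =>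
    if h : x.1.val < N1 then finRow x.1 (x.1 + 2 + x.2) (x.1 * (H - x.2)) (x.2 < hh x.1)
    else perRow x.2 (MM p H) (ll N H * MM p H) (γp p N H (x.1 - N1) x.2) (x.2 < hh x.1)
      (Nat.le_mul_of_pos_left _ (by omega)) (γp_ge hp _ _)
      (γp_lt hp (by have := x.1.2; simp only [w] at this; omega) x.2.2)
  let r : Fin w × Fin H → Row := fun x => (r0 x).lift w x.1 x.1.2
  have hact : ∀ x n θ, (r0 x).Hol n θ → x.2.val < hh x.1 := by
    intro x n θ h
    simp only [r0] at h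
    split_ifs at h
    · exact (finRow_Hol _ _ _ _ h).1
    · exact ((perRow_Hol _ _ _ _ _ _ _ _ _ _).1 h).1
  have hpair : ∀ (ρ : Fin w) (i i' : Fin H) n θ, i < i' → (r0 (ρ, i)).Hol n θ →
      (r0 (ρ, i')).Hol n θ → hh ρ = g (n + 1) := by
    intro ρ i i' n θ hlt h h'
    simp only [r0] at h h'
    split_ifs at h h' with hρ
    · have e := (finRow_Hol _ _ _ _ h).2
      have e' := (finRow_Hol _ _ _ _ h').2
      obtain ⟨δ, hδ⟩ : ∃ δ, i'.val = i.val + (δ + 1) := ⟨i' - i - 1, by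
        have : i.val < i'.val := hlt
        omega⟩
      have e1 : H - i.val = (H - i'.val) + (δ + 1) := by have := i'.2; omega
      rw [e1] at e
      rw [hδ] at e e'
      have : (δ + 1) * ρ.val = (δ + 1) * n := by nlinarith
      have : ρ.val = n := Nat.eq_of_mul_eq_mul_left (by omega) this
      simp only [hh, if_pos hρ]
      rw [this]
    · obtain ⟨-, a, b, hab, e⟩ := (perRow_Hol _ _ _ _ _ _ _ _ _ _).1 h
      obtain ⟨-, a', b', hab', e'⟩ := (perRow_Hol _ _ _ _ _ _ _ _ _ _).1 h'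
      have := per_pair hp (by have := ρ.2; simp only [w] at this; omega) i'.2 hlt hab hab'
        (e.symm.trans e')
      simp only [hh, if_neg hρ]
      apply per_mod hg (by nlinarith) (by omega)
      rw [Nat.add_mul_mod_self_right, Nat.add_mod, ← this.2, ← Nat.add_mod]
  have hfull : ∀ n, ∃ (ρ : Fin w) (θ : ℕ), hh ρ = g (n + 1) ∧
      ∀ i : Fin H, i.val < hh ρ → (r0 (ρ, i)).Hol n θ := by
    intro n
    by_cases hn : n < N1
    · refine ⟨⟨n, by omega⟩, n * H + 1 + n * (n + 2), by simp only [hh, if_pos hn], fun i hi => ?_⟩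
      simp only [r0, dif_pos hn]
      have := finRow_hole n (n + 2 + i) (n * (H - i)) (i.val < hh n) hi (by omega)
      convert this using 1
      obtain ⟨k, hk⟩ : ∃ k, H = i + k := ⟨H - i, by have := i.2; omega⟩
      have : H - i.val = k := by omega
      rw [this]
      nlinarith
    · have hlt : n % MM p H < MM p H := Nat.mod_lt _ hM
      have hρ : ¬ (N1 + n % MM p H < N1) := by omega
      refine ⟨⟨N1 + n % MM p H, by omega⟩,
        (n % MM p H) * H + ll N H * MM p H + (n / MM p H) * MM p H * H, ?_, fun i hi => ?_⟩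
      · simp only [hh, if_neg hρ, Nat.add_sub_cancel_left]
        apply per_mod hg (by nlinarith) (by omega)
        rw [Nat.add_mul_mod_self_right, Nat.add_mod, Nat.mod_mod_of_dvd _ (show p ∣ MM p H from Dvd.intro _ rfl),
          ← Nat.add_mod]
      · simp only [r0, dif_neg hρ]
        rw [perRow_Hol]
        refine ⟨hi, ?_⟩
        simp only [Nat.add_sub_cancel_left]
        exact per_full hp i.2 (by omega)
  have hH1 : 1 ≤ H := le_trans (hpos 1 le_rfl) (hH 1)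
  obtain ⟨m, hm⟩ : ∃ m, w * H = m + 1 := ⟨w * H - 1, by
    have : 0 < w * H := Nat.mul_pos (by omega) hH1
    omega⟩
  let e : Fin (m + 1) ≃ Fin w × Fin H := (finCongr hm.symm).trans finProdFinEquiv.symm
  have hcard : ∀ n θ, {x | (r (e x)).Hol n θ}.ncard = {x | (r x).Hol n θ}.ncard := by
    intro n θ
    rw [← Set.ncard_image_of_injective _ e.injective]
    congr 1
    ext x
    simp only [Set.mem_image, Set.mem_ofPred_eq]
    exact ⟨fun ⟨y, hy, h⟩ => h ▸ hy, fun h => ⟨e.symm x, by simpa using h, by simp⟩⟩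
  refine ⟨m, fun x => r (e x), fun n θ => ?_, fun n => ?_⟩
  · rw [hcard]
    by_cases hsub : {x | (r x).Hol n θ}.Subsingleton
    · exact le_trans (Set.ncard_le_one_iff_subsingleton.2 hsub) (hpos _ (by omega))
    · rw [Set.not_subsingleton_iff] at hsub
      obtain ⟨x, hx, x', hx', hne⟩ := hsub
      obtain ⟨θ0, e0, h0⟩ := (lift_Hol _ _ _ _ _ _).1 hx
      have key : ∀ y, (r y).Hol n θ → y.1 = x.1 ∧ (r0 y).Hol n θ0 := by
        intro y hy
        obtain ⟨θ1, e1, h1⟩ := (lift_Hol _ _ _ _ _ _).1 hy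
        have := Comb.divmod (w := w) (q := θ1) (q' := θ0) y.1.2 x.1.2 (by omega)
        exact ⟨Fin.ext this.2, this.1 ▸ h1⟩
      obtain ⟨ρ, i⟩ := x
      obtain ⟨ρ', i'⟩ := x'
      obtain ⟨e1, h1⟩ := key _ hx'
      simp only at e1
      subst e1
      have hii : i ≠ i' := fun h => hne (by rw [h])
      have hg' : hh ρ' = g (n + 1) := by
        rcases lt_or_gt_of_ne hii with h | h
        · exact hpair ρ' i i' n θ0 h h0 h1
        · exact hpair ρ' i' i n θ0 h h1 h0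
      rw [← hg']
      have := Set.ncard_le_ncard_of_injOn (s := {x | (r x).Hol n θ})
        (t := Set.Iio (hh ρ')) (fun y => y.2.val) (fun y hy => by
          have := key y hy
          have h2 := hact y n θ0 this.2
          rw [this.1] at h2
          exact h2) (fun a ha b hb h => Prod.ext ((key a ha).1.trans (key b hb).1.symm)
            (Fin.ext h)) (Set.finite_Iio _)
      simpa using this
  · obtain ⟨ρ, θ0, h1, h2⟩ := hfull n
    refine ⟨4 * (w * θ0 + ρ) + 2, ?_⟩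
    rw [hcard, ← h1]
    have hle : hh ρ ≤ H := h1 ▸ hH _
    have := Set.ncard_le_ncard_of_injOn (s := (Set.univ : Set (Fin (hh ρ))))
      (t := {x | (r x).Hol n (4 * (w * θ0 + ρ) + 2)}) (fun i => (ρ, Fin.castLE hle i))
      (fun i _ => (lift_Hol _ _ _ _ _ _).2 ⟨θ0, rfl, h2 _ (by simp)⟩)
      (fun a _ b _ h => by simpa using h) (Set.toFinite _)
    simpa [Set.ncard_univ] using this

end Pool.Agent.H353Z.SymC
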