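import Pool.Agent.H353Z.SymA
import Pool.Agent.H353Z.SymB

/-!
Monomial ideals given by exponent sets, and intersections of codimension two coordinate primes.
-/

set_option autoImplicit false

open CategoryTheory MvPolynomial

namespace Pool.Agent.H353Z.SymD

open Pool.Agent.H353Z.PD Pool.Agent.H353Z.SymA Pool.Agent.H353Z.SymB

variable {n : ℕ}

abbrev R (n : ℕ) : Type := MvPolynomial (Fin n) ℚ

/-- the monomial ideal with exponent set `T` -/
noncomputable def MI (T : Set (Fin n →₀ ℕ)) : Ideal (R n) :=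
  Ideal.span ((fun m => monomial m (1 : ℚ)) '' T)

def Up (T : Set (Fin n →₀ ℕ)) : Prop := ∀ e ∈ T, ∀ e', e ≤ e' → e' ∈ T

theorem mem_MI {T : Set (Fin n →₀ ℕ)} {f : R n} :
    f ∈ MI T ↔ ∀ e ∈ f.support, ∃ s ∈ T, s ≤ e := mem_ideal_span_monomial_image

theorem memU {T : Set (Fin n →₀ ℕ)} (hT : Up T) {f : R n} :
    f ∈ MI T ↔ ∀ e ∈ f.support, e ∈ T := by
  rw [mem_MI]
  refine forall₂_congr fun e _ => ⟨fun ⟨s, hs, h⟩ => hT s hs e h, fun h => ⟨e, h, le_rfl⟩⟩

theorem mon_mem {T : Set (Fin n →₀ ℕ)} {e : Fin n →₀ ℕ} (he : e ∈ T) :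
    (monomial e (1 : ℚ) : R n) ∈ MI T := Ideal.subset_span ⟨e, he, rfl⟩

theorem mon_memU {T : Set (Fin n →₀ ℕ)} (hT : Up T) {e : Fin n →₀ ℕ}
    (he : (monomial e (1 : ℚ) : R n) ∈ MI T) : e ∈ T := by
  classical
  refine (memU hT).1 he e ?_
  simp [mem_support_iff]

theorem MI_single (a : Fin n →₀ ℕ) : MI {a} = Ideal.span {(monomial a (1 : ℚ) : R n)} := by
  simp [MI]

theorem MI_sup {T L : Set (Fin n →₀ ℕ)} {a : Fin n →₀ ℕ} (hT : Up T) (hL : Up L)
    (h : ∀ e, e ∈ L ↔ e ∈ T ∨ a ≤ e) :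
    MI L = MI T ⊔ Ideal.span {(monomial a (1 : ℚ) : R n)} := by
  have : MI T ⊔ Ideal.span {(monomial a (1 : ℚ) : R n)} = MI (T ∪ {a}) := by
    rw [← MI_single, MI, MI, MI, Set.image_union, Ideal.span_union]
  rw [this]
  ext f
  rw [memU hL, mem_MI]
  refine forall₂_congr fun e _ => ?_
  rw [h]
  constructor
  · rintro (h | h)
    · exact ⟨e, Or.inl h, le_rfl⟩
    · exact ⟨a, Or.inr rfl, h⟩
  · rintro ⟨s, hs | rfl, h'⟩
    · exact Or.inl (hT s hs e h')
    · exact Or.inr h'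

theorem MI_sup' {T T' L : Set (Fin n →₀ ℕ)} (h : ∀ e, e ∈ L ↔ e ∈ T ∨ e ∈ T') :
    MI L = MI T ⊔ MI T' := by
  have : L = T ∪ T' := Set.ext h
  rw [this, MI, MI, MI, Set.image_union, Ideal.span_union]

theorem MI_inf {T T' L : Set (Fin n →₀ ℕ)} (hT : Up T) (hT' : Up T')
    (h : ∀ e, e ∈ L ↔ e ∈ T ∧ e ∈ T') : MI L = MI T ⊓ MI T' := by
  have hL : Up L := fun e he e' hle =>
    (h e').2 ⟨hT e ((h e).1 he).1 e' hle, hT' e ((h e).1 he).2 e' hle⟩
  ext f
  rw [Ideal.mem_inf, memU hL, memU hT, memU hT']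
  simp only [h]
  exact ⟨fun h => ⟨fun e he => (h e he).1, fun e he => (h e he).2⟩,
    fun h e he => ⟨h.1 e he, h.2 e he⟩⟩

theorem MI_colon {T K : Set (Fin n →₀ ℕ)} {a : Fin n →₀ ℕ} (hT : Up T) (hK : Up K)
    (h : ∀ e, e ∈ K ↔ a + e ∈ T) (g : R n) : g ∈ MI K ↔ monomial a (1 : ℚ) * g ∈ MI T := by
  classical
  rw [memU hT, memU hK]
  constructor
  · intro hg e he
    rw [mem_support_iff, coeff_monomial_mul'] at he
    split_ifs at he with hle
    · have := (h _).1 (hg (e - a) (by rw [mem_support_iff]; simpa using he))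
      rwa [add_tsub_cancel_of_le hle] at this
    · exact (he rfl).elim
  · intro hg e he
    refine (h e).2 (hg _ ?_)
    rw [mem_support_iff, coeff_monomial_mul, one_mul]
    exact mem_support_iff.1 he

theorem MI_principal {K : Set (Fin n →₀ ℕ)} {a : Fin n →₀ ℕ} (h : ∀ e, e ∈ K ↔ a ≤ e) :
    PDle (R n) (R n ⧸ MI K) 1 := by
  have : MI K = Ideal.span {(monomial a (1 : ℚ) : R n)} := by
    rw [← MI_single]
    ext f
    rw [mem_MI, mem_MI]
    refine forall₂_congr fun e _ => ⟨fun ⟨s, hs, h1⟩ => ⟨a, rfl, ((h s).1 hs).trans h1⟩,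
      fun ⟨s, hs, h1⟩ => ⟨a, (h a).2 le_rfl, by rwa [← Set.mem_singleton_iff.1 hs]⟩⟩
  rw [this]
  exact pd_principal _ (by simp)

theorem MI_empty : MI (∅ : Set (Fin n →₀ ℕ)) = ⊥ := by simp [MI]

theorem MI_univ : MI (Set.univ : Set (Fin n →₀ ℕ)) = ⊤ := by
  rw [Ideal.eq_top_iff_one]
  exact mon_mem (e := 0) trivial

/-- the maximal ideal of the origin -/
noncomputable def mm (n : ℕ) : Ideal (R n) := MI {e | e ≠ 0}

theorem up_ne : Up {e : Fin n →₀ ℕ | e ≠ 0} := by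
  intro e he e' h h0
  exact he (le_antisymm (h0 ▸ h) zero_le)

theorem mm_ne : mm n ≠ ⊤ := by
  intro h
  have : (monomial 0 (1 : ℚ) : R n) ∈ mm n := h ▸ trivial
  exact mon_memU up_ne this rfl

noncomputable abbrev kk (n : ℕ) : ModuleCat.{0} (R n) := ModuleCat.of (R n) (R n ⧸ mm n)

theorem X_ann (j : Fin n) : (monomial (Finsupp.single j 1) (1 : ℚ) : R n) ∈
    Module.annihilator (R n) (kk n) := by
  rw [Module.mem_annihilator]
  intro x
  obtain ⟨g, rfl⟩ := Submodule.mkQ_surjective _ x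
  rw [← map_smul, Submodule.mkQ_apply, Submodule.Quotient.mk_eq_zero, smul_eq_mul]
  exact Ideal.mul_mem_right _ _ (mon_mem (by simp))

/-- adjoining a variable that does not occur -/
theorem add_var {T L : Set (Fin n →₀ ℕ)} (j : Fin n) (hT : Up T)
    (hj : ∀ e, Finsupp.single j 1 + e ∈ T → e ∈ T) (h : ∀ e, e ∈ L ↔ e ∈ T ∨ e j ≠ 0) (k : ℕ) :
    Up L ∧ (PDle (R n) (R n ⧸ MI T) k → PDle (R n) (R n ⧸ MI L) (k + 1)) ∧
      (NZ (kk n) (R n ⧸ MI T) k → NZ (kk n) (R n ⧸ MI L) (k + 1)) := by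
  have hL : Up L := by
    intro e he e' hle
    rw [h] at he ⊢
    rcases he with he | he
    · exact Or.inl (hT e he e' hle)
    · have := hle j
      right; omega
  have h1 := MI_sup (a := Finsupp.single j 1) hT hL (fun e => by
    rw [h, Finsupp.single_le_iff, Nat.one_le_iff_ne_zero])
  have h2 : ∀ g, (monomial (Finsupp.single j 1) (1 : ℚ) : R n) * g ∈ MI T → g ∈ MI T :=
    fun g => (MI_colon hT hT (fun e => ⟨fun he => hT e he _ le_add_self, hj e⟩) g).2
  exact ⟨hL, pd_reg _ _ _ h2 h1 k, NZ_reg _ _ _ (X_ann j) h2 h1 k⟩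

theorem add_two {T L : Set (Fin n →₀ ℕ)} (y z : Fin n) (hyz : y ≠ z) (hT : Up T)
    (hy : ∀ e, Finsupp.single y 1 + e ∈ T → e ∈ T) (hz : ∀ e, Finsupp.single z 1 + e ∈ T → e ∈ T)
    (h : ∀ e, e ∈ L ↔ e ∈ T ∨ (e y ≠ 0 ∨ e z ≠ 0)) (k : ℕ) :
    (PDle (R n) (R n ⧸ MI T) k → PDle (R n) (R n ⧸ MI L) (k + 2)) ∧
      (NZ (kk n) (R n ⧸ MI T) k → NZ (kk n) (R n ⧸ MI L) (k + 2)) := by
  obtain ⟨u1, p1, z1⟩ := add_var (L := {e | e ∈ T ∨ e y ≠ 0}) y hT hy (fun e => Iff.rfl) k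
  obtain ⟨-, p2, z2⟩ := add_var (L := L) z u1 (fun e he => by
    rcases he with he | he
    · exact Or.inl (hz e he)
    · right
      simpa [Finsupp.single_apply, hyz.symm] using he) (fun e => by rw [h, ← or_assoc]; rfl) (k + 1)
  exact ⟨fun h => p2 (p1 h), fun h => z2 (z1 h)⟩

section MV
variable {ι : Type} (Y Z : ι → Fin n)

/-- exponents of the intersection of the primes `(Y i, Z i)`, `i ∈ V` -/
def MV (V : Finset ι) : Set (Fin n →₀ ℕ) := {e | ∀ i ∈ V, e (Y i) ≠ 0 ∨ e (Z i) ≠ 0}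

theorem up_MV (V : Finset ι) : Up (MV Y Z V) := by
  intro e he e' hle i hi
  have h1 := hle (Y i)
  have h2 := hle (Z i)
  have := he i hi
  omega

theorem pd_MV (hY : Function.Injective Y) (hZ : Function.Injective Z) (hYZ : ∀ i k, Y i ≠ Z k)
    (V : Finset ι) (hV : V.Nonempty) :
    PDle (R n) (R n ⧸ MI (MV Y Z V)) (V.card + 1) ∧
      NZ (kk n) (R n ⧸ MI (MV Y Z V)) (V.card + 1) := by
  classical
  have base : ∀ i, PDle (R n) (R n ⧸ MI (MV Y Z {i})) 2 ∧
      NZ (kk n) (R n ⧸ MI (MV Y Z {i})) 2 := by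
    intro i
    obtain ⟨p, q⟩ := add_two (T := ∅) (L := MV Y Z {i}) (Y i) (Z i) (hYZ i i)
      (fun e he => he.elim) (fun e he => he.elim) (fun e he => he.elim)
      (fun e => by simp [MV]) 0
    rw [MI_empty] at p q
    exact ⟨p pd_bot, q (NZ_bot _ mm_ne)⟩
  induction hV using Finset.Nonempty.cons_induction with
  | singleton i => exact base i
  | cons j V hj hV ih =>
    rw [Finset.card_cons]
    obtain ⟨p, q⟩ := add_two (T := MV Y Z V) (L := {e | e ∈ MV Y Z V ∨ e ∈ MV Y Z {j}})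
      (Y j) (Z j) (hYZ j j) (up_MV Y Z V)
      (fun e he i hi => by
        have h1 : Y j ≠ Y i := fun h => hj (hY h ▸ hi)
        simpa [Finsupp.single_apply, h1, hYZ j i] using he i hi)
      (fun e he i hi => by
        have h1 : Z j ≠ Z i := fun h => hj (hZ h ▸ hi)
        simpa [Finsupp.single_apply, h1, (hYZ i j).symm] using he i hi)
      (fun e => by simp [MV]) (V.card + 1)
    obtain ⟨a, b, ha, hb, hab⟩ := mv_seq (MI (MV Y Z V)) (MI (MV Y Z {j}))
      (MI (MV Y Z (Finset.cons j V hj))) (MI {e | e ∈ MV Y Z V ∨ e ∈ MV Y Z {j}})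
      (MI_inf (up_MV Y Z V) (up_MV Y Z {j}) (fun e => by simp [MV, and_comm]))
      (MI_sup' (fun e => Iff.rfl))
    have hmid := pd_prod (V.card + 1 + 1) (pd_mono (Nat.le_succ _) ih.1)
      (pd_mono (by omega) (base j).1)
    exact ⟨pd_left a b ha hb hab _ hmid (p ih.1), NZ_left a b ha hb hab _ hmid (q ih.2)⟩

theorem pd_MV' (hY : Function.Injective Y) (hZ : Function.Injective Z) (hYZ : ∀ i k, Y i ≠ Z k)
    (V : Finset ι) : PDle (R n) (R n ⧸ MI (MV Y Z V)) (V.card + 1) := by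
  rcases V.eq_empty_or_nonempty with rfl | hV
  · have : MV Y Z ∅ = Set.univ := by ext e; simp [MV]
    rw [this, MI_univ]
    exact pd_top _
  · exact (pd_MV Y Z hY hZ hYZ V hV).1

end MV

/-! ### ideals in two variables -/

/-- exponents whose `(y, z)` part lies in `A` -/
def B2 (y z : Fin n) (A : Set (ℕ × ℕ)) : Set (Fin n →₀ ℕ) := {e | (e y, e z) ∈ A}

def Up2 (A : Set (ℕ × ℕ)) : Prop := ∀ p ∈ A, ∀ q : ℕ × ℕ, p.1 ≤ q.1 → p.2 ≤ q.2 → q ∈ A

theorem up_B2 (y z : Fin n) {A : Set (ℕ × ℕ)} (hA : Up2 A) : Up (B2 y z A) :=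
  fun _ he _ hle => hA _ he _ (hle y) (hle z)

theorem up2_pw (A : Set (ℕ × ℕ)) (t : ℕ) : Up2 (pw A t) := fun _ hp _ h1 h2 => pw_up A t hp h1 h2

theorem sat (y z : Fin n) {A : Set (ℕ × ℕ)} (hA : Up2 A) (u f : R n)
    (hu : ∃ a ∈ u.support, a y = 0 ∧ a z = 0) (h : u * f ∈ MI (B2 y z A)) :
    f ∈ MI (B2 y z A) := by
  classical
  rw [memU (up_B2 y z hA)] at h ⊢
  by_contra hc
  push Not at hc
  let B := f.support.filter (fun e => e ∉ B2 y z A)
  have hB : B.Nonempty := by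
    obtain ⟨e, he, hn⟩ := hc
    exact ⟨e, Finset.mem_filter.2 ⟨he, hn⟩⟩
  obtain ⟨b1, hb1, hmin⟩ := B.exists_min_image (fun e => e y + e z) hB
  let A0 := u.support.filter (fun e => e y = 0 ∧ e z = 0)
  let B0 := B.filter (fun e => e y + e z = b1 y + b1 z)
  have hA0 : A0.Nonempty := by
    obtain ⟨e, he, hn⟩ := hu
    exact ⟨e, Finset.mem_filter.2 ⟨he, hn⟩⟩
  have hB0 : B0.Nonempty := ⟨b1, Finset.mem_filter.2 ⟨hb1, rfl⟩⟩
  obtain ⟨a0, ha0, b0, hb0, huniq⟩ := UniqueSums.uniqueAdd_of_nonempty hA0 hB0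
  obtain ⟨ha1, ha2, ha3⟩ := Finset.mem_filter.1 ha0
  obtain ⟨hb2, hb3⟩ := Finset.mem_filter.1 hb0
  obtain ⟨hb4, hb5⟩ := Finset.mem_filter.1 hb2
  have hnot : a0 + b0 ∉ B2 y z A := by
    intro h0
    apply hb5
    simpa [B2, ha2, ha3] using h0
  apply hnot
  apply h
  rw [mem_support_iff, coeff_mul, Finset.sum_eq_single (a0, b0)]
  · exact mul_ne_zero (mem_support_iff.1 ha1) (mem_support_iff.1 hb4)
  · rintro ⟨a, b⟩ hab hne
    rw [Finset.HasAntidiagonal.mem_antidiagonal] at hab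
    simp only at hab
    by_contra h0
    have h1 : a ∈ u.support := mem_support_iff.2 (left_ne_zero_of_mul h0)
    have h2 : b ∈ f.support := mem_support_iff.2 (right_ne_zero_of_mul h0)
    have h3 : b ∈ B := Finset.mem_filter.2 ⟨h2, fun hb =>
      hnot (up_B2 y z hA b hb _ (hab ▸ le_add_self))⟩
    have h4 := hmin b h3
    have e1 := DFunLike.congr_fun hab y
    have e2 := DFunLike.congr_fun hab z
    simp only [Finsupp.add_apply] at e1 e2 h4
    obtain ⟨r1, r2⟩ := huniq (Finset.mem_filter.2 ⟨h1, by omega, by omega⟩)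
      (Finset.mem_filter.2 ⟨h3, by omega⟩) hab
    exact hne (Prod.ext r1 r2)
  · intro h0
    exact (h0 (Finset.HasAntidiagonal.mem_antidiagonal.2 rfl)).elim

/-- the prime generated by two variables -/
noncomputable def PP (y z : Fin n) : Ideal (R n) := MI (B2 y z {p | p.1 ≠ 0 ∨ p.2 ≠ 0})

theorem up2_ne : Up2 {p : ℕ × ℕ | p.1 ≠ 0 ∨ p.2 ≠ 0} := by
  intro p hp q h1 h2
  simp only [Set.mem_ofPred_eq] at hp ⊢
  omega

theorem notMem_PP {y z : Fin n} {u : R n} (hu : u ∉ PP y z) :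
    ∃ a ∈ u.support, a y = 0 ∧ a z = 0 := by
  rw [PP, memU (up_B2 y z up2_ne)] at hu
  push Not at hu
  obtain ⟨a, ha, h⟩ := hu
  exact ⟨a, ha, by simpa [B2] using h⟩

theorem mon_mem_PP {y z : Fin n} {e : Fin n →₀ ℕ} :
    (monomial e (1 : ℚ) : R n) ∈ PP y z ↔ e y ≠ 0 ∨ e z ≠ 0 :=
  ⟨fun h => mon_memU (up_B2 y z up2_ne) h, fun h => mon_mem (T := B2 y z _) h⟩

theorem PP_prime (y z : Fin n) : (PP y z).IsPrime := by
  refine ⟨fun h => ?_, fun {u f} h => ?_⟩
  · have : (monomial 0 (1 : ℚ) : R n) ∈ PP y z := h ▸ trivial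
    simpa using mon_mem_PP.1 this
  · by_cases hu : u ∈ PP y z
    · exact Or.inl hu
    · exact Or.inr (sat y z up2_ne u f (notMem_PP hu) h)

theorem prime_mon {P : Ideal (R n)} (hP : P.IsPrime) {e : Fin n →₀ ℕ}
    (he : (monomial e (1 : ℚ) : R n) ∈ P) :
    ∃ j, e j ≠ 0 ∧ (monomial (Finsupp.single j 1) (1 : ℚ) : R n) ∈ P := by
  rw [← prod_X_pow_eq_monomial, Ideal.IsPrime.prod_mem_iff] at he
  obtain ⟨j, hj, h⟩ := he
  exact ⟨j, Finsupp.mem_support_iff.1 hj, hP.mem_of_pow_mem _ h⟩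

theorem PP_le {P : Ideal (R n)} {y z : Fin n}
    (hy : (monomial (Finsupp.single y 1) (1 : ℚ) : R n) ∈ P)
    (hz : (monomial (Finsupp.single z 1) (1 : ℚ) : R n) ∈ P) : PP y z ≤ P := by
  rw [PP, MI, Ideal.span_le]
  rintro _ ⟨e, he, rfl⟩
  have key : ∀ j, e j ≠ 0 → (monomial (Finsupp.single j 1) (1 : ℚ) : R n) ∈ P →
      (monomial e (1 : ℚ) : R n) ∈ P := by
    intro j hj h
    have hle : Finsupp.single j 1 ≤ e := by rwa [Finsupp.single_le_iff, Nat.one_le_iff_ne_zero]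
    have := P.mul_mem_right (monomial (e - Finsupp.single j 1) (1 : ℚ)) h
    rwa [monomial_mul, one_mul, add_tsub_cancel_of_le hle] at this
  rcases he with he | he
  · exact key y he hy
  · exact key z he hz

theorem pow_le_B2 (y z : Fin n) (A : Set (ℕ × ℕ)) (t : ℕ) :
    MI (B2 y z A) ^ t ≤ MI (B2 y z (pw A t)) := by
  induction t with
  | zero =>
    have : B2 y z (pw A 0) = Set.univ := rfl
    rw [this, MI_univ]
    exact le_top
  | succ t ih =>
    rw [pow_succ]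
    refine le_trans (Ideal.mul_mono_left ih) ?_
    rw [MI, MI, Ideal.span_mul_span', Ideal.span_le]
    rintro _ ⟨_, ⟨a, ha, rfl⟩, _, ⟨b, hb, rfl⟩, rfl⟩
    simp only [monomial_mul, one_mul]
    exact mon_mem ⟨_, ha, _, hb, rfl⟩

theorem mul_mem_pow (y z : Fin n) (hyz : y ≠ z) (A : Set (ℕ × ℕ)) (Q : Ideal (R n))
    (w : Fin n →₀ ℕ) (hw : ∀ e ∈ B2 y z A, (monomial (w + e) (1 : ℚ) : R n) ∈ Q) (t : ℕ)
    (f : R n) (hf : f ∈ MI (B2 y z (pw A t))) : monomial (t • w) (1 : ℚ) * f ∈ Q ^ t := by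
  have key : ∀ t, ∀ e ∈ B2 y z (pw A t), (monomial (t • w + e) (1 : ℚ) : R n) ∈ Q ^ t := by
    intro t
    induction t with
    | zero => simp
    | succ t ih =>
      rintro e ⟨a, ha, b, hb, h⟩
      have h1 := congrArg Prod.fst h
      have h2 := congrArg Prod.snd h
      simp only [Prod.fst_add, Prod.snd_add] at h1 h2
      let s : Fin n →₀ ℕ := Finsupp.single y b.1 + Finsupp.single z b.2
      have sy : s y = b.1 := by simp [s, Finsupp.single_apply, hyz.symm]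
      have sz : s z = b.2 := by simp [s, Finsupp.single_apply, hyz]
      have hs : s ≤ e := by
        intro j
        by_cases hy : j = y
        · rw [hy, sy]; omega
        · by_cases hz : j = z
          · rw [hz, sz]; omega
          · simp [s, Finsupp.single_apply, Ne.symm hy, Ne.symm hz]
      have m1 := ih (e - s) (by
        have : ((e - s) y, (e - s) z) = a := by
          ext <;> simp only [Finsupp.tsub_apply, sy, sz] <;> omega
        show ((e - s) y, (e - s) z) ∈ pw A t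
        rwa [this])
      have m2 := hw s (by
        show (s y, s z) ∈ A
        rwa [sy, sz])
      have m3 := Ideal.mul_mem_mul m1 m2
      rw [← pow_succ, monomial_mul, one_mul] at m3
      have : (t + 1) • w + e = t • w + (e - s) + (w + s) := by
        rw [succ_nsmul, add_add_add_comm, tsub_add_cancel_of_le hs]
      rwa [this]
  have : MI (B2 y z (pw A t)) ≤ (Q ^ t).colon {monomial (t • w) (1 : ℚ)} := by
    rw [MI, Ideal.span_le]
    rintro _ ⟨e, he, rfl⟩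
    rw [SetLike.mem_coe, Submodule.mem_colon_singleton, smul_eq_mul, monomial_mul, one_mul,
      add_comm]
    exact key t e he
  have := this hf
  rwa [Submodule.mem_colon_singleton, smul_eq_mul, mul_comm] at this

end Pool.Agent.H353Z.SymD
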