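import Pool.Agent.H353Z.SymC
import Pool.Agent.H353Z.SymD

/-!
The monomial ideal attached to a family of rows, its symbolic powers and their projective
dimensions.
-/

set_option autoImplicit false

open CategoryTheory MvPolynomial

namespace Pool.Agent.H353Z.SymE

open Pool.Agent.H353Z.PD Pool.Agent.H353Z.SymA Pool.Agent.H353Z.SymB Pool.Agent.H353Z.SymD

variable {m : ℕ}

def Y (i : Fin (m + 1)) : Fin (m + 1 + (m + 1)) := Fin.castAdd (m + 1) i

def Z (i : Fin (m + 1)) : Fin (m + 1 + (m + 1)) := Fin.natAdd (m + 1) i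

theorem Y_inj : Function.Injective (Y (m := m)) := Fin.castAdd_injective _ _

theorem Z_inj : Function.Injective (Z (m := m)) := Fin.natAdd_injective _ _

theorem YZ (i k : Fin (m + 1)) : Y i ≠ Z k := by
  intro h
  have := congrArg Fin.val h
  have := i.2
  simp [Y, Z] at *
  omega

noncomputable def ex (a b : Fin (m + 1) → ℕ) : Fin (m + 1 + (m + 1)) →₀ ℕ :=
  Finsupp.equivFunOnFinite.symm (Fin.append a b)

@[simp] theorem ex_Y (a b : Fin (m + 1) → ℕ) (i : Fin (m + 1)) : ex a b (Y i) = a i := by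
  simp [ex, Y]

@[simp] theorem ex_Z (a b : Fin (m + 1) → ℕ) (i : Fin (m + 1)) : ex a b (Z i) = b i :=
  Fin.append_right a b i

theorem le_iff {e e' : Fin (m + 1 + (m + 1)) →₀ ℕ} :
    e ≤ e' ↔ (∀ i, e (Y i) ≤ e' (Y i)) ∧ ∀ i, e (Z i) ≤ e' (Z i) :=
  ⟨fun h => ⟨fun _ => h _, fun _ => h _⟩, fun h j => Fin.addCases h.1 h.2 j⟩

variable (r : Fin (m + 1) → Row)

def A (i k : Fin (m + 1)) : Set (ℕ × ℕ) := if i = k then (r i).E' else (r i).E

theorem A_sub (i k : Fin (m + 1)) : A r i k ⊆ (r i).E := by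
  unfold A
  split_ifs
  · exact (r i).E'_sub
  · exact le_rfl

theorem sub_A (i k : Fin (m + 1)) : (r i).E' ⊆ A r i k := by
  unfold A
  split_ifs
  · exact le_rfl
  · exact (r i).E'_sub

theorem up2_A (i k : Fin (m + 1)) : Up2 (A r i k) := by
  unfold A
  split_ifs
  · exact fun p hp q h1 h2 => (r i).E'_up hp h1 h2
  · exact fun p hp q h1 h2 => (r i).E_up hp h1 h2

def TQ : Set (Fin (m + 1 + (m + 1)) →₀ ℕ) := {e | ∀ i k, e ∈ B2 (Y i) (Z k) (A r i k)}

def TT (t : ℕ) : Set (Fin (m + 1 + (m + 1)) →₀ ℕ) :=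
  {e | ∀ i k, e ∈ B2 (Y i) (Z k) (pw (A r i k) t)}

theorem up_TT (t : ℕ) : Up (TT r t) :=
  fun e he e' hle i k => up_B2 _ _ (up2_pw _ _) e (he i k) e' hle

theorem MI_mono {n : ℕ} {T T' : Set (Fin n →₀ ℕ)} (h : T ⊆ T') : MI T ≤ MI T' :=
  Ideal.span_mono (Set.image_mono h)

/-- a bound for all pure powers -/
def D : ℕ := Finset.univ.sup fun i => (r i).d + (r i).α

theorem le_D (i : Fin (m + 1)) : (r i).d + (r i).α ≤ D r :=
  Finset.le_sup (f := fun i => (r i).d + (r i).α) (Finset.mem_univ i)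

theorem big_y (i k : Fin (m + 1)) {p : ℕ × ℕ} (h : D r ≤ p.1) : p ∈ A r i k :=
  sub_A r i k ((r i).E'_up (r i).pure_y (le_trans (le_D r i) h) (Nat.zero_le _))

theorem big_z (i k : Fin (m + 1)) {p : ℕ × ℕ} (h : D r ≤ p.2) : p ∈ A r i k :=
  sub_A r i k ((r i).E'_up (r i).pure_z (Nat.zero_le _)
    (le_trans (le_trans (Nat.le_add_right _ _) (le_D r i)) h))

theorem Q_le_PP (i k : Fin (m + 1)) : MI (TQ r) ≤ PP (Y i) (Z k) := by
  refine MI_mono fun e he => ?_
  have h := A_sub r i k (he i k)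
  by_contra hc
  simp only [B2, Set.mem_ofPred_eq, not_or, not_not] at hc
  apply (r i).zero_notMem
  convert h using 1
  ext
  · exact hc.1.symm
  · exact hc.2.symm

theorem PP_le_prime {P : Ideal (R (m + 1 + (m + 1)))} (hP : P.IsPrime) (h : MI (TQ r) ≤ P) :
    ∃ i k, PP (Y i) (Z k) ≤ P := by
  obtain ⟨j, hj, h1⟩ := prime_mon hP (h (mon_mem (e := ex (fun _ => D r) (fun _ => 0))
    (fun i k => big_y r i k (by simp))))
  obtain ⟨j', hj', h2⟩ := prime_mon hP (h (mon_mem (e := ex (fun _ => 0) (fun _ => D r))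
    (fun i k => big_z r i k (by simp))))
  induction j using Fin.addCases with
  | right i => exact (hj (ex_Z _ _ i)).elim
  | left i =>
    induction j' using Fin.addCases with
    | left k => exact (hj' (ex_Y _ _ k)).elim
    | right k => exact ⟨i, k, PP_le h1 h2⟩

theorem minPrimes {P : Ideal (R (m + 1 + (m + 1)))} :
    P ∈ (MI (TQ r)).minimalPrimes ↔ ∃ i k, P = PP (Y i) (Z k) := by
  constructor
  · intro hP
    obtain ⟨i, k, h⟩ := PP_le_prime r hP.1.1 hP.1.2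
    exact ⟨i, k, le_antisymm (hP.2 ⟨PP_prime _ _, Q_le_PP r i k⟩ h) h⟩
  · rintro ⟨i, k, rfl⟩
    refine ⟨⟨PP_prime _ _, Q_le_PP r i k⟩, fun P' hP' hle => ?_⟩
    obtain ⟨i', k', h⟩ := PP_le_prime r hP'.1 hP'.2
    have h1 := mon_mem_PP.1 (hle (h ((mon_mem_PP (e := Finsupp.single (Y i') 1)).2
      (Or.inl (by simp)))))
    have h2 := mon_mem_PP.1 (hle (h ((mon_mem_PP (e := Finsupp.single (Z k') 1)).2
      (Or.inr (by simp)))))
    have e1 : i' = i := by
      by_contra hc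
      have : Y i' ≠ Y i := fun h => hc (Y_inj h)
      simp [Finsupp.single_apply, this, YZ i' k] at h1
    have e2 : k' = k := by
      by_contra hc
      have : Z k' ≠ Z k := fun h => hc (Z_inj h)
      simp [Finsupp.single_apply, this, (YZ i k').symm] at h2
    rwa [e1, e2] at h

theorem symb (t : ℕ) (f : R (m + 1 + (m + 1))) :
    f ∈ MI (TT r t) ↔ ∀ P ∈ (MI (TQ r)).minimalPrimes, ∃ u, u ∉ P ∧ u * f ∈ MI (TQ r) ^ t := by
  constructor
  · intro hf P hP
    obtain ⟨i, k, rfl⟩ := (minPrimes r).1 hP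
    let w := ex (fun i' => if i' = i then 0 else D r) (fun k' => if k' = k then 0 else D r)
    refine ⟨monomial (t • w) 1, fun h => ?_, mul_mem_pow (Y i) (Z k) (YZ i k) (A r i k) _ w
      (fun e he => mon_mem fun i' k' => ?_) t f (MI_mono (T := TT r t) (fun e he => he i k) hf)⟩
    · simpa [w] using mon_mem_PP.1 h
    · by_cases h1 : i' = i
      · by_cases h2 : k' = k
        · subst h1 h2
          exact up_B2 _ _ (up2_A r _ _) e he _ le_add_self
        · exact big_z r i' k' (by simp [w, h2])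
      · exact big_y r i' k' (by simp [w, h1])
  · intro h
    rw [memU (up_TT r t)]
    intro e he i k
    obtain ⟨u, hu, huf⟩ := h _ ((minPrimes r).2 ⟨i, k, rfl⟩)
    have h1 : MI (TQ r) ^ t ≤ MI (B2 (Y i) (Z k) (pw (A r i k) t)) :=
      le_trans (Ideal.pow_right_mono (MI_mono (T := TQ r) fun e he => he i k) t) (pow_le_B2 _ _ _ t)
    exact (memU (up_B2 _ _ (up2_pw _ _))).1 (sat _ _ (up2_pw _ _) u f (notMem_PP hu) (h1 huf)) e he

/-! ### projective dimension -/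

variable (t : ℕ)

noncomputable def φ (i : Fin (m + 1)) (θ : ℕ) : ℕ := sInf {b | (b, θ) ∈ pw (r i).E (t + 1)}

theorem φ_le {i : Fin (m + 1)} {θ b : ℕ} (h : (b, θ) ∈ pw (r i).E (t + 1)) : φ r t i θ ≤ b :=
  Nat.sInf_le h

theorem φ_mem (i : Fin (m + 1)) (θ : ℕ) : (φ r t i θ, θ) ∈ pw (r i).E (t + 1) :=
  Nat.sInf_mem (s := {b | (b, θ) ∈ pw (r i).E (t + 1)})
    ⟨_, pw_up _ _ (pw_nsmul _ (t + 1) _ ((r i).E'_sub (r i).pure_y)) le_rfl (by simp)⟩

theorem φ_anti (i : Fin (m + 1)) {θ θ' : ℕ} (h : θ ≤ θ') : φ r t i θ' ≤ φ r t i θ :=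
  φ_le r t (pw_up _ _ (φ_mem r t i θ) le_rfl h)

noncomputable def aa (θ : ℕ) : Fin (m + 1 + (m + 1)) →₀ ℕ := ex (fun i => φ r t i θ) (fun _ => θ)

theorem aa_le {θ : ℕ} {e : Fin (m + 1 + (m + 1)) →₀ ℕ} :
    aa r t θ ≤ e ↔ (∀ i, φ r t i θ ≤ e (Y i)) ∧ ∀ i, θ ≤ e (Z i) := by
  simp [le_iff, aa]

open Classical in
noncomputable def V (θ : ℕ) : Finset (Fin (m + 1)) := Finset.univ.filter fun i => (r i).Hol t θ

theorem mem_V {θ : ℕ} {i : Fin (m + 1)} :
    i ∈ V r t θ ↔ (φ r t i θ, θ) ∉ pw (r i).E' (t + 1) := by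
  simp only [V, Finset.mem_filter, Finset.mem_univ, true_and]
  constructor
  · intro h hc
    obtain ⟨b, h1, h2⟩ := (r i).H3 h
    exact h2 (pw_up _ _ hc (φ_le r t h1) le_rfl)
  · intro h
    exact (r i).H2 (φ_mem r t i θ) h

theorem card_V (θ : ℕ) : (V r t θ).card = {x | (r x).Hol t θ}.ncard := by
  rw [← Set.ncard_coe_finset]
  congr 1
  ext i
  simp [V]

/-- exponents of the symbolic power together with some of the extra monomials -/
def TS (P : ℕ → Prop) : Set (Fin (m + 1 + (m + 1)) →₀ ℕ) :=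
  {e | e ∈ TT r (t + 1) ∨ ∃ θ, P θ ∧ aa r t θ ≤ e}

theorem up_TS (P : ℕ → Prop) : Up (TS r t P) := by
  rintro e (he | ⟨θ, h1, h2⟩) e' hle
  · exact Or.inl (up_TT r _ e he e' hle)
  · exact Or.inr ⟨θ, h1, h2.trans hle⟩

theorem colon_TS (P : ℕ → Prop) (θ0 : ℕ) (hP : ¬ P θ0) (e : Fin (m + 1 + (m + 1)) →₀ ℕ) :
    e ∈ MV Y Z (V r t θ0) ↔ aa r t θ0 + e ∈ TS r t P := by
  constructor
  · intro he
    left
    intro i k
    show ((aa r t θ0 + e) (Y i), (aa r t θ0 + e) (Z k)) ∈ pw (A r i k) (t + 1)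
    simp only [aa, Finsupp.add_apply, ex_Y, ex_Z]
    by_cases hik : i = k
    · subst hik
      apply pw_mono (sub_A r i i)
      by_cases hi : i ∈ V r t θ0
      · have := he i hi
        exact (r i).H1 (φ_mem r t i θ0) (by simp) (by simp) (by simp only; omega)
      · rw [mem_V, not_not] at hi
        exact pw_up _ _ hi (by simp) (by simp)
    · rw [A, if_neg hik]
      exact pw_up _ _ (φ_mem r t i θ0) (by simp) (by simp)
  · rintro (h | ⟨θ, h1, h2⟩) i hi
    · have h3 : ((aa r t θ0 + e) (Y i), (aa r t θ0 + e) (Z i)) ∈ pw (A r i i) (t + 1) := h i i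
      simp only [aa, Finsupp.add_apply, ex_Y, ex_Z, A, if_true] at h3
      by_contra hc
      simp only [not_or, not_not] at hc
      rw [hc.1, hc.2] at h3
      exact (mem_V r t).1 hi h3
    · rw [aa_le] at h2
      have h3 := h2.1 i
      have h4 := h2.2 i
      simp only [aa, Finsupp.add_apply, ex_Y, ex_Z] at h3 h4
      by_contra hc
      simp only [not_or, not_not] at hc
      have hne : θ ≠ θ0 := fun h => hP (h ▸ h1)
      exact (mem_V r t).1 hi ((r i).H1 (φ_mem r t i θ) (by simp only; omega) (by simp only; omega)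
        (by simp only; omega))

def KK (n : ℕ) : Set (Fin (m + 1 + (m + 1)) →₀ ℕ) := {e | ∃ θ ≤ n, aa r t θ ≤ e}

theorem up_KK (n : ℕ) : Up (KK r t n) := fun _ ⟨θ, h1, h2⟩ _ hle => ⟨θ, h1, h2.trans hle⟩

theorem pd_KK (n : ℕ) : PDle (R (m + 1 + (m + 1))) (R (m + 1 + (m + 1)) ⧸ MI (KK r t n)) 2 := by
  induction n with
  | zero =>
    exact pd_mono (by omega) (MI_principal (a := aa r t 0) fun e =>
      ⟨fun ⟨θ, h1, h2⟩ => by rwa [Nat.le_zero.1 h1] at h2, fun h => ⟨0, le_rfl, h⟩⟩)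
  | succ n ih =>
    refine pd_colon_right (MI (KK r t n)) (MI {e | aa r t n - aa r t (n + 1) ≤ e}) _
      (monomial (aa r t (n + 1)) 1) (MI_colon (up_KK r t n) (fun e he e' hle => he.trans hle)
        fun e => ?_) (MI_sup (up_KK r t n) (up_KK r t (n + 1)) fun e => ?_) 1
      (MI_principal fun e => Iff.rfl) ih
    · rw [Set.mem_ofPred_eq, tsub_le_iff_left]
      refine ⟨fun h => ⟨n, le_rfl, h⟩, fun ⟨θ, h1, h2⟩ => ?_⟩
      rw [aa_le] at h2 ⊢
      refine ⟨fun i => (φ_anti r t i h1).trans (h2.1 i), fun i => ?_⟩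
      simp only [aa, Finsupp.add_apply, ex_Z]
      omega
    · constructor
      · rintro ⟨θ, h1, h2⟩
        rcases Nat.eq_or_lt_of_le h1 with rfl | h
        · exact Or.inr h2
        · exact Or.inl ⟨θ, by omega, h2⟩
      · rintro (⟨θ, h1, h2⟩ | h)
        · exact ⟨θ, by omega, h2⟩
        · exact ⟨n + 1, le_rfl, h⟩

theorem big_θ (i : Fin (m + 1)) {θ : ℕ} (h : (t + 1) * D r ≤ θ) (b : ℕ) :
    (b, θ) ∈ pw (r i).E' (t + 1) := by
  refine pw_up _ _ (pw_nsmul _ (t + 1) _ (r i).pure_z) (by simp) (le_trans ?_ h)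
  exact Nat.mul_le_mul_left _ (le_trans (Nat.le_add_right _ _) (le_D r i))

theorem TT_sub : TT r (t + 1) ⊆ KK r t ((t + 1) * D r) := by
  intro e he
  obtain ⟨k, -, hk⟩ := Finset.univ.exists_min_image (fun k : Fin (m + 1) => e (Z k))
    Finset.univ_nonempty
  by_cases h : e (Z k) ≤ (t + 1) * D r
  · refine ⟨e (Z k), h, (aa_le r t).2 ⟨fun i => φ_le r t (pw_mono (A_sub r i k) _ (he i k)),
      fun i => hk i (Finset.mem_univ i)⟩⟩
  · refine ⟨_, le_rfl, (aa_le r t).2 ⟨fun i => φ_le r t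
      (pw_mono (r i).E'_sub _ (big_θ r t i le_rfl _)), fun i => ?_⟩⟩
    have := hk i (Finset.mem_univ i)
    omega

theorem pd_upper (g : ℕ) (hg : 1 ≤ g) (h : ∀ θ, (V r t θ).card ≤ g) :
    PDle (R (m + 1 + (m + 1))) (R (m + 1 + (m + 1)) ⧸ MI (TT r (t + 1))) (g + 1) := by
  have key : ∀ n, PDle (R (m + 1 + (m + 1)))
      (R (m + 1 + (m + 1)) ⧸ MI (TS r t fun θ => n ≤ θ ∧ θ ≤ (t + 1) * D r)) (g + 1) := by
    intro n
    induction n with
    | zero =>
      have : (TS r t fun θ => 0 ≤ θ ∧ θ ≤ (t + 1) * D r) = KK r t ((t + 1) * D r) := by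
        ext e
        constructor
        · rintro (h | ⟨θ, h1, h2⟩)
          · exact TT_sub r t h
          · exact ⟨θ, h1.2, h2⟩
        · rintro ⟨θ, h1, h2⟩
          exact Or.inr ⟨θ, ⟨Nat.zero_le _, h1⟩, h2⟩
      rw [this]
      exact pd_mono (by omega) (pd_KK r t _)
    | succ n ih =>
      by_cases hn : n ≤ (t + 1) * D r
      · refine pd_colon _ (MI (MV Y Z (V r t n))) _ (monomial (aa r t n) 1)
          (MI_colon (up_TS r t _) (up_MV _ _ _) (colon_TS r t _ n (by omega)))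
          (MI_sup (up_TS r t _) (up_TS r t _) fun e => ?_) _
          (pd_mono (Nat.succ_le_succ (h n)) (pd_MV' Y Z Y_inj Z_inj YZ _)) ih
        constructor
        · rintro (h | ⟨θ, h1, h2⟩)
          · exact Or.inl (Or.inl h)
          · rcases Nat.eq_or_lt_of_le h1.1 with rfl | h
            · exact Or.inr h2
            · exact Or.inl (Or.inr ⟨θ, ⟨h, h1.2⟩, h2⟩)
        · rintro ((h | ⟨θ, h1, h2⟩) | h)
          · exact Or.inl h
          · exact Or.inr ⟨θ, ⟨by omega, h1.2⟩, h2⟩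
          · exact Or.inr ⟨n, ⟨le_rfl, hn⟩, h⟩
      · have : (fun θ => n + 1 ≤ θ ∧ θ ≤ (t + 1) * D r) = fun θ => n ≤ θ ∧ θ ≤ (t + 1) * D r := by
          ext θ
          omega
        rwa [this]
  have h1 := key ((t + 1) * D r + 1)
  have : (TS r t fun θ => (t + 1) * D r + 1 ≤ θ ∧ θ ≤ (t + 1) * D r) = TT r (t + 1) := by
    ext e
    exact ⟨fun h => h.resolve_right fun ⟨θ, h1, _⟩ => by omega, Or.inl⟩
  rwa [this] at h1

theorem pd_lower (g : ℕ) (hg : 1 ≤ g) (θ0 : ℕ) (h : g ≤ (V r t θ0).card) :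
    ¬ PDle (R (m + 1 + (m + 1))) (R (m + 1 + (m + 1)) ⧸ MI (TT r (t + 1))) g := by
  intro hJ
  have hne : (V r t θ0).Nonempty := Finset.card_pos.1 (by omega)
  have hθ : θ0 ≤ (t + 1) * D r := by
    obtain ⟨i, hi⟩ := hne
    by_contra hc
    exact (mem_V r t).1 hi (big_θ r t i (by omega) _)
  obtain ⟨a', b, h1, h2, h3, h4⟩ := colon_seq' (MI (TS r t fun θ => θ ≠ θ0 ∧ θ ≤ (t + 1) * D r))
    (MI (MV Y Z (V r t θ0))) (MI (KK r t ((t + 1) * D r))) (monomial (aa r t θ0) 1)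
    (MI_colon (up_TS r t _) (up_MV _ _ _) (colon_TS r t _ θ0 (by simp)))
    (MI_sup (up_TS r t _) (up_KK r t _) fun e => by
      constructor
      · rintro ⟨θ, h1, h2⟩
        by_cases h : θ = θ0
        · exact Or.inr (h ▸ h2)
        · exact Or.inl (Or.inr ⟨θ, ⟨h, h1⟩, h2⟩)
      · rintro ((h | ⟨θ, h1, h2⟩) | h)
        · exact TT_sub r t h
        · exact ⟨θ, h1.2, h2⟩
        · exact ⟨θ0, hθ, h⟩)
  obtain ⟨a, -, -, -, -, h5⟩ := colon_seq' (MI (TT r (t + 1)))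
    (MI (MV Y Z (V r t θ0))) _ (monomial (aa r t θ0) 1)
    (MI_colon (up_TT r _) (up_MV _ _ _) (fun e => by
      rw [colon_TS r t (fun _ => False) θ0 (by simp)]
      simp [TS])) rfl
  have hle : MI (TT r (t + 1)) ≤ MI (TS r t fun θ => θ ≠ θ0 ∧ θ ≤ (t + 1) * D r) :=
    MI_mono fun e he => Or.inl he
  have := pd_of_factor a (Submodule.mapQ (MI (TT r (t + 1)))
    (MI (TS r t fun θ => θ ≠ θ0 ∧ θ ≤ (t + 1) * D r)) LinearMap.id hle) a' b (by
    apply LinearMap.ext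
    intro x
    obtain ⟨y, rfl⟩ := Submodule.mkQ_surjective _ x
    rw [h4, LinearMap.comp_apply, h5]
    rfl) h1 h2 h3 g hJ (pd_mono (by omega) (pd_KK r t _))
  exact (pd_MV Y Z Y_inj Z_inj YZ _ hne).2.not_pd (pd_mono h this)

end Pool.Agent.H353Z.SymE
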